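import Pool.Agent.Lib.MP_651af7_nt.Un.Voc
import Pool.Agent.Lib.MP_651af7_nt.Bx.Vec

/-! Base change: dimension, tangent spaces, change of the basis. -/

namespace Pool.Agent.Lib.MP_651af7_nt.Un

open MvPolynomial Height Pool.Agent.Lib.MP_651af7_nt.Av

variable {k ι : Type} [Field k] [Fintype ι] {B : AV k ι} {L : Type} [Field L] [Algebra k L]

omit [Fintype ι] in
theorem bc_tang {R : Type} [CommRing R] [Algebra k R] [Algebra L R] [IsScalarTower k L R]
    {x v l : ι → R} : (bc B L).Tang x v l ↔ B.Tang x v l :=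
  (bc_sub B L).tang_iff.trans ⟨fun h => h.1, fun h => ⟨h, bc_zero.2 h.mem⟩⟩

theorem bc_kills {g r : ℕ} {σ : Fin g → ι → k} {C : Chart L ι r} {x : ι → L} {ℓ : Fin g → L} :
    (bc B L).Kills (fun j a => algebraMap k L (σ j a)) C x ℓ ↔ B.Kills σ C x ℓ := by
  simp only [AV.Kills, bc_tang, Algebra.algebraMap_self, RingHom.id_apply]

variable (B L) in
theorem bc_dim : (bc B L).dim = B.dim := by
  obtain ⟨M, _, _, _, _, x, hx, h0, hd, -⟩ := B.tr_gen L
  have h := ((bc B L).gen_iff (K := L) (Function.ne_iff.2 ⟨_, h0⟩)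
    fun f hf => (hx f).2 (bc_I B L ▸ hf)).1 fun f n _ e => by
      have h4 : f ∈ (bc B L).I := bc_I B L ▸ (hx f).1 e
      have h5 := ((bc B L).mem_IK_iff (K := L)).2 h4
      rwa [Algebra.algebraMap_self, MvPolynomial.map_id] at h5
  exact_mod_cast h.symm.trans hd

omit [Fintype ι] in
theorem bc_lieBasis {g : ℕ} {σ : Fin g → ι → k} (h : B.LieBasis σ) :
    (bc B L).LieBasis fun j a => algebraMap k L (σ j a) := by
  refine ⟨fun j => ⟨?_, bc_zero.2 fun f hf => ?_⟩, ?_, fun R _ _ l hl => ?_⟩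
  · exact (bc_sub B L).ao ▸ (congrArg (algebraMap k L) (h.mem j).1).trans (map_zero _)
  · rw [show (fun c => algebraMap L L ((bc B L).o c)) = fun c => algebraMap k L (B.o c) from
      funext (bc_sub B L).o]
    exact ((AV.tang_zero (h.mem j)).map (Algebra.ofId k L)).mem f hf
  · refine Fintype.linearIndependent_iff.2 fun c hc j =>
      (Module.forall_dual_apply_eq_zero_iff k _).1 fun ψ =>
        Fintype.linearIndependent_iff.1 h.indep (fun i => ψ (c i)) (funext fun a => ?_) j
    have h1 := congrArg ψ (congrFun hc a)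
    simp only [Finset.sum_apply, Pi.smul_apply, smul_eq_mul, Pi.zero_apply, map_sum,
      map_zero] at h1 ⊢
    rw [← h1]
    exact Finset.sum_congr rfl fun i _ => by
      rw [mul_comm (c i), ← Algebra.smul_def, map_smul, smul_eq_mul, mul_comm]
  · let _ : Algebra k R := ((algebraMap L R).comp (algebraMap k L)).toAlgebra
    have : IsScalarTower k L R := .of_algebraMap_eq fun _ => rfl
    exact h.span R l ((bc_sub B L).isLie hl)

omit [Fintype ι] in
theorem lie_card_le {g g' : ℕ} {σ : Fin g → ι → k} {σ' : Fin g' → ι → k} (h : B.LieBasis σ)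
    (h' : B.LieBasis σ') : g ≤ g' := by
  classical
  have h1 := linearIndependent_le_span_aux' σ h.indep (Set.range σ') (by
    rintro _ ⟨j, rfl⟩
    obtain ⟨τ, hτ⟩ := h'.span k (σ j) (h.mem j)
    have e : σ j = ∑ i, τ i • σ' i := funext fun a => by simpa using hτ a
    rw [e]
    exact Submodule.sum_mem _ fun i _ => Submodule.smul_mem _ _ (Submodule.subset_span ⟨i, rfl⟩))
  simpa using h1.trans (Fintype.card_range_le σ')

omit [Fintype ι] in
theorem lie_card {g g' : ℕ} {σ : Fin g → ι → k} {σ' : Fin g' → ι → k} (h : B.LieBasis σ)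
    (h' : B.LieBasis σ') : g = g' :=
  le_antisymm (lie_card_le h h') (lie_card_le h' h)

theorem exists_lieBasis_of_bc [CharZero k] {g : ℕ} {σ' : Fin g → ι → L} (h : (bc B L).LieBasis σ') :
    ∃ σ : Fin g → ι → k, B.LieBasis σ := by
  obtain ⟨r, σ, hσ⟩ := Bx.exists_lieBasis B
  obtain rfl := lie_card h (bc_lieBasis hσ)
  exact ⟨σ, hσ⟩

/-- Write `σ' l = ∑ i, M l i • σ i` and `σ i = ∑ l, N i l • σ' l` (`span`, `mem`); put
`ℓ i = ∑ l, N i l * ℓ' l` and `τ i = ∑ l, τ' l * M l i`; `M * N = 1` by `indep`;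
`logHeight_linearMap_apply_le`. -/
theorem kills_basis [NumberField k] {g : ℕ} {σ σ' : Fin g → ι → k} (h : B.LieBasis σ)
    (h' : B.LieBasis σ') : ∃ c : ℝ, ∀ (r : ℕ) (C : Chart k ι r) (x : ι → k) (ℓ' : Fin g → k),
      ℓ' ≠ 0 → B.Kills σ' C x ℓ' →
      ∃ ℓ : Fin g → k, ℓ ≠ 0 ∧ B.Kills σ C x ℓ ∧ logHeight ℓ ≤ logHeight ℓ' + c := by
  classical
  choose M hM using fun l => h.span k (σ' l) (h'.mem l)
  choose N hN using fun i => h'.span k (σ i) (h.mem i)
  simp only [Algebra.algebraMap_self, RingHom.id_apply] at hM hN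
  have hMN : ∀ l l', ∑ i, M l i * N i l' = if l = l' then 1 else 0 := by
    intro l
    have h1 := Fintype.linearIndependent_iff.1 h'.indep
      (fun l' => ∑ i, M l i * N i l' - if l = l' then 1 else 0) (by
        funext a
        have h2 : ∑ l', (∑ i, M l i * N i l') * σ' l' a = σ' l a := by
          rw [hM l a]
          simp only [Finset.sum_mul]
          rw [Finset.sum_comm]
          refine Finset.sum_congr rfl fun i _ => ?_
          rw [hN i a, Finset.mul_sum]
          exact Finset.sum_congr rfl fun l' _ => mul_assoc _ _ _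
        simp only [Finset.sum_apply, Pi.smul_apply, smul_eq_mul, sub_mul, Finset.sum_sub_distrib,
          h2, ite_mul, one_mul, zero_mul, Finset.sum_ite_eq, Finset.mem_univ, if_true, sub_self,
          Pi.zero_apply])
    exact fun l' => sub_eq_zero.1 (h1 l')
  refine ⟨totalWeight k * Real.log (Nat.card (Fin g)) +
    logHeight fun p : Fin g × Fin g => N p.1 p.2, fun r C x ℓ' h0 hk => ?_⟩
  have key : ∀ l, ∑ i, M l i * ∑ l', N i l' * ℓ' l' = ℓ' l := by
    intro l
    simp only [Finset.mul_sum]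
    rw [Finset.sum_comm]
    simp only [← mul_assoc, ← Finset.sum_mul, hMN, ite_mul, one_mul, zero_mul, Finset.sum_ite_eq,
      Finset.mem_univ, if_true]
  refine ⟨fun i => ∑ l, N i l * ℓ' l, fun e => h0 (funext fun l => ?_), fun j => ?_, ?_⟩
  · rw [← key l]
    exact Finset.sum_eq_zero fun i _ => by
      rw [show ∑ l', N i l' * ℓ' l' = 0 from congrFun e i, mul_zero]
  · obtain ⟨v, τ, h1, h2, h3⟩ := hk j
    refine ⟨v, fun i => ∑ l, τ l * M l i, h1, ?_, ?_⟩
    · have h4 : (fun a => ∑ i, (∑ l, τ l * M l i) * algebraMap k k (σ i a)) =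
          fun a => ∑ l, τ l * algebraMap k k (σ' l a) := by
        funext a
        simp only [Algebra.algebraMap_self, RingHom.id_apply, Finset.sum_mul]
        rw [Finset.sum_comm]
        refine Finset.sum_congr rfl fun l _ => ?_
        rw [hM l a, Finset.mul_sum]
        exact Finset.sum_congr rfl fun i _ => mul_assoc _ _ _
      rw [h4]
      exact h2
    · rw [← h3]
      simp only [Finset.mul_sum (s := Finset.univ) (f := fun l => τ l * M l _)]
      rw [Finset.sum_comm]
      refine Finset.sum_congr rfl fun l _ => ?_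
      rw [← key l, Finset.sum_mul]
      exact Finset.sum_congr rfl fun i _ => by ring
  · have h1 := logHeight_linearMap_apply_le (fun p : Fin g × Fin g => N p.1 p.2) ℓ'
    linarith

theorem good_basis [NumberField k] {g : ℕ} {σ σ' : Fin g → ι → k} (h : B.LieBasis σ)
    (h' : B.LieBasis σ') {δ : ℝ} (hδ : 0 < δ) : ∃ W : ℝ, ∀ (r ρ B₀ e : ℕ) (ε : ℝ)
      (b : B.Blk g r ρ), W ≤ AV.ht b.P → b.Good σ B₀ e ε δ → b.Good σ' B₀ e ε (δ / 2) := by
  obtain ⟨c, hc⟩ := kills_basis h h'
  refine ⟨2 * c / δ, fun r ρ B₀ e ε b hW hb => ⟨hb.rep, hb.atx, hb.on, hb.nn, hb.smφ, hb.smu,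
    hb.smc, fun ℓ' h0 hk => ?_⟩⟩
  obtain ⟨ℓ, h1, h2, h3⟩ := hc r b.C b.x ℓ' h0 hk
  have h4 := hb.nsv ℓ h1 h2
  rw [div_le_iff₀' hδ] at hW
  linarith

/-- `td_eq_of_isAlgebraic`, `bc_dim`, `bc_zero`; make `M` a `k`-algebra through `L`. -/
theorem Cod2.bc [Algebra.IsAlgebraic k L] {J : Type} {G : J → MvPolynomial ι k} (h : Cod2 B G) :
    Cod2 (bc B L) fun j => MvPolynomial.map (algebraMap k L) (G j) := by
  intro M _ _ w h0 hw hG
  let _ : Algebra k M := ((algebraMap L M).comp (algebraMap k L)).toAlgebra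
  have : IsScalarTower k L M := .of_algebraMap_eq fun _ => rfl
  rw [td_eq_of_isAlgebraic (K := k), bc_dim]
  exact h M w h0 (bc_zero.1 hw) fun j => by
    rw [← aeval_map_algebraMap L]
    exact hG j

/-- `AV.tr_gen k`. -/
theorem Cod2.exists_notMem {J : Type} {G : J → MvPolynomial ι k} (h : Cod2 B G) :
    ∃ j, G j ∉ B.I := by
  by_contra h0
  push Not at h0
  obtain ⟨M, _, -, _, -, x, hx, hx0, hd, -⟩ := B.tr_gen k
  have h1 : ∀ f ∈ B.I, aeval x f = 0 := fun f hf => by
    have h2 := (hx _).2 (Ideal.mem_map_of_mem (MvPolynomial.map (algebraMap k k)) hf)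
    rwa [Algebra.algebraMap_self, MvPolynomial.map_id] at h2
  have h2 := h M x (Function.ne_iff.2 ⟨_, hx0⟩) h1 fun j => h1 _ (h0 j)
  rw [hd] at h2
  have h3 : B.dim + 2 ≤ B.dim := by exact_mod_cast h2
  omega

end Pool.Agent.Lib.MP_651af7_nt.Un
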