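import Pool.Agent.Lib.MP_651af7_nt.Av.SeqC

/-! Ultraproducts of a family of number fields, base change. -/

namespace Pool.Agent.Lib.MP_651af7_nt.Un

open MvPolynomial Height Filter
open Pool.Agent.Lib.MP_651af7_nt.Av

section germs

variable {α : Type} (U : Ultrafilter α) {K : α → Type} [∀ n, Field (K n)]

variable (K) in
/-- The families that vanish almost everywhere. -/
def nul : Ideal (∀ n, K n) where
  carrier := {f | ∀ᶠ n in U, f n = 0}
  add_mem' hf hg := (Eventually.and hf hg).mono fun n h => by simp [h.1, h.2]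
  zero_mem' := Eventually.of_forall fun _ => rfl
  smul_mem' c f hf := Eventually.mono hf fun n h => by simp [h]

instance : (nul U K).IsMaximal := by
  classical
  refine Ideal.isMaximal_iff.2 ⟨fun h => ?_, fun J f hJ hf hfJ => ?_⟩
  · obtain ⟨n, hn⟩ := Eventually.exists (show ∀ᶠ n in U, (1 : ∀ n, K n) n = 0 from h)
    exact one_ne_zero hn
  · have h1 : ∀ᶠ n in U, f n ≠ 0 := Ultrafilter.eventually_not.2 hf
    have h2 : 1 - f⁻¹ * f ∈ nul U K := h1.mono fun n hn => by simp [hn]
    simpa using J.add_mem (hJ h2) (J.mul_mem_left f⁻¹ hfJ)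

variable (K) in
/-- The ultraproduct. -/
def Up : Type := (∀ n, K n) ⧸ nul U K

noncomputable instance : Field (Up U K) := Ideal.Quotient.field (nul U K)

/-- The germ of a family. -/
def germ : (∀ n, K n) →+* Up U K := Ideal.Quotient.mk (nul U K)

theorem germ_surj (a : Up U K) : ∃ f, germ U f = a := Ideal.Quotient.mk_surjective a

theorem germ_eq {f g : ∀ n, K n} : germ U f = germ U g ↔ ∀ᶠ n in U, f n = g n :=
  Ideal.Quotient.eq.trans (eventually_congr (.of_forall fun _ => sub_eq_zero))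

/-- The family `p` represents the polynomial `P`. -/
def Repr {σ : Type} (P : MvPolynomial σ (Up U K)) (p : ∀ n, MvPolynomial σ (K n)) : Prop :=
  (∃ s : Finset (σ →₀ ℕ), ∀ n, (p n).support ⊆ s) ∧ ∀ μ, coeff μ P = germ U fun n => coeff μ (p n)

variable {k : Type} [Field k] [∀ n, Algebra k (K n)]

noncomputable instance : Algebra k (Up U K) :=
  ((germ U).comp (algebraMap k (∀ n, K n))).toAlgebra

theorem algebraMap_up (c : k) :
    algebraMap k (Up U K) c = germ U fun n => algebraMap k (K n) c := rfl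

/-- The point `Y` is the germ of the family `y`. -/
def IsGerm {ι : Type} {A : AV k ι} (Y : A.Pt (Up U K)) (y : ∀ n, A.Pt (K n)) : Prop :=
  AV.Rep Y fun a => germ U fun n => (y n).co a

variable [∀ n, NumberField (K n)]

variable (k K) in
/-- The fields have bounded degree and `H` dominates the constants. -/
structure Big (H : α → ℝ) : Prop where
  top : Tendsto H U atTop
  tw : ∃ R : ℕ, ∀ n, totalWeight (K n) ≤ R
  base : ∀ c : k, Lo U H fun n => logHeight₁ (algebraMap k (K n) c)

variable {U}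

/-- The field of the germs of height `o (H)`. -/
noncomputable def Sm {H : α → ℝ} (hH : Big U K k H) : IntermediateField k (Up U K) where
  carrier := {a | ∃ f, germ U f = a ∧ Lo U H fun n => logHeight₁ (f n)}
  mul_mem' := by
    rintro _ _ ⟨f, rfl, hf⟩ ⟨g, rfl, hg⟩
    exact ⟨f * g, map_mul _ _ _, (hf.add hg).mono (.of_forall fun n => logHeight₁_mul_le _ _)⟩
  add_mem' := by
    rintro _ _ ⟨f, rfl, hf⟩ ⟨g, rfl, hg⟩
    obtain ⟨R, hR⟩ := hH.tw
    refine ⟨f + g, map_add _ _ _, (((Lo.const hH.top (R * Real.log 2)).add hf).add hg).mono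
      (.of_forall fun n => (logHeight₁_add_le _ _).trans ?_)⟩
    have h1 : (totalWeight (K n) : ℝ) ≤ R := Nat.cast_le.2 (hR n)
    have h2 := mul_le_mul_of_nonneg_right h1 (Real.log_nonneg one_le_two)
    linarith
  algebraMap_mem' c := ⟨_, rfl, hH.base c⟩
  inv_mem' := by
    rintro _ ⟨f, rfl, hf⟩
    exact ⟨f⁻¹, by
      rcases eq_or_ne (germ U f) 0 with h | h
      · rw [h, inv_zero, ← map_zero (germ U), germ_eq]
        rw [← map_zero (germ U), germ_eq] at h
        exact h.mono fun n hn => inv_eq_zero.2 hn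
      · refine eq_inv_of_mul_eq_one_left ?_
        rw [← map_zero (germ U), Ne, germ_eq, ← Ultrafilter.eventually_not] at h
        rw [← map_mul, ← map_one (germ U), germ_eq]
        exact h.mono fun n hn => inv_mul_cancel₀ hn,
      hf.mono (.of_forall fun n => (logHeight₁_inv _).le)⟩

end germs

section dom

variable {T : Type} {β : T → Type} (U : Ultrafilter (Σ t, β t))

/-- `H` dominates the functions of the first coordinate. -/
def Dom (H : (Σ t, β t) → ℝ) : Prop := ∀ c : T → ℝ, ∀ᶠ n in U, c n.1 ≤ H n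

variable {U} {H : (Σ t, β t) → ℝ}

theorem Dom.lo (h : Dom U H) (c : T → ℝ) : Lo U H fun n => c n.1 := fun ε hε =>
  (h fun t => c t / ε).mono fun _ hn => (div_le_iff₀' hε).1 hn

theorem Dom.top (h : Dom U H) : Tendsto H U atTop := tendsto_atTop.2 fun c => h fun _ => c

theorem Dom.big (h : Dom U H) (k : Type) [Field k] {F : T → Type} [∀ t, Field (F t)]
    [∀ t, Algebra k (F t)] [∀ t, NumberField (F t)] {R : ℕ} (hR : ∀ t, totalWeight (F t) ≤ R) :
    Big U (fun n => F n.1) k H :=
  ⟨h.top, ⟨R, fun n => hR n.1⟩, fun c => h.lo fun t => logHeight₁ (algebraMap k (F t) c)⟩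

theorem Dom.of_le (h : Dom U H) {H' : (Σ t, β t) → ℝ} (h' : ∀ᶠ n in U, H n ≤ 2 * H' n) :
    Dom U H' := fun c => ((h fun t => 2 * c t).and h').mono fun _ hn => by linarith [hn.1, hn.2]

/-- A fibre that meets `G` in a set on which `H` is unbounded. -/
theorem Dom.fibre (h : Dom U H) {G : (Σ t, β t) → Prop} (hG : ∀ᶠ n in U, G n) :
    ∃ t, ∀ C : ℝ, ∃ b : β t, G ⟨t, b⟩ ∧ C < H ⟨t, b⟩ := by
  by_contra h0
  push Not at h0
  choose c hc using h0
  obtain ⟨n, h1, h2⟩ := (hG.and (h fun t => c t + 1)).exists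
  linarith [hc n.1 n.2 h1]

theorem Dom.ultra (h : Dom U H) {G : (Σ t, β t) → Prop} (hG : ∀ᶠ n in U, G n) :
    ∃ (t : T) (W : Ultrafilter (β t)), (∀ᶠ b in W, G ⟨t, b⟩) ∧
      Tendsto (fun b => H ⟨t, b⟩) W atTop := by
  obtain ⟨t, ht⟩ := h.fibre hG
  have hne : (comap (fun b : β t => H ⟨t, b⟩) atTop ⊓ 𝓟 {b | G ⟨t, b⟩}).NeBot := by
    rw [inf_principal_neBot_iff]
    rintro s ⟨u, hu, hs⟩
    obtain ⟨C, hC⟩ := mem_atTop_sets.1 hu
    obtain ⟨b, h1, h2⟩ := ht C
    exact ⟨b, hs (hC _ h2.le), h1⟩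
  have hU := Ultrafilter.of_le (comap (fun b : β t => H ⟨t, b⟩) atTop ⊓ 𝓟 {b | G ⟨t, b⟩})
  exact ⟨t, _, (hU.trans inf_le_right) (mem_principal_self _),
    tendsto_iff_comap.2 (hU.trans inf_le_left)⟩

end dom

section bc

variable {k ι : Type} [Field k] (B : AV k ι) (L : Type) [Field L] [Algebra k L]

/-- Base change. -/
noncomputable def bc : AV L ι := (exists_baseChange B L).choose.av

theorem bc_I : (bc B L).I = B.IK L := (exists_baseChange B L).choose_spec

theorem bc_sub : Sub B (bc B L) := SubData.sub_av _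

variable {B L} {R : Type} [CommRing R] [Algebra k R] [Algebra L R] [IsScalarTower k L R]

theorem bc_zero {v : ι → R} : (∀ f ∈ (bc B L).I, aeval v f = 0) ↔ ∀ f ∈ B.I, aeval v f = 0 := by
  rw [bc_I]
  exact ⟨fun h f hf => by
    rw [← aeval_map_algebraMap L]
    exact h _ (Ideal.mem_map_of_mem _ hf), fun h => aeval_of_mem_map h⟩

variable (L) in
theorem exists_bc {P : B.Pt R} {v : ι → R} (h : AV.Rep P v) : ∃ Q : (bc B L).Pt R, AV.Rep Q v :=
  AV.exists_rep h.unit (bc_zero.2 h.zero)

variable (B L R) in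
theorem bc_surj [IsLocalRing R] : Function.Surjective ((bc_sub B L).inc R) := fun P =>
  (bc_sub B L).exists_inc_eq (AV.rep_co P) (bc_zero.2 (AV.rep_co P).zero)

variable (B) in
/-- The common zeros of `G` have codimension at least two. -/
def Cod2 {J : Type} (G : J → MvPolynomial ι k) : Prop :=
  ∀ (M : Type) [Field M] [Algebra k M] (w : ι → M), w ≠ 0 → (∀ f ∈ B.I, aeval w f = 0) →
    (∀ j, aeval w (G j) = 0) → td k (rat w) + 2 ≤ B.dim

end bc

theorem tw_eq (k : Type) [Field k] [NumberField k] : totalWeight k = Module.finrank ℚ k :=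
  NumberField.totalWeight_eq_finrank k

end Pool.Agent.Lib.MP_651af7_nt.Un
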