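import Pool.Agent.Lib.MP_651af7_nt.Un.LosB

/-! Almost all fields of the family have a point off a given form. -/

namespace Pool.Agent.Lib.MP_651af7_nt.Un

open MvPolynomial Filter Height Pool.Agent.Lib.MP_651af7_nt.Av Pool.Agent.Lib.MP_651af7_nt.Av.AV

/-- `AV.dense_of_gens` (`Av/Geo`) for `bc B k₀`: transport `Gens` (`F` becomes a
`k₀`-algebra through `K`; `Sub.inc_map`, `map_map_ideal`, `bc_surj`), `AV.mem_IK_iff`. -/
theorem exists_pt_of_gens {k ι k₀ K E : Type} [Field k] [CharZero k] [Fintype ι] [Field k₀]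
    [Field K] [Field E] [Algebra k k₀] [Algebra k K] [Algebra k E] [Algebra k₀ K] [Algebra k₀ E]
    [Algebra K E] [IsScalarTower k k₀ K] [IsScalarTower k k₀ E] [IsScalarTower k K E]
    [IsScalarTower k₀ K E] (B : AV k ι) {y : B.Pt E} (hy : B.Gens K y)
    (h : ∀ (f : MvPolynomial ι k₀) (n : ℕ), f.IsHomogeneous n → aeval y.co f ≠ 0 →
      ∃ P : B.Pt k₀, eval P.co f ≠ 0)
    {S : MvPolynomial ι k} {n : ℕ} (hS : S.IsHomogeneous n) (h0 : S ∉ B.I) :
    ∃ P : B.Pt k₀, aeval P.co S ≠ 0 := by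
  have : CharZero k₀ := charZero_of_injective_algebraMap (algebraMap k k₀).injective
  have hs := bc_sub B k₀
  obtain ⟨y', rfl⟩ := bc_surj B k₀ E y
  have hg' : (bc B k₀).Gens K y' := by
    obtain ⟨F, _, _, _, _, N, i, i', hg⟩ := hy
    let _ : Algebra k₀ F := ((algebraMap K F).comp (algebraMap k₀ K)).toAlgebra
    have : IsScalarTower k₀ K F := .of_algebraMap_eq fun _ => rfl
    have : IsScalarTower k k₀ F := .of_algebraMap_eq fun c => by
      rw [IsScalarTower.algebraMap_apply k K F, IsScalarTower.algebraMap_apply k k₀ K]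
      rfl
    refine ⟨F, _, _, _, inferInstance, N, i, i', fun f m hf e => ?_⟩
    rw [IK, bc_I, IK, map_map_ideal]
    refine hg f m hf ?_
    have e1 : hs.inc F (∑ l, ((bc B k₀).map ((i l).restrictScalars k₀) y' -
        (bc B k₀).map ((i' l).restrictScalars k₀) y')) =
        ∑ l, (B.map ((i l).restrictScalars k) (hs.inc E y') -
          B.map ((i' l).restrictScalars k) (hs.inc E y')) := by
      rw [map_sum]
      refine Finset.sum_congr rfl fun l _ => ?_
      rw [map_sub, hs.inc_map, hs.inc_map]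
      rfl
    rw [← e1]
    obtain ⟨u, hu⟩ := hs.rep_of_inc (rep_co (hs.inc F _))
    rw [funext hu, aeval_mul_of_hom hf, e, mul_zero]
  have hd := dense_of_gens (bc B k₀) hg' fun f m hf hP => by
    by_contra hne
    obtain ⟨u, hu⟩ := hs.rep_inc (rep_co y')
    have h1 : aeval (hs.inc E y').co f ≠ 0 := fun e => hne (by
      rw [funext hu, aeval_mul_of_hom hf, e, mul_zero])
    obtain ⟨P, hP'⟩ := h f m hf h1
    obtain ⟨P', rfl⟩ := bc_surj B k₀ k₀ P
    exact hP' (geo_rep (rep_co P') (hs.rep_of_inc (rep_co _)) hf (hP P'))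
  by_contra hne
  push Not at hne
  refine h0 ((B.mem_IK_iff (K := k₀)).1 (bc_I B k₀ ▸ hd _ n (hS.map _) fun P => ?_))
  have h1 := geo_rep (rep_co (hs.inc k₀ P)) (hs.rep_inc (rep_co P)) hS (hne _)
  rwa [← aeval_map_algebraMap k₀] at h1

variable {T : Type} {β : T → Type} {U : Ultrafilter (Σ t, β t)} {F : T → Type} [∀ t, Field (F t)]
  {k ι : Type} [Field k] [CharZero k] [Fintype ι] [∀ t, Algebra k (F t)] [∀ t, NumberField (F t)]

variable (U F k) in
/-- The germs of the families that depend on the first coordinate only. -/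
noncomputable def dnsb_K : IntermediateField k (Up U fun n : Σ t, β t => F n.1) where
  carrier := {a | ∃ g : ∀ t, F t, germ U (K := fun n : Σ t, β t => F n.1) (fun n => g n.1) = a}
  mul_mem' := by
    rintro _ _ ⟨f, rfl⟩ ⟨g, rfl⟩
    exact ⟨f * g, map_mul (germ U) (fun n : Σ t, β t => f n.1) fun n => g n.1⟩
  add_mem' := by
    rintro _ _ ⟨f, rfl⟩ ⟨g, rfl⟩
    exact ⟨f + g, map_add (germ U) (fun n : Σ t, β t => f n.1) fun n => g n.1⟩
  algebraMap_mem' c := ⟨fun t => algebraMap k (F t) c, rfl⟩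
  inv_mem' := by
    rintro _ ⟨f, rfl⟩
    refine ⟨f⁻¹, ?_⟩
    rcases eq_or_ne (germ U (K := fun n : Σ t, β t => F n.1) fun n => f n.1) 0 with h | h
    · rw [h, inv_zero, germ_eq_zero]
      exact (germ_eq_zero.1 h).mono fun n hn => inv_eq_zero.2 hn
    · refine eq_inv_of_mul_eq_one_left ?_
      rw [← map_mul, ← map_one (germ U), germ_eq]
      exact (germ_ne_zero.1 h).mono fun n hn => inv_mul_cancel₀ hn

/-- Let `k₀ : IntermediateField k (Up ..)` be the field of the germs of the families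
`n ↦ g n.1`, `g : ∀ t, F t`; it lies in `Sm hH` by `Dom.lo`; `Algebra k₀ (Sm hH)` from
`IntermediateField.inclusion`.  For a form `f` over `k₀` choose `g μ` for the coefficients,
`f t = ∑ μ ∈ f.support, monomial μ (g μ t)`, `Repr.aeval`; if `f (Y) ≠ 0`, then for almost all `n`
some point `P t` of `B.Pt (F t)`, `t = n.1`, has `f t (P t) ≠ 0` (choose it, `0` otherwise); the germ
of `P n.1` has coordinates in `k₀`.  `exists_pt_of_gens`, then `exists_germ` (surjectivity) for the
image of the point in `Up`. -/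
theorem eventually_pt (B : AV k ι) {y : ∀ n : Σ t, β t, B.Pt (F n.1)} {H : (Σ t, β t) → ℝ}
    (hD : Dom U H) (hH : Big U (fun n => F n.1) k H) {Y : B.Pt (Up U fun n => F n.1)}
    (hY : IsGerm U Y y) (hg : B.Gens (Sm hH) Y) {S : MvPolynomial ι k} {n : ℕ}
    (hS : S.IsHomogeneous n) (h0 : S ∉ B.I) :
    ∀ᶠ l : Σ t, β t in U, ∃ P : B.Pt (F l.1), aeval P.co S ≠ 0 := by
  classical
  have hle : dnsb_K U F k ≤ Sm hH := by
    rintro _ ⟨g, rfl⟩
    exact ⟨_, rfl, hD.lo fun t => logHeight₁ (g t)⟩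
  let _ : Algebra (dnsb_K U F k) (Sm hH) := (IntermediateField.inclusion hle).toRingHom.toAlgebra
  have : IsScalarTower k (dnsb_K U F k) (Sm hH) :=
    .of_algebraMap_eq fun c => ((IntermediateField.inclusion hle).commutes c).symm
  have : IsScalarTower (dnsb_K U F k) (Sm hH) (Up U fun n : Σ t, β t => F n.1) :=
    .of_algebraMap_eq fun _ => rfl
  obtain ⟨P, hP⟩ := exists_pt_of_gens (k₀ := dnsb_K U F k) B hg (fun f m hf hf0 => by
    choose g hg using fun μ => (coeff μ f).2
    let p : ∀ t, MvPolynomial ι (F t) := fun t => ∑ μ ∈ f.support, monomial μ (g μ t)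
    have key : ∀ t μ, coeff μ (p t) = if μ ∈ f.support then g μ t else 0 := fun t μ => by
      simp only [p, coeff_sum, coeff_monomial, Finset.sum_ite_eq']
    have hr : Repr U (MvPolynomial.map (algebraMap _ (Up U fun n : Σ t, β t => F n.1)) f)
        fun n => p n.1 := by
      refine ⟨⟨f.support, fun n μ hμ => ?_⟩, fun μ => ?_⟩
      · rw [mem_support_iff, key] at hμ
        by_contra h
        exact hμ (if_neg h)
      · simp only [key, coeff_map]
        split_ifs with hμ
        · exact (hg μ).symm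
        · rw [notMem_support_iff.1 hμ, map_zero]
          exact (map_zero _).symm
    have h1 : ∀ᶠ n : Σ t, β t in U, ∃ Q : B.Pt (F n.1), eval Q.co (p n.1) ≠ 0 := by
      have h2 := hr.aeval fun n => (y n).co
      obtain ⟨u, hu⟩ := hY
      rw [aeval_map_algebraMap, show (fun a => germ U fun n => (y n).co a) =
        fun a => u * Y.co a from funext hu, aeval_mul_of_hom hf] at h2
      exact (germ_ne_zero.1 (h2 ▸ mul_ne_zero (pow_ne_zero _ u.ne_zero) hf0)).mono
        fun n hn => ⟨_, hn⟩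
    have h2 : ∀ t, ∃ Q : B.Pt (F t), (∃ Q' : B.Pt (F t), eval Q'.co (p t) ≠ 0) →
        eval Q.co (p t) ≠ 0 := fun t => by
      by_cases h : ∃ Q' : B.Pt (F t), eval Q'.co (p t) ≠ 0
      · exact ⟨h.choose, fun _ => h.choose_spec⟩
      · exact ⟨0, fun h' => absurd h' h⟩
    choose Q hQ using h2
    let v : ι → dnsb_K U F k := fun a => ⟨_, fun t => (Q t).co a, rfl⟩
    obtain ⟨Z, u, hu⟩ := exists_rep (A := B) (v := v) (by
      obtain ⟨a, ha⟩ := exists_unit_germ (U := U) (K := fun n : Σ t, β t => F n.1)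
        (x := fun n => (Q n.1).co) (.of_forall fun n => (rep_co (Q n.1)).unit)
      exact ⟨a, isUnit_iff_ne_zero.2 fun h0 => ha.ne_zero (congrArg Subtype.val h0)⟩)
      fun q hq => by
        refine (dnsb_K U F k).val.injective ?_
        change (dnsb_K U F k).val _ = (dnsb_K U F k).val _
        rw [← aeval_hom, map_zero]
        refine (aeval_germ (U := U) (K := fun n : Σ t, β t => F n.1) q
          fun n => (Q n.1).co).trans (germ_eq_zero.2 ?_)
        exact .of_forall fun n => (rep_co (Q n.1)).zero q hq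
    refine ⟨Z, fun h => ?_⟩
    have h3 := hr.aeval fun n => (Q n.1).co
    rw [aeval_map_algebraMap] at h3
    have h4 : aeval v f = 0 := by
      rw [show v = fun a => u * Z.co a from funext hu, aeval_mul_of_hom hf, aeval_eq_eval, h,
        mul_zero]
    have h5 := aeval_hom (Algebra.ofId (dnsb_K U F k) (Up U fun n : Σ t, β t => F n.1)) v f
    rw [h4, map_zero] at h5
    exact germ_ne_zero.2 (h1.mono fun n hn => hQ n.1 hn) (h3.symm.trans h5)) hS h0
  choose g hg' using fun a => (P.co a).2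
  have hr := (rep_co P).map (dnsb_K U F k).val
  have e : (fun a => (dnsb_K U F k).val (P.co a)) =
      fun a => germ U (K := fun n : Σ t, β t => F n.1) fun n => g a n.1 :=
    funext fun a => (hg' a).symm
  have h1 := aeval_hom (dnsb_K U F k).val P.co S
  rw [e] at hr h1
  rw [aeval_germ (K := fun n : Σ t, β t => F n.1) S fun n a => g a n.1] at h1
  obtain ⟨a, ha⟩ := hr.unit
  have h2 := germ_ne_zero.1 (h1 ▸ (map_ne_zero (dnsb_K U F k).val).2 hP)
  refine (((germ_isUnit.1 ha).and (eventually_zero (K := fun n : Σ t, β t => F n.1)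
    (x := fun n a => g a n.1) hr.zero)).and h2).mono fun l hl => ?_
  obtain ⟨Q, u, hu⟩ := exists_rep (A := B) ⟨a, hl.1.1⟩ hl.1.2
  refine ⟨Q, fun h => hl.2 ?_⟩
  rw [show (fun a => g a l.1) = fun a => u * Q.co a from funext hu, aeval_mul_of_hom hS, h,
    mul_zero]

end Pool.Agent.Lib.MP_651af7_nt.Un
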