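import Pool.Agent.Lib.MP_651af7_nt.Un.Voc

/-! Expansion in the powers of a generator and Siegel's lemma, uniformly in the field. -/

namespace Pool.Agent.Lib.MP_651af7_nt.Un

open MvPolynomial Finset NumberField Height Pool.Agent.Lib.MP_651af7_nt.Av
open Pool.Agent.Lib.Common.Subspace (IsInt len)

theorem eexpa_coord {k : Type} [Field k] [NumberField k] : ∃ c : ℝ, 0 ≤ c ∧ ∀ (α : 𝓞 k) j,
    |(((RingOfIntegers.basis k).repr α j : ℤ) : ℝ)| ≤ c * house (α : k) := by
  classical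
  obtain ⟨c, hc⟩ : ∃ c : ℝ, ∀ (α : 𝓞 k) (σ : k →+* ℂ),
      ‖(((integralBasis k).reindex (equivReindex k).symm).repr α σ : ℂ)‖ ≤
        c * house (algebraMap (𝓞 k) k α) :=
    ⟨_, NumberField.house.basis_repr_norm_le_const_mul_house k⟩
  refine ⟨max 0 c, le_max_left _ _, fun α j => ?_⟩
  obtain ⟨σ, rfl⟩ := (equivReindex k).surjective j
  have h := hc α σ
  have h1 : ((integralBasis k).reindex (equivReindex k).symm).repr (α : k) σ =
      (((RingOfIntegers.basis k).repr α (equivReindex k σ) : ℤ) : ℚ) := by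
    rw [Module.Basis.repr_reindex_apply, Equiv.symm_symm]
    exact integralBasis_repr_apply k α _
  rw [h1, Rat.cast_intCast, Complex.norm_intCast] at h
  exact h.trans (mul_le_mul_of_nonneg_right (le_max_right _ _) (house_nonneg _))

theorem eexpa_den {I : Type} [Fintype I] (q : I → ℚ) :
    ∃ N : ℕ, 0 < N ∧ ∀ i, ∃ m : ℤ, (N : ℚ) * q i = m := by
  refine ⟨∏ i, (q i).den, prod_pos fun i _ => (q i).den_pos, fun i => ?_⟩
  obtain ⟨e, he⟩ := dvd_prod_of_mem (fun i => (q i).den) (mem_univ i)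
  refine ⟨e * (q i).num, ?_⟩
  rw [he, Nat.cast_mul, mul_right_comm, Rat.den_mul_eq_num]
  push_cast
  ring

theorem eexpa_pow_exp (k : Type) [Field k] [NumberField k] :
    ∃ (θ : k) (n N₀ : ℕ) (C : ℝ) (mp : Polynomial ℤ), n ≤ totalWeight k ∧
      mp.natDegree ≤ totalWeight k ∧ 0 < N₀ ∧ 1 ≤ C ∧
      Polynomial.aeval θ mp = 0 ∧ Polynomial.aeval θ (Polynomial.derivative mp) ≠ 0 ∧
      ∀ x : k, IsIntegral ℤ x → ∃ z : Fin n → ℤ,
        (N₀ : k) * x = ∑ l, (z l : k) * θ ^ (l : ℕ) ∧ ∀ l, |(z l : ℝ)| ≤ C * house x := by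
  let pb := Field.powerBasisOfFiniteOfSeparable ℚ k
  obtain ⟨b, hb, hmp⟩ :=
    IsLocalization.integerNormalization_spec (nonZeroDivisors ℤ) (minpoly ℚ pb.gen)
  obtain ⟨c, hc0, hc⟩ := eexpa_coord (k := k)
  obtain ⟨N, hN, hm⟩ := eexpa_den fun p : Module.Free.ChooseBasisIndex ℤ (𝓞 k) × Fin pb.dim =>
    pb.basis.repr (RingOfIntegers.basis k p.1 : k) p.2
  choose m hm using hm
  have hS : 0 ≤ ∑ p, |(m p : ℝ)| := sum_nonneg fun p _ => abs_nonneg _
  have hdim : pb.dim = totalWeight k := by rw [tw_eq, pb.finrank]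
  have hdeg : (IsLocalization.integerNormalization (nonZeroDivisors ℤ)
      (minpoly ℚ pb.gen)).natDegree ≤ totalWeight k := by
    rw [← Polynomial.natDegree_map_eq_of_injective (f := algebraMap ℤ ℚ)
      (algebraMap ℤ ℚ).injective_int, hmp, ← hdim, ← pb.natDegree_minpoly]
    exact Polynomial.natDegree_smul_le _ _
  refine ⟨pb.gen, pb.dim, N, 1 + (∑ p, |(m p : ℝ)|) * c, _, hdim.le, hdeg, hN,
    le_add_of_nonneg_right (mul_nonneg hS hc0),
    IsLocalization.integerNormalization_aeval_eq_zero (nonZeroDivisors ℤ) _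
      (minpoly.aeval ℚ pb.gen), ?_, fun x hx => ?_⟩
  · rw [← Polynomial.aeval_map_algebraMap ℚ, ← Polynomial.derivative_map, hmp,
      Polynomial.derivative_smul, map_zsmul]
    exact smul_ne_zero (nonZeroDivisors.ne_zero hb)
      ((Algebra.IsSeparable.isSeparable ℚ pb.gen).aeval_derivative_ne_zero (minpoly.aeval _ _))
  · let α : 𝓞 k := ⟨x, hx⟩
    have h1 : ∀ j, (N : k) * (RingOfIntegers.basis k j : k) =
        ∑ l, (m (j, l) : k) * pb.gen ^ (l : ℕ) := fun j => by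
      conv_lhs => rw [← pb.basis.sum_repr (RingOfIntegers.basis k j : k)]
      rw [mul_sum]
      refine sum_congr rfl fun l _ => ?_
      have h2 := congrArg (algebraMap ℚ k) (hm (j, l))
      rw [map_mul, map_natCast, map_intCast] at h2
      rw [← h2, pb.basis_eq_pow, Algebra.smul_def, mul_assoc]
    have h2 : x = ∑ j, (((RingOfIntegers.basis k).repr α j : ℤ) : k) *
        (RingOfIntegers.basis k j : k) := by
      have h3 := congrArg (algebraMap (𝓞 k) k) ((RingOfIntegers.basis k).sum_repr α)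
      rw [map_sum] at h3
      refine h3.symm.trans (sum_congr rfl fun j _ => ?_)
      rw [zsmul_eq_mul, map_mul, map_intCast]
    refine ⟨fun l => ∑ j, (RingOfIntegers.basis k).repr α j * m (j, l), ?_, fun l => ?_⟩
    · rw [h2, mul_sum]
      push_cast
      simp only [sum_mul]
      rw [sum_comm]
      refine sum_congr rfl fun j _ => ?_
      rw [mul_left_comm, h1, mul_sum]
      exact sum_congr rfl fun l _ => (mul_assoc _ _ _).symm
    · have h3 : 0 ≤ house x := house_nonneg x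
      have h4 : ∑ j, |(m (j, l) : ℝ)| ≤ ∑ p, |(m p : ℝ)| := by
        rw [Fintype.sum_prod_type]
        exact sum_le_sum fun j _ =>
          single_le_sum (f := fun l => |(m (j, l) : ℝ)|) (fun _ _ => abs_nonneg _) (mem_univ l)
      push_cast
      calc |∑ j, (((RingOfIntegers.basis k).repr α j : ℤ) : ℝ) * (m (j, l) : ℝ)|
          ≤ ∑ j, |(m (j, l) : ℝ)| * (c * house x) := by
            refine (abs_sum_le_sum_abs _ _).trans (sum_le_sum fun j _ => ?_)
            rw [abs_mul, mul_comm]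
            exact mul_le_mul_of_nonneg_left (hc α j) (abs_nonneg _)
        _ ≤ (∑ p, |(m p : ℝ)|) * (c * house x) := by
            rw [← sum_mul]
            exact mul_le_mul_of_nonneg_right h4 (mul_nonneg hc0 h3)
        _ ≤ _ := by linarith

/-- Copy `eexp_coord`, `eexp_den`, `exists_pow_exp`, `exists_exp` (`Av/EExp`) and add
the two bounds: `n = pb.dim = finrank`, `mp` is the integer normalisation of the minimal
polynomial; `tw_eq`. -/
theorem exists_exp (k : Type) [Field k] [NumberField k] :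
    ∃ (θ : k) (n : ℕ) (C : ℝ) (mp : Polynomial ℤ), n ≤ totalWeight k ∧
      mp.natDegree ≤ totalWeight k ∧ 1 ≤ C ∧
      Polynomial.aeval θ mp = 0 ∧ Polynomial.aeval θ (Polynomial.derivative mp) ≠ 0 ∧
      ∀ (Λ : Type) [Finite Λ] (x : Λ → k) (c : AbsoluteValue k ℝ → ℝ) (h : ℝ), Ad c h →
        (∀ i v, Adm v → v (x i) ≤ c v) → ∃ (d : ℕ) (z : Λ → Fin n → ℤ), 0 < d ∧
          (∀ i, (d : k) * x i = ∑ l, (z i l : k) * θ ^ (l : ℕ)) ∧
          ∀ i l, |(z i l : ℝ)| ≤ C * Real.exp h := by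
  obtain ⟨θ, n, N₀, C, mp, hn, hmp, h0, h1, h2, h3, H⟩ := eexpa_pow_exp k
  refine ⟨θ, n, C, mp, hn, hmp, h1, h2, h3, fun Λ _ x c h hc hx => ?_⟩
  obtain ⟨d, hd, h4⟩ := hc.exists_den x hx
  choose z hz hb using fun i => H _ (h4 i).1
  refine ⟨N₀ * d, z, Nat.mul_pos h0 hd, fun i => ?_, fun i l => (hb i l).trans ?_⟩
  · rw [← hz, Nat.cast_mul, mul_assoc]
  · exact mul_le_mul_of_nonneg_left (h4 i).2 (by linarith)

/-- Copy `Av.exists_lift` (`Av/ENvA`). -/
theorem exists_lift (k : Type) [Field k] [NumberField k] :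
    ∃ (θ : k) (n : ℕ) (C₀ : ℝ) (mp : Polynomial ℤ), n ≤ totalWeight k ∧
      mp.natDegree ≤ totalWeight k ∧ 1 ≤ C₀ ∧
      Polynomial.aeval θ mp = 0 ∧ Polynomial.aeval θ (Polynomial.derivative mp) ≠ 0 ∧
      ∀ (σ : Type) (G : MvPolynomial σ k) (c : AbsoluteValue k ℝ → ℝ) (h : ℝ), Ad c h →
        (∀ μ v, Adm v → v (coeff μ G) ≤ c v) → ∃ (d : ℕ) (G' : MvPolynomial (Option σ) ℚ),
          0 < d ∧ IsInt G' ∧ (∀ μ ∈ G'.support, μ none ≤ n ∧ μ.some ∈ G.support) ∧
          len G' ≤ G.support.card * (C₀ * Real.exp h) ∧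
          ∀ (R : Type) [CommRing R] [Algebra k R] (ev : MvPolynomial (Option σ) ℚ →+* R),
            ev (X none) = algebraMap k R θ →
            ev G' = d * aeval (fun s => ev (X (some s))) G ∧
              ∀ t, ev (pderiv (some t) G') =
                d * aeval (fun s => ev (X (some s))) (pderiv t G) := by
  classical
  obtain ⟨θ, n, C₁, mp, b1, b2, h1, h2, h3, H⟩ := exists_exp k
  have hn : (0 : ℝ) ≤ n := Nat.cast_nonneg n
  refine ⟨θ, n, (n + 1) * C₁, mp, b1, b2, by nlinarith, h2, h3, fun σ G c h hc hG => ?_⟩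
  obtain ⟨d, z, hd, hz, hb⟩ := H G.support (fun μ => coeff μ.1 G) c h hc fun μ v hv => hG μ v hv
  have hψ : envaSub θ (∑ μ : G.support, ∑ l : Fin n,
      monomial (μ.1.optionElim (l : ℕ)) (z μ l : ℚ)) = C (d : k) * G := by
    simp only [map_sum, enva_mono]
    conv_rhs => rw [G.as_sum, Finset.mul_sum, ← Finset.sum_coe_sort]
    refine Finset.sum_congr rfl fun μ _ => ?_
    rw [← map_sum, ← hz, C_mul_monomial]
  refine ⟨d, ∑ μ : G.support, ∑ l : Fin n, monomial (μ.1.optionElim (l : ℕ)) (z μ l : ℚ), hd,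
    Common.Subspace.isInt_sum _ _ fun μ _ => Common.Subspace.isInt_sum _ _ fun l _ =>
      Common.Subspace.isInt_monomial _ _, fun ν hν => ?_, ?_, fun R _ _ ev hev => ⟨?_, fun t => ?_⟩⟩
  · obtain ⟨μ, -, h4⟩ := Finset.mem_biUnion.1 (support_sum hν)
    obtain ⟨l, -, h5⟩ := Finset.mem_biUnion.1 (support_sum h4)
    rw [Finset.mem_singleton.1 (support_monomial_subset h5), Finsupp.optionElim_apply_none,
      Finsupp.some_optionElim]
    exact ⟨l.2.le, μ.2⟩
  · refine (Common.Subspace.nrm_sum_le (fun _ => zero_le_one) _ _).trans ?_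
    refine (Finset.sum_le_card_nsmul _ _ ((n + 1) * C₁ * Real.exp h) fun μ _ => ?_).trans ?_
    · refine (Common.Subspace.nrm_sum_le (fun _ => zero_le_one) _ _).trans ?_
      refine (Finset.sum_le_card_nsmul _ _ (C₁ * Real.exp h) fun l _ => ?_).trans ?_
      · rw [Common.Subspace.nrm_monomial]
        simpa [Finsupp.prod, Rat.AbsoluteValue.real_eq_abs] using hb μ l
      · have h4 : 0 ≤ C₁ * Real.exp h := mul_nonneg (by linarith) (Real.exp_pos h).le
        rw [Finset.card_univ, Fintype.card_fin, nsmul_eq_mul]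
        nlinarith
    · simp
  · rw [enva_ev ev hev, hψ, map_mul, algHom_C, map_natCast]
  · rw [enva_ev ev hev, enva_pderiv, hψ, pderiv_C_mul, map_mul, algHom_C, map_natCast]

/-- `exists_exp` and `Vj.P1.exists_slices` with the conditions indexed by `L i × Fin n`. -/
theorem eexpb_slices (k : Type) [Field k] [NumberField k] : ∃ (N : ℕ) (C : ℝ),
    N ≤ totalWeight k ∧ 1 ≤ C ∧
    ∀ (m : ℕ) (Z : Type) [Fintype Z] [Nonempty Z] (T L : Fin m → Type) [∀ i, Fintype (T i)]
      [∀ i, Nonempty (T i)] [∀ i, Fintype (L i)] (Λ : ∀ i, L i → Z → T i → k)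
      (c : AbsoluteValue k ℝ → ℝ) (h : ℝ), Ad c h →
      (∀ i n z t v, Adm v → v (Λ i n z t) ≤ c v) →
      (∀ i, 2 * m * (N * Fintype.card (L i)) ≤ Fintype.card Z * Fintype.card (T i)) →
      ∃ x : Z → (∀ i, T i) → ℤ, x ≠ 0 ∧ (∀ z τ, |(x z τ : ℝ)| ≤
        Fintype.card Z * (∏ i, (Fintype.card (T i) : ℝ)) * (C * Real.exp h)) ∧
        ∀ i n τ, ∑ z, ∑ t, (x z (Function.update τ i t) : k) * Λ i n z t = 0 := by
  obtain ⟨θ, n, C, -, hn, -, hC, -, -, H⟩ := exists_exp k
  refine ⟨n, C, hn, hC, fun m Z _ _ T L _ _ _ Λ c h hc hΛ hcard => ?_⟩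
  obtain ⟨d, w, hd, h1, h2⟩ := H (Σ i, L i × Z × T i) (fun s => Λ s.1 s.2.1 s.2.2.1 s.2.2.2) c h
    hc fun s v hv => hΛ _ _ _ _ v hv
  obtain ⟨x, h0, h3, h4⟩ := Vj.P1.exists_slices (L := fun i => L i × Fin n)
    (fun i l z t => w ⟨i, l.1, z, t⟩ l.2) (C * Real.exp h)
    (one_le_mul_of_one_le_of_one_le hC (Real.one_le_exp hc.nonneg)) (fun i l z t => h2 _ _)
    fun i => by
      rw [Fintype.card_prod, Fintype.card_fin, mul_comm _ n]
      exact hcard i
  refine ⟨x, h0, h3, fun i l τ => mul_left_cancel₀ (Nat.cast_ne_zero.2 hd.ne' : (d : k) ≠ 0) ?_⟩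
  have h5 : ∀ z t, (d : k) * ((x z (Function.update τ i t) : k) * Λ i l z t) =
      ∑ j : Fin n, ((x z (Function.update τ i t) * w ⟨i, l, z, t⟩ j : ℤ) : k) * θ ^ (j : ℕ) := by
    intro z t
    rw [mul_left_comm, h1 ⟨i, l, z, t⟩, mul_sum]
    exact sum_congr rfl fun j _ => by push_cast; ring
  simp only [mul_sum, h5, mul_zero]
  rw [sum_congr rfl fun z _ => sum_comm, sum_comm]
  refine sum_eq_zero fun j _ => ?_
  simp only [← sum_mul, ← Int.cast_sum]
  rw [h4 i (l, j) τ, Int.cast_zero, zero_mul]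

/-- Copy `Av.exists_slices_k` and `Av.siegel` (`Av/ESieg`), `N = R * card ι ^ 2`. -/
theorem siegel (ι : Type) [Fintype ι] (R : ℕ) : ∃ N : ℕ,
    ∀ (k : Type) [Field k] [NumberField k], totalWeight k ≤ R → ∃ C : ℝ, 0 ≤ C ∧
    ∀ (B : AV k ι) (g m e ρ L : ℕ) (F : Cfg k ι g m) (mk : Bool → Finset (Fin (g + 1)))
      (s : OO m → AbsoluteValue k ℝ → ℝ) (h : OO m → ℝ),
      (∀ o, IsRd B.I e ρ (F.u o) (F.rd o)) → (∀ o, Ad (s o) (h o)) →
      (∀ o v, Sz B v (F.u o) (F.rd o) (s o v)) →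
      (∀ p, 2 * m * (N * ((Mon ι g e ρ (F.dh p)).card * (F.low e ρ L mk p).card)) ≤
        Fintype.card (Av.Bx g (F.n none)) * Fintype.card (TT g F.n p)) →
      ∃ c : Co g F.n, c ≠ 0 ∧
        (∀ z τ, |(c z τ : ℝ)| ≤ Real.exp (C + ∑ o, F.dg o * (2 * h o + 1))) ∧
        F.Van B e ρ L mk c := by
  classical
  refine ⟨R * Fintype.card ι ^ 2, fun k _ _ hk => ?_⟩
  obtain ⟨N, C, hN, hC, H⟩ := eexpb_slices k
  refine ⟨Real.log C, Real.log_nonneg hC, fun B g m e ρ L F mk s h hrd had hsz hcard => ?_⟩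
  obtain ⟨c, h0, h1, h2⟩ := H m (Av.Bx g (F.n none)) (TT g F.n)
    (fun p => (Bool → ι) × Mon ι g e ρ (F.dh p) × F.low e ρ L mk p)
    (fun p n z t => redc (F.rd none) (esieg_pol F B p n.1 n.2.2.1 z t) n.2.1.1)
    (fun v => ∏ o, s o v ^ (2 * F.dg o)) _ (ad_prod univ fun o _ => (had o).pow (2 * F.dg o))
    (fun p n z t v _ => esieg_le F B (fun o => hsz o v) p _ _ z t _) fun p => by
      refine (Nat.mul_le_mul_left _ (Nat.mul_le_mul_right _ (hN.trans hk))).trans
        (le_of_eq_of_le ?_ (hcard p))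
      simp only [Fintype.card_prod, Fintype.card_fun, Fintype.card_bool, Fintype.card_coe]
      ring
  refine ⟨c, h0, fun z τ => (h1 z τ).trans ?_, fun p a ω hω τ => ?_⟩
  · have h3 : ∀ o, (Fintype.card (Av.Bx g (F.n o)) : ℝ) ≤ Real.exp (F.dg o) := fun o => by
      have h4 : g * F.n o ≤ F.dg o := by
        cases o with
        | none => exact Nat.le_add_right _ _
        | some i => exact Nat.le_mul_of_pos_left _ two_pos
      have h5 : (2 : ℝ) ≤ Real.exp 1 := by linarith [Real.add_one_le_exp 1]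
      calc (Fintype.card (Av.Bx g (F.n o)) : ℝ) ≤ 2 ^ F.dg o := by
            exact_mod_cast (card_Bx_le g _).trans (Nat.pow_le_pow_right two_pos h4)
        _ ≤ Real.exp 1 ^ F.dg o := pow_le_pow_left₀ zero_le_two h5 _
        _ = _ := by rw [← Real.exp_nat_mul, mul_one]
    have h4 : (Fintype.card (Av.Bx g (F.n none)) : ℝ) * ∏ p, (Fintype.card (TT g F.n p) : ℝ) =
        ∏ o, (Fintype.card (Av.Bx g (F.n o)) : ℝ) := by
      rw [Fintype.prod_option, Fintype.prod_prod_type]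
      simp only [Fintype.card_pi (α := fun s : Bool => Av.Bx g _), Nat.cast_prod]
    rw [h4]
    refine (mul_le_mul_of_nonneg_right (prod_le_prod (fun o _ => Nat.cast_nonneg _)
      fun o _ => h3 o) (by positivity)).trans (le_of_eq ?_)
    rw [← Real.exp_sum, ← Real.exp_log (one_pos.trans_le hC), ← Real.exp_add, ← Real.exp_add,
      Real.log_exp, add_left_comm, ← sum_add_distrib]
    congr 2
    exact sum_congr rfl fun o _ => by push_cast; ring
  · have e1 : F.slice B c p a ω τ (X : ι → MvPolynomial ι k) =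
        ∑ z, ∑ t, MvPolynomial.C (c z (Function.update τ p t) : k) * esieg_pol F B p a ω z t := by
      rw [Cfg.slice, sum_comm]
      refine sum_congr rfl fun t _ => ?_
      rw [sum_mul]
      exact sum_congr rfl fun z _ => by rw [esieg_pol, mul_assoc, map_intCast]
    rw [e1]
    refine (hrd none).mem (n := F.dh p) (IsHomogeneous.sum _ _ _ fun z _ =>
      IsHomogeneous.sum _ _ _ fun t _ => (esieg_hom F B p a ω z t).C_mul _) fun ω₀ h₀ => ?_
    simp only [redc_sum, redc_C_mul]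
    exact h2 p (a, ⟨ω₀, h₀⟩, ⟨ω, hω⟩) τ

end Pool.Agent.Lib.MP_651af7_nt.Un
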