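import Pool.Agent.Lib.MP_651af7_nt.Un.Voc

/-! The height of the leading form, uniformly in the field. -/

namespace Pool.Agent.Lib.MP_651af7_nt.Un

open Finset Height Height.AdmissibleAbsValues NumberField MvPolynomial
open Pool.Agent.Lib.MP_651af7_nt.Av

/-- `Av.rb_field` with its constant exposed. -/
theorem erba_field (k : Type) [Field k] [NumberField k] (g : Type) [Fintype g] :
    ∃ (N : ℕ) (M C : ℝ), 0 < M ∧
      M = totalWeight k * ((Fintype.card g : ℝ) * totalWeight k) ^ 2 + 1 ∧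
      ∀ (T : Submodule k (g → k)) (H : ℝ),
      (∀ l : g → k, l ≠ 0 → (∀ τ ∈ T, ∑ j, l j * τ j = 0) → H ≤ logHeight l) →
      ∃ e τ : Fin N → g → k, (∀ l, τ l ∈ T) ∧
        (∀ v ∈ nonarchAbsVal (K := k), ∀ l j, v (e l j) ≤ 1) ∧
        (∀ v ∈ archAbsVal (K := k), ∀ l j, v (e l j - τ l j) ≤ Real.exp (C - 1 / M * H)) ∧
        ∀ x : g → k, ∃ s : Fin N → k, (x - ∑ l, s l • e l) ∈ T := by
  classical
  let b := integralBasis k
  let ι := g × Module.Free.ChooseBasisIndex ℤ (𝓞 k)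
  let N := Fintype.card ι
  let n : ℕ := totalWeight k
  let A : g × ι → k := fun p => if p.2.1 = p.1 then b.traceDual p.2.2 else 0
  let C₀ : ℝ := n * Real.log (Nat.card ι) + logHeight A + n * N * Real.log (2 * N + 1) + 1
  let M : ℝ := n * N * N + 1
  have hM : 0 < M := by positivity
  let B : ℝ := ((archAbsVal (K := k)).map fun v => ∑ a, v (b a)).sum + 1
  have hB : ∀ v ∈ archAbsVal (K := k), ∑ a, v (b a) ≤ B := fun v hv => by
    have := Multiset.single_le_sum (s := (archAbsVal (K := k)).map fun v => ∑ a, v (b a))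
      (fun x hx => by
        obtain ⟨w, -, rfl⟩ := Multiset.mem_map.mp hx
        exact sum_nonneg fun a _ => w.nonneg _) _ (Multiset.mem_map_of_mem _ hv)
    simp only [B]; linarith
  have hB0 : 0 < B := by
    have : 0 ≤ ((archAbsVal (K := k)).map fun v => ∑ a, v (b a)).sum :=
      Multiset.sum_nonneg fun x hx => by
        obtain ⟨w, -, rfl⟩ := Multiset.mem_map.mp hx
        exact sum_nonneg fun a _ => w.nonneg _
    simp only [B]; linarith
  let φ : (ι → ℚ) →ₗ[ℚ] (g → k) :=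
    { toFun := fun x j => ∑ a, x (j, a) • b a
      map_add' := fun x y => by funext j; simp [add_smul, sum_add_distrib]
      map_smul' := fun c x => by funext j; simp [smul_sum, mul_smul] }
  have hφ : ∀ x j, φ x j = ∑ a, x (j, a) • b a := fun _ _ => rfl
  have hsur : ∀ u : g → k, φ (fun p => b.repr (u p.1) p.2) = u := fun u => by
    funext j; exact b.sum_repr (u j)
  have hNc : N = Fintype.card g * totalWeight k := by
    simp only [N, ι]
    rw [Fintype.card_prod, ← Module.finrank_eq_card_chooseBasisIndex, RingOfIntegers.rank,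
      totalWeight_eq_finrank]
  refine ⟨N, M, Real.log (2 * ((N + 1).factorial : ℝ) * B) + |C₀| / M, hM, ?_, fun T H hT => ?_⟩
  · simp only [M, n]
    rw [hNc]
    push_cast
    ring
  let X : ℝ := Real.exp ((H - |C₀|) / M)
  have hX : 0 < X := Real.exp_pos _
  have main : ∃ (e : Fin N → ι → ℤ) (τ : Fin N → ι → ℚ),
      (∀ l, τ l ∈ (T.restrictScalars ℚ).comap φ) ∧
      (∀ l i, ((|(e l i : ℚ) - τ l i| : ℚ) : ℝ) ≤ 2 * ((N + 1).factorial : ℝ) / X) ∧
      ∀ x : ι → ℚ, ∃ s : Fin N → ℚ,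
        (x - ∑ l, s l • fun i => (e l i : ℚ)) ∈ (T.restrictScalars ℚ).comap φ := by
    refine rb_rat _ hX fun y hy0 hy => ?_
    by_contra hc
    push Not at hc
    obtain ⟨i₀, hi₀⟩ := Function.ne_iff.mp hy0
    have hN : (1 : ℝ) ≤ N := by exact_mod_cast Fintype.card_pos_iff.mpr ⟨i₀⟩
    have hy1 : (1 : ℝ) ≤ |(y i₀ : ℝ)| := by exact_mod_cast Int.one_le_abs hi₀
    have hΛ : (1 : ℝ) ≤ (2 * N * X ^ N) ^ N := hy1.trans (hc i₀)
    let l : g → k := fun j => ∑ i, A (j, i) * (y i : k)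
    have hl : ∀ j, l j = ∑ a, (y (j, a) : ℚ) • b.traceDual a := fun j => by
      simp only [l, A, ite_mul, zero_mul]
      rw [Fintype.sum_prod_type, sum_eq_single j]
      · refine sum_congr rfl fun a _ => ?_
        simp [mul_comm, Rat.smul_def]
      · intro j' _ hj
        simp [hj]
      · simp
    have htr : ∀ (u : k) (a), Algebra.trace ℚ k (b.traceDual a * u) = b.repr u a := fun u a => by
      have h1 := b.traceDual.traceDual_repr_apply u a
      rw [Module.Basis.traceDual_traceDual, Algebra.traceForm_apply, mul_comm] at h1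
      exact h1.symm
    have hl0 : l ≠ 0 := by
      intro h0
      have h1 := congrFun h0 i₀.1
      rw [hl, Pi.zero_apply] at h1
      have h2 := Fintype.linearIndependent_iff.mp b.traceDual.linearIndependent _ h1 i₀.2
      exact hi₀ (by exact_mod_cast h2)
    have hperp : ∀ τ ∈ T, ∑ j, l j * τ j = 0 := by
      have h1 : ∀ τ ∈ T, Algebra.trace ℚ k (∑ j, l j * τ j) = 0 := fun τ hτ => by
        have h2 := hy (fun p => b.repr (τ p.1) p.2) (by
          rw [Submodule.mem_comap, hsur]; exact hτ)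
        rw [Fintype.sum_prod_type] at h2
        rw [← h2, map_sum]
        refine sum_congr rfl fun j _ => ?_
        rw [hl, sum_mul, map_sum]
        refine sum_congr rfl fun a _ => ?_
        rw [smul_mul_assoc, map_smul, htr, smul_eq_mul]
      intro τ hτ
      refine (traceForm_nondegenerate ℚ k).1 _ fun β => ?_
      have h2 := h1 (β • τ) (T.smul_mem β hτ)
      rw [Algebra.traceForm_apply, ← h2, sum_mul]
      congr 1
      exact sum_congr rfl fun j _ => by rw [Pi.smul_apply, smul_eq_mul]; ring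
    have h1 := hT l hl0 hperp
    have h2 := logHeight_linearMap_apply_le A fun i => (y i : k)
    have h3 := rb_ht_int k y hΛ hc
    have h4 : Real.log ((2 * N * X ^ N) ^ N) =
        N * Real.log (2 * N) + N * N * ((H - |C₀|) / M) := by
      rw [Real.log_pow, Real.log_mul (by positivity) (by positivity), Real.log_pow, Real.log_exp]
      ring
    have h5 : Real.log (2 * N) ≤ Real.log (2 * N + 1) :=
      Real.log_le_log (by positivity) (by linarith)
    have h6 : (n : ℝ) * N * Real.log (2 * N) ≤ n * N * Real.log (2 * N + 1) := by gcongr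
    have h7 : H ≤ C₀ - 1 + n * N * N * ((H - |C₀|) / M) := by
      have h8 : logHeight l ≤ n * Real.log (Nat.card ι) + logHeight A +
        n * (N * Real.log (2 * N) + N * N * ((H - |C₀|) / M)) := by
        rw [← h4]; exact h2.trans (by linarith)
      simp only [C₀] at h8 ⊢
      nlinarith
    have h8 : (n : ℝ) * N * N * ((H - |C₀|) / M) = (H - |C₀|) - (H - |C₀|) / M := by
      field_simp
      simp only [M]
      ring
    have h9 := le_abs_self C₀
    have h10 : (H - |C₀|) / M ≤ -1 := by linarith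
    have h11 : X ≤ Real.exp (-1) := Real.exp_le_exp.mpr h10
    have h12 : 0 ≤ Real.log ((2 * N * X ^ N) ^ N) := Real.log_nonneg hΛ
    have h13 : 2 * (N : ℝ) * X ^ N < 1 := by
      have h14 : X ^ N ≤ Real.exp (-1) ^ N := by gcongr
      have h15 : Real.exp (-1) ^ N * Real.exp N = 1 := by
        rw [← Real.exp_nat_mul, ← Real.exp_add]; simp
      have h16 : 2 * (N : ℝ) < Real.exp N := by
        have h17 := Real.quadratic_le_exp_of_nonneg (x := N) (by positivity)
        have h18 : (N : ℝ) = 1 ∨ (2 : ℝ) ≤ N := by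
          have : 1 ≤ N := by exact_mod_cast hN
          rcases Nat.eq_or_lt_of_le this with h | h
          · exact Or.inl (by exact_mod_cast h.symm)
          · exact Or.inr (by exact_mod_cast h)
        rcases h18 with h | h <;> nlinarith
      have h19 : 0 < Real.exp (-1) ^ N := by positivity
      nlinarith
    have hN0 : N ≠ 0 := by
      have : 1 ≤ N := by exact_mod_cast hN
      omega
    exact absurd hΛ (not_le.mpr (pow_lt_one₀ (by positivity) h13 hN0))
  obtain ⟨e, τ, hτ, he, hs⟩ := main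
  refine ⟨fun l => φ fun i => (e l i : ℚ), fun l => φ (τ l), hτ, fun v hv l j => ?_,
    fun v hv l j => ?_, fun x => ?_⟩
  · have h1 : φ (fun i => (e l i : ℚ)) j =
        ((∑ a, e l (j, a) • RingOfIntegers.basis k a : 𝓞 k) : k) := by
      rw [hφ, RingOfIntegers.coe_eq_algebraMap, map_sum]
      refine sum_congr rfl fun a _ => ?_
      rw [map_zsmul, ← integralBasis_apply, Int.cast_smul_eq_zsmul]
    exact (congrArg v h1).trans_le (rb_non_int k hv _)
  · have h1 : φ (fun i => (e l i : ℚ)) j - φ (τ l) j =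
        ∑ a, (((e l (j, a) : ℚ) - τ l (j, a) : ℚ) : k) * b a := by
      rw [hφ, hφ, ← sum_sub_distrib]
      exact sum_congr rfl fun a _ => by rw [← sub_smul, Rat.smul_def]
    refine ((congrArg v h1).trans_le (v.sum_le _ _)).trans ?_
    have h2 : ∑ a, v ((((e l (j, a) : ℚ) - τ l (j, a) : ℚ) : k) * b a) ≤
        2 * ((N + 1).factorial : ℝ) / X * ∑ a, v (b a) := by
      rw [mul_sum]
      refine sum_le_sum fun a _ => ?_
      rw [map_mul, rb_arch_rat k hv]
      exact mul_le_mul_of_nonneg_right (he l (j, a)) (v.nonneg _)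
    refine h2.trans ((mul_le_mul_of_nonneg_left (hB v hv) (by positivity)).trans (le_of_eq ?_))
    rw [add_sub_assoc, Real.exp_add, Real.exp_log (by positivity), div_mul_eq_mul_div,
      div_eq_mul_inv, ← Real.exp_neg]
    congr 2
    ring
  · obtain ⟨s, hs'⟩ := hs fun p => b.repr (x p.1) p.2
    refine ⟨fun l => s l, ?_⟩
    rw [Submodule.mem_comap, map_sub, hsur, map_sum] at hs'
    simpa only [map_smul, Rat.cast_smul_eq_qsmul, Submodule.restrictScalars_mem] using hs'

/-- Copy `Av.rb_field` (`Av/RBK`), whose constant is `1 / (n * N * N + 1)` with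
`n = totalWeight k` and `N = card g * n`; take `c = 1 / (R * (card g * R) ^ 2 + 1)` and use
`0 ≤ H`. -/
theorem rb_field (g : Type) [Fintype g] (R : ℕ) : ∃ c : ℝ, 0 < c ∧
    ∀ (k : Type) [Field k] [NumberField k], totalWeight k ≤ R →
    ∃ (N : ℕ) (C : ℝ), ∀ (T : Submodule k (g → k)) (H : ℝ), 0 ≤ H →
      (∀ l : g → k, l ≠ 0 → (∀ τ ∈ T, ∑ j, l j * τ j = 0) → H ≤ logHeight l) →
      ∃ e τ : Fin N → g → k, (∀ l, τ l ∈ T) ∧
        (∀ v ∈ nonarchAbsVal (K := k), ∀ l j, v (e l j) ≤ 1) ∧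
        (∀ v ∈ archAbsVal (K := k), ∀ l j, v (e l j - τ l j) ≤ Real.exp (C - c * H)) ∧
        ∀ x : g → k, ∃ s : Fin N → k, (x - ∑ l, s l • e l) ∈ T := by
  refine ⟨1 / (R * ((Fintype.card g : ℝ) * R) ^ 2 + 1), by positivity, fun k _ _ hk => ?_⟩
  obtain ⟨N, M, C, hM, hMe, h⟩ := erba_field k g
  refine ⟨N, C, fun T H hH hT => ?_⟩
  obtain ⟨e, τ, h1, h2, h3, h4⟩ := h T H hT
  refine ⟨e, τ, h1, h2, fun v hv l j => (h3 v hv l j).trans (Real.exp_le_exp.mpr ?_), h4⟩
  have hk' : (totalWeight k : ℝ) ≤ R := by exact_mod_cast hk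
  have h5 : M ≤ R * ((Fintype.card g : ℝ) * R) ^ 2 + 1 := by
    rw [hMe]
    gcongr
  have h6 := mul_le_mul_of_nonneg_right (one_div_le_one_div_of_le hM h5) hH
  linarith

/-- The conormal height bound, local form, with a constant that depends only on the degree. -/
theorem erbb_local (g : Type) [Fintype g] (R : ℕ) : ∃ c : ℝ, 0 < c ∧
    ∀ (k : Type) [Field k] [NumberField k], totalWeight k ≤ R →
    ∃ C : ℝ, ∀ (I : Type) [Fintype I] (T : I → Submodule k (g → k)) (H : I → ℝ)
      (ν : I → ℕ) (Ψ : MvPolynomial (I × g) k), (∀ i, 0 ≤ H i) → Ψ ≠ 0 →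
      (∀ α ∈ Ψ.support, ∀ i, ∑ j, α (i, j) = ν i) →
      (∀ i, ∀ τ ∈ T i, ∑ j, τ j • pderiv (i, j) Ψ = 0) →
      (∀ i (l : g → k), l ≠ 0 → (∀ τ ∈ T i, ∑ j, l j * τ j = 0) → H i ≤ logHeight l) →
      ∃ β : k, β ≠ 0 ∧
        (∀ v ∈ nonarchAbsVal (K := k), ∀ B : ℝ, (∀ α, v (coeff α Ψ) ≤ B) → v β ≤ B) ∧
        (∀ v ∈ archAbsVal (K := k), ∀ B : ℝ, (∀ α, v (coeff α Ψ) ≤ B) →
          v β ≤ Real.exp (-∑ i, ν i * (c * H i - C)) * B) := by
  classical
  obtain ⟨c, hc, h⟩ := rb_field g R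
  refine ⟨c, hc, fun k _ _ hk => ?_⟩
  obtain ⟨N, C, h⟩ := h k hk
  refine ⟨C + Real.log (N + 1) + Real.log (Fintype.card g + 1),
    fun I _ T H ν Ψ hH0 hΨ hν hT hH => ?_⟩
  choose e τ hτ he heτ hs using fun i => h (T i) (H i) (hH0 i) (hH i)
  let L : (I → Fin N → g → k) → I × g → MvPolynomial (I × Fin N) k :=
    fun a s => ∑ l, MvPolynomial.C (a s.1 l s.2) * X (s.1, l)
  have hev : ∀ (a : I → Fin N → g → k) (s : I × Fin N → k), eval s (aeval (L a) Ψ) =
      eval (fun p => (∑ l, s (p.1, l) • a p.1 l) p.2) Ψ := fun a s => by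
    rw [← coe_aeval_eq_eval, ← coe_aeval_eq_eval, RingHom.coe_coe, RingHom.coe_coe,
      ← AlgHom.comp_apply, comp_aeval]
    congr 2
    funext p
    simp [L, mul_comm]
  have hinv : ∀ (x : I × g → k) (t : I → g → k), (∀ i, t i ∈ T i) →
      eval (x + fun p => t p.1 p.2) Ψ = eval x Ψ := fun x t ht =>
    rb_transl _ _ (by rw [Fintype.sum_prod_type]; exact sum_eq_zero fun i _ => hT i _ (ht i))
  have heq : aeval (L e) Ψ = aeval (L (e - τ)) Ψ := by
    refine MvPolynomial.funext fun s => ?_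
    rw [hev, hev, ← hinv (fun p => (∑ l, s (p.1, l) • (e - τ) p.1 l) p.2)
      (fun i => ∑ l, s (i, l) • τ i l) fun i => (T i).sum_mem fun l _ => (T i).smul_mem _ (hτ i l)]
    congr 2
    funext p
    simp [mul_sub]
  have hne : aeval (L e) Ψ ≠ 0 := by
    intro h0
    refine hΨ (MvPolynomial.funext fun x => ?_)
    choose s hs' using fun i => hs i fun j => x (i, j)
    have h1 := hev e fun p => s p.1 p.2
    rw [h0, map_zero, ← hinv _ _ hs'] at h1
    rw [map_zero, h1]
    congr 2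
    funext p
    simp
  obtain ⟨μ, hμ⟩ := ne_zero_iff.mp hne
  refine ⟨_, hμ, fun v hv B hB => ?_, fun v hv B hB => ?_⟩
  · have hna := isNonarchimedean v hv
    rw [rb_coeff_aeval]
    refine rb_na_sum hna _ _ ((v.nonneg _).trans (hB 0)) fun α _ => ?_
    rw [map_mul]
    refine (mul_le_of_le_one_right (v.nonneg _) ?_).trans (hB α)
    exact RbInt.prod hna _ (fun s _ => (RbInt.lin hna _ _ fun l => he s.1 v hv l s.2).pow hna _) μ
  · have hB0 : 0 ≤ B := (v.nonneg _).trans (hB 0)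
    let η : I → NNReal := fun i => ⟨Real.exp (C - c * H i), (Real.exp_pos _).le⟩
    have h1 : ∀ α ∈ Ψ.support, v (coeff α Ψ * coeff μ (∏ s, L (e - τ) s ^ α s)) ≤
        B * ∏ i, ((N + 1) * Real.exp (C - c * H i)) ^ ν i := fun α hα => by
      rw [map_mul]
      refine mul_le_mul (hB α) ?_ (v.nonneg _) hB0
      have h2 := RbMaj.prod v univ (fun (s : I × g) _ =>
        (RbMaj.lin v (fun l => (e - τ) s.1 l s.2) (fun l => (s.1, l)) (η := η s.1)
          fun l => heτ s.1 v hv l s.2).pow v (α s)) μ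
      refine h2.trans ((NNReal.coe_le_coe.mpr (rb_coeff_le_eval _ μ)).trans ?_)
      simp only [map_prod, map_pow, map_sum, map_mul, eval_C, eval_X, mul_one, sum_const, card_univ,
        Fintype.card_fin, nsmul_eq_mul]
      rw [Fintype.prod_prod_type]
      push_cast
      refine prod_le_prod (fun i _ => by positivity) fun i _ => ?_
      simp only [prod_pow_eq_pow_sum, hν α hα i]
      refine pow_le_pow_left₀ (by positivity) ?_ _
      exact mul_le_mul_of_nonneg_right (by linarith) (Real.exp_pos _).le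
    rw [heq, rb_coeff_aeval]
    refine (v.sum_le _ _).trans ((sum_le_card_nsmul _ _ _ h1).trans ?_)
    have h2 : (Ψ.support.card : ℝ) ≤ ∏ i, ((Fintype.card g : ℝ) + 1) ^ ν i := by
      refine le_trans (b := ∏ i, (Fintype.card g : ℝ) ^ ν i) (by exact_mod_cast rb_card ν Ψ hν) ?_
      gcongr
      linarith
    have h3 : Real.exp (-∑ i, ν i *
        (c * H i - (C + Real.log (N + 1) + Real.log (Fintype.card g + 1)))) =
        (∏ i, ((Fintype.card g : ℝ) + 1) ^ ν i) *
          ∏ i, ((N + 1) * Real.exp (C - c * H i)) ^ ν i := by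
      rw [← sum_neg_distrib, Real.exp_sum, ← prod_mul_distrib]
      refine prod_congr rfl fun i _ => ?_
      rw [← mul_neg, Real.exp_nat_mul, ← mul_pow]
      congr 1
      rw [show -(c * H i - (C + Real.log (N + 1) + Real.log (Fintype.card g + 1))) =
        Real.log (Fintype.card g + 1) + (Real.log (N + 1) + (C - c * H i)) by ring,
        Real.exp_add, Real.exp_add, Real.exp_log (by positivity), Real.exp_log (by positivity)]
    rw [h3, nsmul_eq_mul, mul_comm B, ← mul_assoc]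
    gcongr

/-- Copy `Av.conormal_local` and `Av.conormal_height` (`Av/RB`); `1 ≤ totalWeight k`
and `0 ≤ H i` remove the factor `totalWeight k` in front of `c`. -/
theorem conormal_height (g : Type) [Fintype g] (R : ℕ) : ∃ c : ℝ, 0 < c ∧
    ∀ (k : Type) [Field k] [NumberField k], totalWeight k ≤ R →
    ∃ C : ℝ, ∀ (I : Type) [Fintype I] (T : I → Submodule k (g → k)) (H : I → ℝ)
      (ν : I → ℕ) (Ψ : MvPolynomial (I × g) k), (∀ i, 0 ≤ H i) → Ψ ≠ 0 →
      (∀ α ∈ Ψ.support, ∀ i, ∑ j, α (i, j) = ν i) →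
      (∀ i, ∀ τ ∈ T i, ∑ j, τ j • pderiv (i, j) Ψ = 0) →
      (∀ i (l : g → k), l ≠ 0 → (∀ τ ∈ T i, ∑ j, l j * τ j = 0) → H i ≤ logHeight l) →
      ∑ i, ν i * (c * H i - C) ≤ logHeight fun α : Ψ.support => coeff α.1 Ψ := by
  obtain ⟨c, hc, h⟩ := erbb_local g R
  refine ⟨c, hc, fun k _ _ hk => ?_⟩
  obtain ⟨C, h⟩ := h k hk
  have hn : (1 : ℝ) ≤ totalWeight k := by exact_mod_cast totalWeight_pos k
  refine ⟨totalWeight k * C, fun I _ T H ν Ψ hH0 hΨ hν hT hH => ?_⟩
  obtain ⟨β, hβ, h1, h2⟩ := h I T H ν Ψ hH0 hΨ hν hT hH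
  have hs : ∀ (v : AbsoluteValue k ℝ) α, v (coeff α Ψ) ≤ ⨆ α : Ψ.support, v (coeff α.1 Ψ) := by
    intro v α
    by_cases hα : α ∈ Ψ.support
    · exact Finite.le_ciSup_of_le (f := fun α : Ψ.support => v (coeff α.1 Ψ)) ⟨α, hα⟩ le_rfl
    · rw [notMem_support_iff.mp hα, map_zero]
      exact Real.iSup_nonneg fun _ => v.nonneg _
  obtain ⟨α, hα⟩ := ne_zero_iff.mp hΨ
  have h3 := rb_ht_cmp (x := fun _ : Unit => β) (y := fun α : Ψ.support => coeff α.1 Ψ)
    (fun h0 => hα (congrFun h0 ⟨α, mem_support_iff.mpr hα⟩)) (fun h0 => hβ (congrFun h0 ()))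
    (Real.exp_pos _) (fun v hv _ => h2 v hv _ (hs v)) (fun v hv _ => h1 v hv _ (hs v))
  rw [logHeight_eq_zero_of_subsingleton (ι := Unit), Real.log_exp, mul_neg, mul_sum] at h3
  have h4 : ∑ i, (ν i : ℝ) * (c * H i - totalWeight k * C) ≤
      ∑ i, totalWeight k * (ν i * (c * H i - C)) := sum_le_sum fun i _ => by
    have h5 : 0 ≤ (ν i : ℝ) * (c * H i) := mul_nonneg (Nat.cast_nonneg _) (mul_nonneg hc.le (hH0 i))
    have h6 := le_mul_of_one_le_left h5 hn
    linarith
  linarith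

/-- Copy `Av.lead_height` (`Av/ELead`). -/
theorem lead_height (g R : ℕ) : ∃ c : ℝ, 0 < c ∧
    ∀ (k : Type) [Field k] [NumberField k], totalWeight k ≤ R → ∃ C : ℝ,
    ∀ (ι O : Type) [Fintype ι] [Fintype O] (B : AV k ι) (r : ℕ) (σ : Fin g → ι → k)
      (D : O → Chart k ι r) (x : O → ι → k) (ξ : O → ι → MvPowerSeries (Fin r) k) (H : O → ℝ)
      (f : RR k O r g) (κ : O × Fin r →₀ ℕ) (ν : O → ℕ) (Ψ : MvPolynomial (O × Fin g) k),
      (∀ o, 0 ≤ H o) → (∀ o, (D o).Br (x o) (ξ o)) →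
      (∀ o (l : Fin g → k), l ≠ 0 → B.Kills σ (D o) (x o) l → H o ≤ logHeight l) →
      (∀ o a', ∃ w : Fin g → RR k O r g, MvPowerSeries.pderiv k (.inl (o, a')) f =
            ∑ j, w j * MvPowerSeries.pderiv k (.inr (o, j)) f ∧
          B.Tang (x o) (lin (ξ o) a')
            fun a => ∑ l, MvPowerSeries.constantCoeff (w l) * algebraMap k k (σ l a)) →
      MinT f ν → MinX f κ ν → IsLead f κ ν Ψ → Ψ ≠ 0 →
      ∑ o, ν o * (c * H o - C) ≤ logHeight fun α : Ψ.support => MvPolynomial.coeff α.1 Ψ := by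
  obtain ⟨c, hc, h⟩ := conormal_height (Fin g) R
  refine ⟨c, hc, fun k _ _ hk => ?_⟩
  obtain ⟨C, h⟩ := h k hk
  refine ⟨C, fun ι O _ _ B r σ D x ξ H f κ ν Ψ hH0 hξ hK hw hT hX hΨ h0 => ?_⟩
  choose w hw1 hw2 using hw
  refine h O (fun o => Submodule.span k
    (Set.range fun a' j => MvPowerSeries.constantCoeff (w o a' j))) H ν Ψ hH0 h0 hΨ.deg
    (fun o τ hτ => ?_) fun o l hl hl' => hK o l hl fun a' =>
      ⟨_, _, (hξ o).tv a', hw2 o a', hl' _ (Submodule.subset_span ⟨a', rfl⟩)⟩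
  induction hτ using Submodule.span_induction with
  | mem τ hτ =>
    obtain ⟨a', rfl⟩ := hτ
    exact hΨ.inv hT hX (hw1 o a')
  | zero => simp
  | add τ τ' _ _ h1 h2 => simp only [Pi.add_apply, add_smul, sum_add_distrib, h1, h2, add_zero]
  | smul a τ _ h1 => simp only [Pi.smul_apply, smul_eq_mul, mul_smul, ← smul_sum, h1, smul_zero]

end Pool.Agent.Lib.MP_651af7_nt.Un
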