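import Pool.Agent.Lib.MP_651af7_nt.Un.Voc

/-! Sizes and radii, uniformly in the field. -/

namespace Pool.Agent.Lib.MP_651af7_nt.Un

open MvPolynomial Finset Height Pool.Agent.Lib.MP_651af7_nt.Av

theorem esz_E {k : Type} [Field k] [NumberField k] {R : ℕ} (hR : totalWeight k ≤ R) {t : ℝ}
    (ht : 1 ≤ t) : Ad (fun v : AbsoluteValue k ℝ => E (IsNonarchimedean v) t) (R * Real.log t) :=
  (ad_E ht).mono (mul_le_mul_of_nonneg_right (Nat.cast_le.2 hR) (Real.log_nonneg ht))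

theorem esz_pderiv {k ι : Type} [Field k] [NumberField k] {R : ℕ} (hR : totalWeight k ≤ R)
    {B : ℕ} {w : ℝ} (hw : 0 ≤ w) {P : MvPolynomial ι k} (h : SmallP B w P) (a : ι) :
    SmallP B (w + R * (B + 1) * B) (pderiv a P) := by
  have h1 := esize_pderiv hw h a
  refine ⟨h1.1, fun μ => (h1.2 μ).trans (add_le_add le_rfl ?_)⟩
  have h2 : ∀ n ∈ range (B + 1), logHeight₁ (n : k) ≤ (R : ℝ) * B := fun n hn => by
    have h3 : logHeight₁ (n : k) ≤ totalWeight k * Real.log n := by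
      simpa using logHeight₁_sum_le (Finset.range n) fun _ => (1 : k)
    have h4 : Real.log n ≤ B := (Real.log_le_self (Nat.cast_nonneg n)).trans
      (Nat.cast_le.2 (Nat.lt_succ_iff.1 (mem_range.1 hn)))
    exact h3.trans (mul_le_mul (Nat.cast_le.2 hR) h4 (Real.log_natCast_nonneg n)
      (Nat.cast_nonneg R))
  refine (sum_le_card_nsmul _ _ _ h2).trans (le_of_eq ?_)
  rw [card_range, nsmul_eq_mul]
  push_cast
  ring

/-- A size for the length of a small polynomial, uniformly in the field. -/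
theorem exists_ad_pl (σ : Type) [Fintype σ] (R B : ℕ) : ∃ κ : ℝ, 0 ≤ κ ∧
    ∀ (k : Type) [Field k] [NumberField k], totalWeight k ≤ R →
      ∀ (P : MvPolynomial σ k) (h : ℝ), 0 ≤ h → SmallP B h P →
      ∃ c, Ad c (κ * (h + 1)) ∧ ∀ v, pl v P ≤ c v := by
  have hfin := Finsupp.finite_of_degree_le (σ := σ) B
  have h1 : (1 : ℝ) ≤ (hfin.toFinset.card : ℝ) + 1 := by simp
  have h0 := Real.log_nonneg h1
  have h2 : 0 ≤ R * Real.log ((hfin.toFinset.card : ℝ) + 1) := mul_nonneg (Nat.cast_nonneg _) h0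
  refine ⟨R * Real.log ((hfin.toFinset.card : ℝ) + 1) + hfin.toFinset.card,
    by positivity, fun k _ _ hR P h hh hP => ?_⟩
  obtain ⟨c, hc, hl⟩ := ead_pl P hfin.toFinset fun μ hμ => by
    rw [Set.Finite.mem_toFinset]
    exact (le_totalDegree hμ).trans hP.1
  refine ⟨c, hc.mono ?_, hl⟩
  have h3 : ∑ μ ∈ hfin.toFinset, logHeight₁ (coeff μ P) ≤ hfin.toFinset.card * h := by
    simpa only [nsmul_eq_mul] using sum_le_card_nsmul _ _ h fun μ _ => hP.2 μ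
  have h4 : (0 : ℝ) ≤ hfin.toFinset.card := Nat.cast_nonneg _
  have h5 := mul_le_mul_of_nonneg_right (Nat.cast_le (α := ℝ).2 hR) h0
  nlinarith [mul_nonneg h2 hh]

/-- Sizes of the blocks, uniformly in the field. -/
theorem exists_sz (ι : Type) [Fintype ι] (R g ρ B₀ : ℕ) {e : ℕ} (he : 1 ≤ e) : ∃ κ : ℝ, 0 ≤ κ ∧
    ∀ (k : Type) [Field k] [NumberField k], totalWeight k ≤ R → ∀ B : AV k ι, ∃ C : ℝ,
    ∀ (u : Fin (g + 1) → MvPolynomial ι k) (c : ι → Fin ρ → MvPolynomial (Fin (g + 1)) k) (h : ℝ),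
      C ≤ h → 0 ≤ h → NN B.I e ρ u c → (∀ i, SmallP B₀ h (u i)) → (∀ a l, SmallP B₀ h (c a l)) →
      ∃ rd s, IsRd B.I e ρ u rd ∧ Ad s (κ * (h + 1)) ∧ ∀ v, Sz B v u rd (s v) := by
  obtain ⟨κ₁, hκ₁, H₁⟩ := exists_ad_pl ι R B₀
  obtain ⟨κ₂, hκ₂, H₂⟩ := exists_ad_pl (Fin (g + 1)) R B₀
  refine ⟨1 + Fintype.card (Fin (g + 1)) * κ₁ + Fintype.card (ι × Fin ρ) * κ₂, by positivity,
    fun k _ _ hR B => ?_⟩
  replace H₁ := H₁ k hR
  replace H₂ := H₂ k hR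
  choose cΦ hΦ hcΦ hcΦ' using fun p : ι × ι => exists_ad_fixed (B.Φ p.1 p.2)
  obtain ⟨sΦ, hsΦ, hsΦ'⟩ := esize_fam hcΦ
  obtain ⟨so, hso, hso'⟩ := esize_fam fun a => ad_max (B.o a)
  have hρ : (1 : ℝ) ≤ ρ + 1 := le_add_of_nonneg_left (Nat.cast_nonneg ρ)
  obtain ⟨C₀, hf⟩ : ∃ C₀, Ad (fun v : AbsoluteValue k ℝ => E (IsNonarchimedean v) 2 * sΦ v * so v *
      E (IsNonarchimedean v) (ρ + 1)) C₀ :=
    ⟨_, (((ad_E one_le_two).mul hsΦ).mul hso).mul (ad_E hρ)⟩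
  refine ⟨C₀, fun u c h hC₀ hh hNN hu hc => ?_⟩
  choose cu hcu hcu' using fun i => H₁ (u i) h hh (hu i)
  choose cc hcc hcc' using fun p : ι × Fin ρ => H₂ (c p.1 p.2) h hh (hc p.1 p.2)
  obtain ⟨su, hsu, hsu'⟩ := esize_fam' hcu
  obtain ⟨sc, hsc, hsc'⟩ := esize_fam' hcc
  obtain ⟨rd, hrd, hrd'⟩ := exists_rd he hNN
  refine ⟨rd, _, hrd, ((hf.mul hsu).mul hsc).mono ?_, fun v => ?_⟩
  · nlinarith
  · have a1 : 1 ≤ E (IsNonarchimedean v) 2 := one_le_E one_le_two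
    have a2 := hsΦ.one v
    have a3 := hso.one v
    have a4 : 1 ≤ E (IsNonarchimedean v) (ρ + 1) := one_le_E hρ
    have a5 := hsu.one v
    have a6 := hsc.one v
    have hl : ∀ {x y z : ℝ}, x ≤ y → 0 ≤ y → 1 ≤ z → x ≤ y * z := fun h1 h2 h3 =>
      h1.trans (le_mul_of_one_le_right h2 h3)
    have hr : ∀ {x y z : ℝ}, x ≤ z → 1 ≤ y → 0 ≤ z → x ≤ y * z := fun h1 h2 h3 =>
      h1.trans (le_mul_of_one_le_left h3 h2)
    have b2 := one_le_mul_of_one_le_of_one_le a1 a2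
    have b3 := one_le_mul_of_one_le_of_one_le b2 a3
    have b4 := one_le_mul_of_one_le_of_one_le b3 a4
    have b5 := one_le_mul_of_one_le_of_one_le b4 a5
    have z : ∀ {x : ℝ}, 1 ≤ x → 0 ≤ x := fun h => zero_le_one.trans h
    refine ⟨⟨?_, fun a b => ?_, fun a => ?_⟩, fun l => ?_, fun μ ω => ?_⟩
    · exact hl (hl (hl (hl (hl le_rfl (z a1) a2) (z b2) a3) (z b3) a4) (z b4) a5) (z b5) a6
    · exact hl (hl (hl (hl (hr ((hcΦ' (a, b) v).trans (hsΦ' (a, b) v)) a1 (z a2)) (z b2) a3)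
        (z b3) a4) (z b4) a5) (z b5) a6
    · exact hl (hl (hl (hr ((le_max_right _ _).trans (hso' a v)) b2 (z a3)) (z b3) a4) (z b4) a5)
        (z b5) a6
    · exact hl (hr ((hcu' l v).trans (hsu' l v)) b4 (z a5)) (z b5) a6
    · refine (hrd' v (sc v) a6 (fun a l => (hcc' (a, l) v).trans (hsc' (a, l) v)) μ ω).trans
        (pow_le_pow_left₀ (mul_nonneg (z a4) (z a6)) ?_ _)
      exact mul_le_mul_of_nonneg_right (hl (hr le_rfl b3 (z a4)) (z b4) a5) (z a6)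

/-- Radii of the branches, uniformly in the field. -/
theorem exists_rad (ι : Type) [Fintype ι] (R r B₀ : ℕ) : ∃ κ : ℝ, 0 ≤ κ ∧
    ∀ (k : Type) [Field k] [NumberField k], totalWeight k ≤ R →
      ∀ (C : Chart k ι r) (x : ι → k) (ξ : ι → MvPowerSeries (Fin r) k) (w : ℝ),
      C.At x → C.Br x ξ → logHeight x ≤ w → (∀ a, SmallP B₀ w (C.φ a)) →
      ∃ q, Ad q (κ * (w + 1)) ∧ ∀ v a, Geo v (q v) (ξ a) := by
  obtain ⟨c, n, hc, H⟩ := exists_br_bound ι r B₀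
  obtain ⟨κ₁, hκ₁, H₁⟩ := exists_ad_pl ι R B₀
  obtain ⟨C₁, hC₁⟩ : ∃ C₁ : ℝ, C₁ = R * (B₀ + 1) * B₀ := ⟨_, rfl⟩
  have hC₁' : 0 ≤ C₁ := by rw [hC₁]; positivity
  have hr : (1 : ℝ) ≤ 2 * Fintype.card (Fin r) + 1 := le_add_of_nonneg_left (by positivity)
  obtain ⟨C₂, hC₂'⟩ : ∃ C₂ : ℝ, C₂ = R * Real.log (2 * Fintype.card (Fin r) + 1) := ⟨_, rfl⟩
  obtain ⟨C₃, hC₃'⟩ : ∃ C₃ : ℝ, C₃ = R * Real.log c := ⟨_, rfl⟩
  have hC₂ : 0 ≤ C₂ := hC₂' ▸ mul_nonneg (Nat.cast_nonneg R) (Real.log_nonneg hr)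
  have hC₃ : 0 ≤ C₃ := hC₃' ▸ mul_nonneg (Nat.cast_nonneg R) (Real.log_nonneg hc)
  refine ⟨C₂ + (C₃ + n * (1 + Fintype.card ι * κ₁ + Fintype.card ι * (κ₁ * (C₁ + 1) + B₀))),
    by positivity, fun k _ _ hR C x ξ w hx hξ hw hφ => ?_⟩
  replace H₁ := H₁ k hR
  have hE₂ := esz_E hR hr
  have hE₃ := esz_E hR hc
  rw [← hC₂'] at hE₂
  rw [← hC₃'] at hE₃
  have hw0 : 0 ≤ w := (logHeight_nonneg x).trans hw
  have hnm : Ad (fun v => nm v x) (w + 1) := (ad_nm hx.one).mono (by linarith)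
  choose cφ hcφ hcφ' using fun a => H₁ (C.φ a) w hw0 (hφ a)
  choose cd hcd hcd' using fun a => H₁ (pderiv a (C.φ a)) (w + C₁) (by linarith)
    (hC₁ ▸ esz_pderiv hR hw0 (hφ a) a)
  have hd : ∀ a, Ad (fun v => max 1 (v (eval x (pderiv a (C.φ a)))⁻¹))
      ((κ₁ * (C₁ + 1) + B₀) * (w + 1)) := fun a => by
    refine (ad_max _).mono ?_
    rw [logHeight₁_inv]
    refine (((hcd a).mul (hnm.pow B₀)).logHeight₁_le fun v _ => ?_).trans ?_
    · refine ((absSN_ov v).aeval_le' (esize_pderiv hw0 (hφ a) a).1 (hnm.one v)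
        fun b => le_nm v x b).trans ?_
      exact mul_le_mul_of_nonneg_right (hcd' a v) (pow_nonneg (hnm.pos v).le _)
    · have := mul_nonneg hκ₁ (mul_nonneg hC₁' hw0)
      nlinarith
  obtain ⟨sφ, hsφ, hsφ'⟩ := esize_fam' hcφ
  obtain ⟨sd, hsd, hsd'⟩ := esize_fam' hd
  have hM := (hnm.mul hsφ).mul hsd
  refine ⟨_, (hE₂.mul (hE₃.mul (hM.pow n))).mono ?_, fun v a => ?_⟩
  · have h1 := mul_nonneg hC₂ hw0
    have h2 := mul_nonneg hC₃ hw0
    nlinarith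
  · have a1 := hnm.one v
    have a2 := hsφ.one v
    have a3 := hsd.one v
    have b2 := one_le_mul_of_one_le_of_one_le a1 a2
    have z : ∀ {x : ℝ}, 1 ≤ x → 0 ≤ x := fun h => zero_le_one.trans h
    refine esize_geo (H k v C x ξ _ hx hξ (hM.one v)
      (fun b => (hφ b).1) (fun b => ?_) (fun b μ => ?_) (fun b _ => ?_) a)
    · exact ((le_nm v x b).trans (le_mul_of_one_le_right (z a1) a2)).trans
        (le_mul_of_one_le_right (z b2) a3)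
    · exact ((((coeff_le_pl v _ μ).trans (hcφ' b v)).trans (hsφ' b v)).trans
        (le_mul_of_one_le_left (z a2) a1)).trans (le_mul_of_one_le_right (z b2) a3)
    · exact ((le_max_right _ _).trans (hsd' b v)).trans (le_mul_of_one_le_left (z a3) b2)

end Pool.Agent.Lib.MP_651af7_nt.Un
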