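import Pool.Agent.Lib.MP_651af7_nt.Un.Voc

/-! The zero lemma, uniformly in the field. -/

namespace Pool.Agent.Lib.MP_651af7_nt.Un

open MvPolynomial Finset Pool.Agent.Lib.MP_651af7_nt.Av
open Pool.Agent.Lib.Common.Subspace (IsInt len)
open Pool.Agent.Lib.Common.ZeroLemma

theorem enva_sh {τ K L : Type} [Field K] [CharZero K] [Field L] [CharZero L] (φ : K →+* L)
    (ξ : τ → K) (P : MvPolynomial τ ℚ) : sh (fun a => φ (ξ a)) P = map φ (sh ξ P) := by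
  have : (sh (fun a => φ (ξ a))).toRingHom = (map φ).comp (sh ξ).toRingHom := by
    refine MvPolynomial.ringHom_ext' (Subsingleton.elim _ _) fun a => ?_
    simp [sh]
  exact congrArg (fun ψ => ψ P) this

theorem enva_aeval {τ K L : Type} [Field K] [CharZero K] [Field L] [CharZero L] (φ : K →+* L)
    (ξ : τ → K) (P : MvPolynomial τ ℚ) : aeval (fun a => φ (ξ a)) P = φ (aeval ξ P) := by
  have : (aeval (fun a => φ (ξ a)) : MvPolynomial τ ℚ →ₐ[ℚ] L).toRingHom =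
      φ.comp (aeval ξ : MvPolynomial τ ℚ →ₐ[ℚ] K).toRingHom := by
    refine MvPolynomial.ringHom_ext' (Subsingleton.elim _ _) fun a => ?_
    simp
  exact congrArg (fun ψ => ψ P) this

/-- The zero lemma with the number field quantified after the constants. -/
theorem enva_zero_lemma {σ ι : Type} [Fintype σ] (blk : σ → ι) (θ : ℝ) (hθ : 0 < θ) :
    ∃ (B : ℕ) (η : ℝ), 0 < η ∧ ∀ (K : Type) [Field K] [NumberField K]
      (ε : ℝ) (ω : σ → ℝ), (∀ a, 1 ≤ ε * ω a) → 0 < ε →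
      (∀ a b, blk a = blk b → ω a = ω b) →
      (∀ a b, blk a ≠ blk b → ω a ≤ η * ω b ∨ ω b ≤ η * ω a) →
      ∀ (ξ : σ → K) (D : ℝ), 0 < D → ∀ P : MvPolynomial σ ℚ, P ≠ 0 → IsInt P →
      (∀ μ ∈ P.support, ∀ a, ω a * μ a ≤ D) → len P ≤ Real.exp (ε * D) →
      InF ω (θ * D) (sh ξ P) →
      ∃ (a : σ) (g : MvPolynomial σ ℚ), Irreducible g ∧ IsInt g ∧
        (∀ μ ∈ g.support, ∀ b, (blk b ≠ blk a → μ b = 0) ∧ μ b ≤ B) ∧
        len g ≤ Real.exp (B * ε * ω a) ∧ aeval ξ g = 0 := by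
  obtain ⟨B, η, hη, H⟩ := zero_lemma blk ℂ θ hθ
  refine ⟨B, η, hη, fun K _ _ ε ω h1 h2 h3 h4 ξ D hD P h5 h6 h7 h8 h9 => ?_⟩
  obtain ⟨φ⟩ : Nonempty (K →+* ℂ) := inferInstance
  obtain ⟨a, g, g1, g2, g3, g4, g5⟩ := H ε ω h1 h2 h3 h4 (fun a => φ (ξ a)) D hD P h5 h6 h7 h8 (by
    rw [enva_sh]
    exact fun μ hμ => h9 μ (support_map_subset φ _ hμ))
  refine ⟨a, g, g1, g2, g3, g4, φ.injective ?_⟩
  rw [← enva_aeval, g5, map_zero]

/-- `Av.nonvanishing'` with the field quantified after the constants. -/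
theorem nonvanishing' {σ τ ι : Type} [Fintype τ] (blk : τ → ι) (B₀ k : ℕ) (θ : ℝ) (hθ : 0 < θ) :
    ∃ (B : ℕ) (η : ℝ), 0 < η ∧ ∀ (K : Type) [Field K] [NumberField K] (e : τ → σ),
      Function.Injective e →
      ∀ (ε : ℝ) (w : σ → ℝ), 0 < ε → (∀ a, 1 ≤ ε * w a) →
      (∀ a b, blk a = blk b → w (e a) = w (e b)) →
      (∀ a b, blk a ≠ blk b → w (e a) ≤ η * w (e b) ∨ w (e b) ≤ η * w (e a)) →
      ∀ (ξ : τ → K) (ev : MvPolynomial σ ℚ →+* MvPowerSeries τ K),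
      (∀ a, ev (X (e a)) = MvPowerSeries.C (ξ a) + MvPowerSeries.X a) →
      ∀ (l : List σ) (φ : σ → MvPolynomial σ ℚ), l.length ≤ k → (∀ s, s ∈ l ∨ s ∈ Set.range e) →
      (l.Pairwise fun a b => ∀ μ ∈ (φ b).support, μ a = 0) →
      (∀ t ∈ l, Rel ev w ε B₀ t (φ t)) →
      ∀ (D : ℝ), 1 ≤ ε * D → ∀ G : MvPolynomial σ ℚ, Common.ZeroLemma.Sm w ε D G → ev G ≠ 0 →
      (∃ κ : τ →₀ ℕ, Finsupp.weight (fun a => w (e a)) κ < θ * D ∧
        MvPowerSeries.coeff κ (ev G) ≠ 0) ∨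
      ∃ (a : τ) (g : MvPolynomial τ ℚ), Irreducible g ∧ IsInt g ∧
        (∀ μ ∈ g.support, ∀ b, (blk b ≠ blk a → μ b = 0) ∧ μ b ≤ B) ∧
        len g ≤ Real.exp (B * ε * w (e a)) ∧ aeval ξ g = 0 := by
  classical
  have hc : (1 : ℝ) ≤ 3 * ((B₀ + 1 : ℕ) : ℝ) := by
    push_cast
    linarith [Nat.cast_nonneg (α := ℝ) B₀]
  have hck : (0 : ℝ) < (3 * ((B₀ + 1 : ℕ) : ℝ)) ^ k := by positivity
  obtain ⟨B, η, hη, H⟩ := enva_zero_lemma blk (θ / (3 * ((B₀ + 1 : ℕ) : ℝ)) ^ k) (by positivity)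
  refine ⟨B, η, hη, ?_⟩
  intro K _ _ e he ε w hε hw hb1 hb2 ξ ev hev l φ hk hcov hl hφ D hD G hG h0
  have hw0 : ∀ a, 0 ≤ w a := fun a => ((mul_pos_iff_of_pos_left hε).1 (by linarith [hw a])).le
  have hD0 : 0 < D := (mul_pos_iff_of_pos_left hε).1 (by linarith)
  have : IsDomain (MvPowerSeries τ K) := NoZeroDivisors.to_isDomain _
  obtain ⟨N, h1, h2, h3, h4, -⟩ := elim_list hw0 hε (Nat.le_add_left 1 B₀) φ l
    hl (fun t ht => ⟨(hφ t ht).int, fun μ hμ s => ((hφ t ht).deg μ hμ s).trans (Nat.le_succ _),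
      (hφ t ht).blk, (hφ t ht).len, (hφ t ht).zero, (hφ t ht).sep⟩) hD hG h0
  obtain ⟨P, rfl⟩ := exists_rename_eq_of_vars_subset_range N e he (by
    intro s hs
    rcases hcov s with h | h
    · obtain ⟨μ, hμ, h5⟩ := (mem_vars_iff_mem_support s).1 (Finset.mem_coe.1 hs)
      exact absurd (h4 s h μ hμ) (Finsupp.mem_support_iff.1 h5)
    · exact h)
  have h5 := (nv_rename he h1).mono hε.le (D' := (3 * ((B₀ + 1 : ℕ) : ℝ)) ^ k * D)
    (mul_le_mul_of_nonneg_right (pow_le_pow_right₀ hc hk) hD0.le)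
  have h6 : ev (rename e P) =
      ((aeval (fun a => X a + C (ξ a)) P : MvPolynomial τ K) : MvPowerSeries τ K) := by
    have : ev.comp (rename e : MvPolynomial τ ℚ →ₐ[ℚ] MvPolynomial σ ℚ).toRingHom =
        (coeToMvPowerSeries.ringHom).comp
          (aeval (fun a => X a + C (ξ a)) : MvPolynomial τ ℚ →ₐ[ℚ] MvPolynomial τ K).toRingHom := by
      refine MvPolynomial.ringHom_ext' (Subsingleton.elim _ _) fun a => ?_
      simp [hev, add_comm]
    have h7 := congrArg (fun ψ => ψ P) this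
    exact h7
  by_cases hcase : ∃ κ : τ →₀ ℕ, Finsupp.weight (fun a => w (e a)) κ < θ * D ∧
      MvPowerSeries.coeff κ (ev G) ≠ 0
  · exact Or.inl hcase
  push Not at hcase
  refine Or.inr (H K ε (fun a => w (e a)) (fun a => hw _) hε hb1 hb2 ξ _ (by positivity) P ?_ h5.int
    h5.deg h5.len ?_)
  · rintro rfl
    exact h2 (by simp)
  · intro μ hμ
    rw [← mul_assoc, div_mul_cancel₀ _ hck.ne']
    by_contra hlt
    push Not at hlt
    obtain ⟨u, hu⟩ := h3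
    have h7 : MvPowerSeries.coeff μ (ev (rename e P)) = 0 := by
      rw [hu, MvPowerSeries.coeff_mul]
      refine Finset.sum_eq_zero fun q hq => ?_
      rw [hcase q.1 ?_, zero_mul]
      rw [← Finset.HasAntidiagonal.mem_antidiagonal.1 hq, map_add] at hlt
      have h8 : 0 ≤ Finsupp.weight (fun a => w (e a)) q.2 := by
        rw [Finsupp.weight_apply]
        exact Finset.sum_nonneg fun s _ => nsmul_nonneg (hw0 _) _
      linarith
    rw [h6, coeff_coe] at h7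
    exact mem_support_iff.1 hμ h7

end Pool.Agent.Lib.MP_651af7_nt.Un
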