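import Pool.Agent.Lib.MP_651af7_nt.Av.Pt

/-! A form over an algebraic extension is replaced by a form over the ground field. -/

namespace Pool.Agent.Lib.MP_651af7_nt.Un

open MvPolynomial Av

theorem exists_norm {k K κ : Type} [Field k] [Field K] [Algebra k K] [Algebra.IsAlgebraic k K]
    {I : Ideal (MvPolynomial κ k)} (hI : ∀ P ∈ I, ∀ d, homogeneousComponent d P ∈ I)
    (hp : (I.map (MvPolynomial.map (algebraMap k K))).IsPrime) {Θ : MvPolynomial κ K} {t : ℕ}
    (h : Θ.IsHomogeneous t) (h' : Θ ∉ I.map (MvPolynomial.map (algebraMap k K))) :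
    ∃ (Θ₀ : MvPolynomial κ k) (t₀ : ℕ), Θ₀.IsHomogeneous t₀ ∧ Θ₀ ∉ I ∧
      ∀ (R : Type) [CommRing R] [Algebra k R] [Algebra K R] [IsScalarTower k K R] (x : κ → R),
        (∀ P ∈ I, aeval x P = 0) → aeval x Θ = 0 → aeval x Θ₀ = 0 := by
  let _ : Algebra (MvPolynomial κ k) (MvPolynomial κ K) := MvPolynomial.algebraMvPolynomial
  obtain ⟨a, h1, h2⟩ := SetLike.exists_of_lt (Ideal.comap_lt_comap_of_integral_mem_sdiff
    (R := MvPolynomial κ k) (hI := hp) (J := _ ⊔ Ideal.span {Θ}) le_sup_left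
    ⟨Ideal.mem_sup_right (Ideal.mem_span_singleton_self Θ), h'⟩
    (MvPolynomial.isIntegral_iff_isIntegral_coeff.2 fun _ => Algebra.IsIntegral.isIntegral _))
  obtain ⟨e, he⟩ : ∃ e, homogeneousComponent e a ∉ I := by
    by_contra! hc
    exact h2 (Ideal.mem_map_of_mem _ (sum_homogeneousComponent a ▸ I.sum_mem fun e _ => hc e))
  refine ⟨_, e, homogeneousComponent_isHomogeneous e a, he, fun R _ _ _ _ x xz h0 => ?_⟩
  obtain ⟨P, hP, Q, hQ, h3⟩ := Submodule.mem_sup.1 h1
  obtain ⟨Q, rfl⟩ := Ideal.mem_span_singleton'.1 hQ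
  have h4 : P + Q * Θ = MvPolynomial.map (algebraMap k K) a := h3
  rw [← aeval_map_algebraMap K, ← homogeneousComponent_map, ← h4, map_add, map_add,
    aeval_of_mem_map xz _ (hom_map hI P hP e), zero_add, ← sum_homogeneousComponent Q,
    Finset.sum_mul, map_sum, map_sum]
  refine Finset.sum_eq_zero fun d _ => ?_
  rw [homogeneousComponent_of_mem ((homogeneousComponent_isHomogeneous d Q).mul h)]
  split_ifs
  · rw [map_mul, h0, mul_zero]
  · exact map_zero _

end Pool.Agent.Lib.MP_651af7_nt.Un
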