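import Pool.Agent.Lib.MP_651af7_nt.Un.SeqC
import Pool.Agent.Lib.MP_651af7_nt.Un.Norm

/-! One exceptional form for all fields of bounded degree. -/

namespace Pool.Agent.Lib.MP_651af7_nt.Un

open MvPolynomial Filter Height Pool.Agent.Lib.MP_651af7_nt.Av Pool.Agent.Lib.MP_651af7_nt.Av.AV

variable {ι J : Type} [Fintype ι] [Fintype J]

/-- The excess in the inequality. -/
noncomputable def exc {k L : Type} [Field k] [Field L] [NumberField L] [Algebra k L]
    (G : J → MvPolynomial ι k) (d : ℕ) (ε : ℝ) (x : ι → L) : ℝ :=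
  d * logHeight x - logHeight (fun j => aeval x (G j)) - ε * logHeight x

/-- Off every hypersurface the excess is unbounded over some field of degree at most `R`. -/
def Unb {k : Type} [Field k] (A : AV k ι) (G : J → MvPolynomial ι k) (d : ℕ) (ε : ℝ) (R : ℕ) :
    Prop :=
  ∀ (Θ : MvPolynomial ι k) (n : ℕ), Θ.IsHomogeneous n → Θ ∉ A.I →
    ∃ (L : Type) (_ : Field L) (_ : NumberField L) (_ : Algebra k L), totalWeight L ≤ R ∧
      ∀ C : ℝ, ∃ P : A.Pt L, aeval P.co Θ ≠ 0 ∧ C < exc G d ε P.co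

theorem Unb.le {k : Type} [Field k] [NumberField k] {A : AV k ι} {G : J → MvPolynomial ι k} {d : ℕ}
    {ε : ℝ} {R : ℕ} (h : Unb A G d ε R) : totalWeight k ≤ R := by
  obtain ⟨L, _, _, _, hL, -⟩ := h 1 0 (isHomogeneous_one _ _)
    ((Ideal.ne_top_iff_one _).1 A.isPrime.ne_top)
  refine le_trans ?_ hL
  rw [tw_eq, tw_eq, ← Module.finrank_mul_finrank ℚ k L]
  exact Nat.le_mul_of_pos_right _ Module.finrank_pos

/-- The family of all bad points. -/
theorem Unb.family {k : Type} [Field k] {A : AV k ι} {G : J → MvPolynomial ι k} {d : ℕ}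
    {ε : ℝ} {R : ℕ} (h : Unb A G d ε R) : ∃ (T : Type) (F : T → Type) (_ : ∀ t, Field (F t))
      (_ : ∀ t, NumberField (F t)) (_ : ∀ t, Algebra k (F t)) (U : Ultrafilter (Σ t, A.Pt (F t))),
      (∀ t, totalWeight (F t) ≤ R) ∧ (Dom U fun n => exc G d ε n.2.co) ∧
      ∀ (Θ : MvPolynomial ι k) (n : ℕ), Θ.IsHomogeneous n → Θ ∉ A.I →
        ∀ᶠ l : Σ t, A.Pt (F t) in U, aeval l.2.co Θ ≠ 0 := by
  have hp := A.isPrime
  let T := {t : MvPolynomial ι k × ℕ // t.1.IsHomogeneous t.2 ∧ t.1 ∉ A.I}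
  choose F i₁ i₂ i₃ hR hF using fun t : T => h t.1.1 t.1.2 t.2.1 t.2.2
  let S : T × (T → ℝ) → Set (Σ t, A.Pt (F t)) := fun s =>
    {l | aeval l.2.co s.1.1.1 ≠ 0 ∧ s.2 l.1 ≤ exc G d ε l.2.co}
  have hS : ∀ s, (S s).Nonempty := fun s => by
    obtain ⟨P, h1, h2⟩ := hF s.1 (s.2 s.1)
    exact ⟨⟨s.1, P⟩, h1, h2.le⟩
  have hdir : Directed (· ≥ ·) fun s => 𝓟 (S s) := fun s s' =>
    ⟨(⟨(s.1.1.1 * s'.1.1.1, s.1.1.2 + s'.1.1.2), s.1.2.1.mul s'.1.2.1,
      fun h => (hp.mem_or_mem h).elim s.1.2.2 s'.1.2.2⟩, fun t => max (s.2 t) (s'.2 t)),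
      principal_mono.2 fun l hl => ⟨left_ne_zero_of_mul ((map_mul _ _ _).symm.trans_ne hl.1),
        (le_max_left _ _).trans hl.2⟩,
      principal_mono.2 fun l hl => ⟨right_ne_zero_of_mul ((map_mul _ _ _).symm.trans_ne hl.1),
        (le_max_right _ _).trans hl.2⟩⟩
  let t₀ : T := ⟨(1, 0), isHomogeneous_one _ _, (Ideal.ne_top_iff_one _).1 hp.ne_top⟩
  have : Nonempty (Σ t, A.Pt (F t)) := ⟨⟨t₀, 0⟩⟩
  have hne := iInf_neBot_of_directed hdir fun s => principal_neBot_iff.2 (hS s)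
  have hU : ∀ s, ∀ᶠ l in Ultrafilter.of (⨅ s, 𝓟 (S s)), l ∈ S s := fun s =>
    (Ultrafilter.of_le _).trans (iInf_le _ s) (mem_principal_self _)
  exact ⟨T, F, i₁, i₂, i₃, _, hR, fun c => (hU (t₀, c)).mono fun _ hl => hl.2,
    fun Θ n h1 h2 => (hU (⟨(Θ, n), h1, h2⟩, 0)).mono fun _ hl => hl.1⟩

theorem Unb.step {k : Type} [Field k] [NumberField k] {A : AV k ι} {G : J → MvPolynomial ι k}
    {d : ℕ} (hG : ∀ j, (G j).IsHomogeneous d) (hc : Cod2 A G) {ε : ℝ} (hε : 0 < ε) {R : ℕ}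
    (h : Unb A G d ε R) : ∃ (L : Type) (_ : Field L) (_ : NumberField L) (_ : Algebra k L),
      totalWeight k < totalWeight L ∧
        Unb (bc A L) (fun j => MvPolynomial.map (algebraMap k L) (G j)) d ε R := by
  obtain ⟨T, F, _, _, _, U, hR, hD, hgen⟩ := h.family
  have hD' : Dom U fun n => htK n.2 := fun c => by
    refine (hD fun t => d * |c t| + 1).mono fun n hn => (le_abs_self _).trans ?_
    have h1 := logHeight_nonneg fun j => aeval n.2.co (G j)
    have h2 := mul_nonneg hε.le (logHeight_nonneg n.2.co)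
    refine (lt_of_mul_lt_mul_left (?_ : (d : ℝ) * |c n.1| < d * logHeight n.2.co)
      d.cast_nonneg).le
    unfold exc at hn
    linarith
  obtain ⟨γ, h1, h2⟩ : ∃ γ : Up U fun n => F n.1, IsAlgebraic k γ ∧
      γ ∉ Set.range (algebraMap k _) := by
    by_contra h0
    refine seq_gcd A G hG hc (fun n => n.2) hD' hR (fun c hc => by_contra fun h => h0 ⟨c, hc, h⟩)
      (fun f n hf h => by_contra fun h2 => ?_) hε ((hD fun _ => 0).mono fun n hn => ?_)
    · obtain ⟨l, h3, h4⟩ := (h.and (hgen f n hf h2)).exists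
      exact h4 h3
    · unfold exc at hn
      unfold htK
      linarith
  have hi := h1.isIntegral
  have := Fact.mk (minpoly.irreducible hi)
  have hm := minpoly.ne_zero hi
  have := (AdjoinRoot.powerBasis hm).finite
  have := NumberField.of_module_finite k (AdjoinRoot (minpoly k γ))
  refine ⟨AdjoinRoot (minpoly k γ), inferInstance, this, inferInstance, ?_, fun Θ n h3 h4 => ?_⟩
  · rw [tw_eq, tw_eq, ← Module.finrank_mul_finrank ℚ k (AdjoinRoot _),
      (AdjoinRoot.powerBasis hm).finrank, AdjoinRoot.powerBasis_dim]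
    exact (Nat.lt_mul_iff_one_lt_right Module.finrank_pos).2
      ((minpoly.two_le_natDegree_iff hi).2 h2)
  rw [bc_I] at h4
  obtain ⟨Θ₀, n₀, h5, h6, h7⟩ := exists_norm A.hom (A.prime _) h3 h4
  obtain ⟨f, rfl⟩ := germ_surj U γ
  have h8 : ∀ᶠ l : Σ t, A.Pt (F t) in U,
      ∃ z : F l.1, Polynomial.aeval z (minpoly k (germ U f)) = 0 := by
    have h9 := minpoly.aeval k (germ U f)
    rw [← germA_apply (k := k), Polynomial.aeval_algHom_apply, germA_apply, germ_eq_zero] at h9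
    exact h9.mono fun l hl => ⟨f l,
      (Polynomial.aeval_algHom_apply (Pi.evalAlgHom k (fun n : Σ t, A.Pt (F t) => F n.1) l) f
        _).trans hl⟩
  obtain ⟨t, ht⟩ := hD.fibre (h8.and (hgen Θ₀ n₀ h5 h6))
  obtain ⟨_, ⟨⟨z, hz⟩, -⟩, -⟩ := ht 0
  let φ := AdjoinRoot.liftAlgHom (minpoly k (germ U f)) (Algebra.ofId k (F t)) z hz
  let _ : Algebra (AdjoinRoot (minpoly k (germ U f))) (F t) := φ.toRingHom.toAlgebra
  have : IsScalarTower k (AdjoinRoot (minpoly k (germ U f))) (F t) :=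
    .of_algebraMap_eq fun c => (φ.commutes c).symm
  refine ⟨F t, inferInstance, inferInstance, inferInstance, hR t, fun C => ?_⟩
  obtain ⟨P, ⟨-, h9⟩, h10⟩ := ht C
  obtain ⟨Q, u, hu⟩ := exists_bc (AdjoinRoot (minpoly k (germ U f))) (rep_co P)
  have e : P.co = fun a => u * Q.co a := funext hu
  refine ⟨Q, fun h0 => h9 (h7 _ _ (rep_co P).zero ?_), ?_⟩
  · rw [e, aeval_mul_of_hom h3, h0, mul_zero]
  · simp only [exc, e, aeval_mul_of_hom (hG _), logHeight_mul_left u.ne_zero,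
      logHeight_mul_left (pow_ne_zero d u.ne_zero)] at h10
    simpa only [exc, aeval_map_algebraMap] using h10

theorem not_unb {d : ℕ} {ε : ℝ} (hε : 0 < ε) (R m : ℕ) : ∀ (k : Type) [Field k] [NumberField k]
    (A : AV k ι) (G : J → MvPolynomial ι k), (∀ j, (G j).IsHomogeneous d) → Cod2 A G →
    R < totalWeight k + m → ¬Unb A G d ε R := by
  induction m with
  | zero => exact fun k _ _ A G _ _ h h' => h.not_ge h'.le
  | succ m ih =>
    intro k _ _ A G hG hc h h'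
    obtain ⟨L, _, _, _, h1, h2⟩ := h'.step hG hc hε
    exact ih L _ _ (fun j => (hG j).map _) hc.bc (by omega) h2

theorem gcdU {K ι : Type} [Field K] [NumberField K] [Fintype ι] (A : AV K ι) {J : Type} [Fintype J]
    (G : J → MvPolynomial ι K) {d : ℕ} (hG : ∀ j, (G j).IsHomogeneous d)
    (hc : 2 ≤ ((Ideal.span (Set.range G)).map (Ideal.Quotient.mk A.I)).height) {ε : ℝ}
    (hε : 0 < ε) (r : ℕ) : ∃ (Θ : MvPolynomial ι K) (n : ℕ), Θ.IsHomogeneous n ∧ Θ ∉ A.I ∧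
      ∀ (L : Type) [Field L] [NumberField L] [Algebra K L], Module.finrank K L ≤ r →
      ∃ C : ℝ, ∀ x : ι → L, x ≠ 0 → (∀ f ∈ A.I, aeval x f = 0) → aeval x Θ ≠ 0 →
        (fun j => aeval x (G j)) ≠ 0 ∧
          d * logHeight x - logHeight (fun j => aeval x (G j)) ≤ ε * logHeight x + C := by
  have hc' : Cod2 A G := fun M _ _ w h0 hw h1 => A.td_of_height G hG hc h0 hw h1
  obtain ⟨j₀, hj₀⟩ := hc'.exists_notMem
  have h := not_unb hε (totalWeight K * r) (totalWeight K * r + 1) K A G hG hc' (by omega)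
  by_contra hcon
  refine h fun Θ n h1 h2 => by_contra fun h3 => hcon ⟨Θ * G j₀, n + d, h1.mul (hG j₀),
    fun h => (A.isPrime.mem_or_mem h).elim h2 hj₀, fun L _ _ _ hL => ?_⟩
  obtain ⟨C, hC⟩ := not_forall.1 fun h4 => h3 ⟨L, _, _, _, by
    rw [tw_eq, tw_eq, ← Module.finrank_mul_finrank ℚ K L]
    exact Nat.mul_le_mul_left _ hL, h4⟩
  refine ⟨C, fun x h0 hz h4 => ?_⟩
  rw [map_mul, mul_ne_zero_iff] at h4
  refine ⟨fun h5 => h4.2 (congrFun h5 j₀), not_lt.1 fun h5 => hC ?_⟩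
  obtain ⟨P, u, hu⟩ := exists_rep_of_ne (A := A) h0 hz
  obtain rfl : x = fun a => u * P.co a := funext hu
  simp only [aeval_mul_of_hom (hG _), logHeight_mul_left u.ne_zero,
    logHeight_mul_left (pow_ne_zero d u.ne_zero)] at h5
  rw [aeval_mul_of_hom h1] at h4
  exact ⟨P, right_ne_zero_of_mul h4.1, by unfold exc; linarith⟩

end Pool.Agent.Lib.MP_651af7_nt.Un
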