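import Pool.Agent.Lib.MP_651af7_nt.Un.Voc

/-! Codimension two. -/

namespace Pool.Agent.Lib.MP_651af7_nt.Un

open MvPolynomial Pool.Agent.Lib.MP_651af7_nt.Av Pool.Agent.Lib.MP_651af7_nt.Av.AV

/-- Copy of `AV.codim` (`Av/Geo`); `hc` replaces `td_of_height`. -/
theorem codim {k ι K E : Type} [Field k] [CharZero k] [Fintype ι] [Field K] [Field E] [Algebra k K]
    [Algebra k E] [Algebra K E] [IsScalarTower k K E] {A B : AV k ι} (h : Sub A B)
    (hE : RelCl K E) {x : A.Pt E} (hx : Gen A.I x.co) {a : A.Pt K}
    (hxa : x - A.map (IsScalarTower.toAlgHom k K E) a ∈ (h.inc E).range)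
    {J : Type} (G : J → MvPolynomial ι k) (hc : Cod2 A G)
    (F : Type) [Field F] [Algebra k F] [Algebra K F] [IsScalarTower k K F] (w : ι → F)
    (h0 : w ≠ 0) (hw : ∀ f ∈ B.I, aeval w f = 0)
    (hG0 : ∀ j b, aeval w (A.shift a.co (G j) b) = 0) : td K (rat w) + 2 ≤ B.dim := by
  have : CharZero K := charZero_of_injective_algebraMap (algebraMap k K).injective
  obtain ⟨y, hy⟩ := hxa
  obtain ⟨W, hW⟩ := exists_rep (A := B) (v := w)
    ((Function.ne_iff.1 h0).imp fun _ e => Ne.isUnit e) hw
  let aF := A.map (IsScalarTower.toAlgHom k K F) a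
  let p := h.inc F W + aF
  -- the forms vanish at `p`
  have h1 : td k (rat p.co) + 2 ≤ A.dim := by
    have ha := (rep_co a).map (IsScalarTower.toAlgHom k K F)
    obtain ⟨c, b, hu⟩ := exists_unit_ph (h.rep_inc hW) ha
    have hp := rep_add (h.rep_inc hW) ha hu
    rw [A.tr_rat_rep hp]
    refine hc F _ (Function.ne_iff.2 ⟨c, hu.ne_zero⟩) hp.zero fun j => ?_
    have h2 := hG0 j b
    rw [shift, A.geo_aeval_ph _ _ (fun c => c) (fun _ => b) (G j) w] at h2
    simp only [aeval_C, aeval_X] at h2
    exact h2
  -- translation by a point over `K` keeps the degree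
  have h2 : td K (rat w) ≤ td K (rat p.co) := by
    have e : h.inc F W = p - aF := (add_sub_cancel_right _ _).symm
    rw [← A.tr_rat_rep (h.rep_inc hW), e]
    refine (tr_td_le (A.rat_add_sub p aF).2).trans ((td_union_le _ _).trans ?_)
    rw [A.td_map a, add_zero]
  have h3 : td k (rat x.co) = A.dim := by
    refine (A.gen_iff (K := k) (Function.ne_iff.2
      ((rep_co x).unit.imp fun _ e => e.ne_zero)) (rep_co x).zero).1 fun f n hf e => ?_
    have h4 := (A.mem_IK_iff (K := k)).2 (hx f n hf e)
    rwa [Algebra.algebraMap_self, MvPolynomial.map_id] at h4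
  obtain ⟨M, _, _, i, i', hi⟩ := exists_join hE F
  let _ : Algebra k M := ((algebraMap K M).comp (algebraMap k K)).toAlgebra
  have : IsScalarTower k K M := .of_algebraMap_eq fun _ => rfl
  let _ : Algebra E M := i.toRingHom.toAlgebra
  have : IsScalarTower K E M := .of_algebraMap_eq fun c => (i.commutes c).symm
  have : IsScalarTower k E M := .of_algebraMap_eq fun c =>
    ((i.restrictScalars k).commutes c).symm
  let x' := A.map (i.restrictScalars k) x
  let p' := A.map (i'.restrictScalars k) p
  let z := B.map (i.restrictScalars k) y - B.map (i'.restrictScalars k) W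
  have ex : rat x'.co = i '' rat x.co := geo_rat_map _ _
  have ep : rat p'.co = i' '' rat p.co := geo_rat_map _ _
  have ez : x' = p' + h.inc M z := by
    have e1 : x = h.inc E y + A.map (IsScalarTower.toAlgHom k K E) a := by
      rw [hy, sub_add_cancel]
    have e2 : A.map (i.restrictScalars k) (A.map (IsScalarTower.toAlgHom k K E) a) =
        A.map (i'.restrictScalars k) aF := by
      rw [AV.map_map, AV.map_map]
      exact map_congr (rep_co a) fun c => (i.commutes _).trans (i'.commutes _).symm
    have e3 := h.inc_map (i.restrictScalars k) y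
    have e4 := h.inc_map (i'.restrictScalars k) W
    change A.map (i.restrictScalars k) x = A.map (i'.restrictScalars k) (h.inc F W + aF) +
      h.inc M (B.map (i.restrictScalars k) y - B.map (i'.restrictScalars k) W)
    rw [map_sub, e3, e4, e1, map_add, map_add, e2]
    change A.map (i.restrictScalars k) (h.inc E y) + _ =
      A.map (i'.restrictScalars k) (h.inc F W) + _ +
        (A.map (i.restrictScalars k) (h.inc E y) - A.map (i'.restrictScalars k) (h.inc F W))
    abel
  have h4 : td k (rat (h.inc M z).co) ≤ B.dim := by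
    rw [A.tr_rat_rep (h.rep_inc (rep_co z))]
    exact B.td_le_dim (rep_co z).zero
  have h5 : td k (rat x'.co ∪ rat p'.co) ≤ td k (rat p.co) + B.dim := by
    refine (tr_td_le (S := rat p'.co ∪ rat (h.inc M z).co) (Set.union_subset ?_ ?_)).trans
      ((td_union_le _ _).trans (add_le_add ?_ h4))
    · rw [ez]
      exact (A.rat_add_sub _ _).1
    · exact Set.subset_union_left.trans (Matroid.subset_closure _ _ (Set.subset_univ _))
    · rw [ep]
      exact (td_image (i'.restrictScalars k) _).le
  have h6 : A.dim + td K (rat p.co) ≤ td k (rat x'.co ∪ rat p'.co) := by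
    refine le_trans (le_of_eq ?_) (td_add_le (M := E) ?_)
    · rw [ex, ep, td_join i' hi, ← h3]
      exact congrArg (· + _) (td_image (i.restrictScalars k) _).symm
    · rw [ex]
      rintro _ ⟨c, -, rfl⟩
      exact ⟨c, rfl⟩
  have h7 : (A.dim : ℕ∞) + (td K (rat w) + 2) ≤ A.dim + B.dim :=
    calc (A.dim : ℕ∞) + (td K (rat w) + 2) = A.dim + td K (rat w) + 2 := by rw [add_assoc]
      _ ≤ A.dim + td K (rat p.co) + 2 := by gcongr
      _ ≤ td k (rat p.co) + B.dim + 2 := add_le_add (h6.trans h5) le_rfl
      _ = td k (rat p.co) + 2 + B.dim := add_right_comm _ _ _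
      _ ≤ _ := by gcongr
  exact (ENat.add_le_add_iff_left (ENat.natCast_ne_top _)).1 h7

end Pool.Agent.Lib.MP_651af7_nt.Un
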