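import Pool.Agent.Lib.MP_651af7_nt.Un.Voc

/-! Heights over an extension, with constants that enter additively. -/

namespace Pool.Agent.Lib.MP_651af7_nt.Un

open MvPolynomial Height Pool.Agent.Lib.MP_651af7_nt.Av Pool.Agent.Lib.MP_651af7_nt.Av.AV

variable {k ι : Type} [Field k] [Fintype ι] (A : AV k ι) (L : Type) [Field L] [NumberField L]
  [Algebra k L]

theorem fgK : AddGroup.FG (A.Pt L) :=
  have := (bc A L).mw_fg
  AddGroup.fg_of_surjective (bc_surj A L L)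

theorem exists_euclidK : ∃ (r : ℕ) (φ : A.Pt L →+ EuclideanSpace ℝ (Fin r)) (C : ℝ),
    ∀ P, |‖φ P‖ ^ 2 - htK P| ≤ C := by
  obtain ⟨C, hC⟩ := ht_parallelogram L A
  have := fgK A L
  exact Pool.Agent.MP_651af7_nt.MW.exists_euclid_of_approx htK htK_nonneg C hC

theorem htK_add_le : ∃ C : ℝ, ∀ P Q : A.Pt L, htK (P + Q) ≤ 3 / 2 * htK P + 3 * htK Q + C ∧
    htK (P - Q) ≤ 3 / 2 * htK P + 3 * htK Q + C := by
  obtain ⟨r, φ, C, H⟩ := exists_euclidK A L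
  have key : ∀ P Q S : A.Pt L, ‖φ S‖ ≤ ‖φ P‖ + ‖φ Q‖ →
      htK S ≤ 3 / 2 * htK P + 3 * htK Q + 6 * C := by
    intro P Q S h
    have a1 := (abs_le.1 (H S)).1
    have a2 := abs_le.1 (H P)
    have a3 := (abs_le.1 (H Q)).2
    have a4 : ‖φ S‖ ^ 2 ≤ (‖φ P‖ + ‖φ Q‖) ^ 2 := pow_le_pow_left₀ (norm_nonneg _) h 2
    nlinarith [sq_nonneg (‖φ P‖ - 2 * ‖φ Q‖), a2.1, a2.2]
  refine ⟨6 * C, fun P Q => ⟨key P Q _ ?_, key P Q _ ?_⟩⟩
  · rw [map_add]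
    exact norm_add_le _ _
  · rw [map_sub]
    exact norm_sub_le _ _

theorem htK_le_smul {D : ℕ} (hD : 0 < D) : ∃ C : ℝ, ∀ P : A.Pt L, htK P ≤ htK (D • P) + C := by
  obtain ⟨r, φ, C, H⟩ := exists_euclidK A L
  refine ⟨2 * C, fun P => ?_⟩
  have a1 := (abs_le.1 (H P)).1
  have a2 := (abs_le.1 (H (D • P))).2
  have a3 : ‖φ P‖ ≤ ‖φ (D • P)‖ := by
    rw [map_nsmul, ← Nat.cast_smul_eq_nsmul ℝ, norm_smul, Real.norm_natCast]
    exact le_mul_of_one_le_left (norm_nonneg _) (by exact_mod_cast hD)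
  have a4 := pow_le_pow_left₀ (norm_nonneg _) a3 2
  linarith

/-- Representatives of bounded height modulo `D`. -/
theorem exists_reps {D : ℕ} (hD : 0 < D) :
    ∃ c : ℝ, ∀ z : A.Pt L, ∃ y p : A.Pt L, D • y = -p + z ∧ htK p ≤ c := by
  have := fgK A L
  have := AddSubgroup.finiteIndex_range_nsmulAddMonoidHom_of_fg (A.Pt L) hD.ne'
  obtain ⟨c, hc⟩ := Finite.exists_le
    fun q : A.Pt L ⧸ (nsmulAddMonoidHom (α := A.Pt L) D).range => htK q.out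
  refine ⟨c, fun z => ?_⟩
  obtain ⟨y, hy⟩ := QuotientAddGroup.eq.1
    (QuotientAddGroup.out_eq' (z : A.Pt L ⧸ (nsmulAddMonoidHom (α := A.Pt L) D).range))
  exact ⟨y, _, hy, hc _⟩

variable {A L} in
theorem htK_inc {B : AV k ι} (h : Sub A B) (y : B.Pt L) : htK (h.inc L y) = htK y :=
  (h.rep_inc (rep_co y)).htK.symm

end Pool.Agent.Lib.MP_651af7_nt.Un
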