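import Pool.Agent.Lib.MP_651af7_nt.Un.LosA

/-! Block S, third part: charts, tangent vectors and monic equations along an ultrafilter. -/

namespace Pool.Agent.Lib.MP_651af7_nt.Un

open MvPolynomial Filter Pool.Agent.Lib.MP_651af7_nt.Av

variable {α : Type} {U : Ultrafilter α} {F : α → Type} [∀ n, Field (F n)] {k ι K : Type}
  [Field k] [∀ n, Algebra k (F n)] [Field K] {r : ℕ}

theorem tang_pi {A : AV k ι} {x v l : ∀ n, ι → F n} (h : ∀ n, A.Tang (x n) (v n) (l n)) :
    A.Tang (R := ∀ n, F n) (fun a n => x n a) (fun a n => v n a) fun a n => l n a := by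
  have key : ∀ y z : DualNumber (∀ n, F n), (∀ n, dmap (Pi.evalAlgHom k F n) y =
      dmap (Pi.evalAlgHom k F n) z) → y = z := fun y z hyz =>
    TrivSqZeroExt.ext (funext fun n => congrArg TrivSqZeroExt.fst (hyz n))
      (funext fun n => congrArg TrivSqZeroExt.snd (hyz n))
  have e : ∀ n (x v : ι → ∀ n, F n), (fun a => dmap (Pi.evalAlgHom k F n) (dv x v a)) =
      dv (fun a => x a n) fun a => v a n := fun n x v => by rw [dv_eq_dw, dv_eq_dw]; rfl
  refine ⟨fun P hP => key _ _ fun n => ?_, funext fun n => (h n).ao, fun a b => key _ _ fun n => ?_⟩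
  · rw [map_zero, ← AlgHom.comp_apply, comp_aeval, e]
    exact (h n).mem P hP
  · have e0 : (fun a => (0 : ι → ∀ n, F n) a n) = 0 := rfl
    have e1 : (fun c => algebraMap k (∀ n, F n) (A.o c) n) = fun c => algebraMap k (F n) (A.o c) :=
      rfl
    rw [map_mul, AV.map_ph, AV.map_ph, e, e, congrFun (e n _ _) b, e0, e1]
    exact (h n).eq a b

theorem tang_germ {A : AV k ι} {x v l : ∀ n, ι → F n} (h : ∀ᶠ n in U, A.Tang (x n) (v n) (l n)) :
    A.Tang (fun a => germ U fun n => x n a) (fun a => germ U fun n => v n a)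
      fun a => germ U fun n => l n a := by
  classical
  let π : (∀ n, ι → F n) → (∀ n, ι → F n) → ∀ n, ι → F n := fun z w n =>
    if A.Tang (x n) (v n) (l n) then z n else w n
  have h1 : ∀ n, A.Tang (π x (fun n a => algebraMap k (F n) (A.o a)) n) (π v 0 n) (π l 0 n) :=
    fun n => by
      by_cases hn : A.Tang (x n) (v n) (l n)
      · simpa only [π, if_pos hn] using hn
      · simpa only [π, if_neg hn, zero_smul, Pi.zero_apply] using
          AV.tang_self (A := A) (R := F n) AV.rep_zero 0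
  have h2 := (tang_pi h1).map (germA U F k)
  have h3 : ∀ z w, (fun a => germA U F k fun n => π z w n a) =
      fun a => germ U fun n => z n a := fun z w => funext fun a =>
    (germ_eq U).2 (h.mono fun n hn => by simp only [π, if_pos hn])
  rwa [h3, h3, h3] at h2

variable [Algebra K (Up U F)]

theorem Repr.aeval' {σ : Type} {P : MvPolynomial σ K} {p : ∀ n, MvPolynomial σ (F n)}
    (h : Repr U (MvPolynomial.map (algebraMap K (Up U F)) P) p) (x : ∀ n, σ → F n) :
    MvPolynomial.aeval (fun a => germ U fun n => x n a) P =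
      germ U fun n => MvPolynomial.aeval (x n) (p n) := by
  rw [← aeval_map_algebraMap (Up U F), h.aeval]
  rfl

theorem Repr.pderiv' {σ : Type} {P : MvPolynomial σ K} {p : ∀ n, MvPolynomial σ (F n)}
    (h : Repr U (MvPolynomial.map (algebraMap K (Up U F)) P) p) (a : σ) :
    Repr U (MvPolynomial.map (algebraMap K (Up U F)) (MvPolynomial.pderiv a P))
      fun n => MvPolynomial.pderiv a (p n) := by
  rw [← pderiv_map]
  exact h.pderiv a

theorem Repr.supp' {σ : Type} {P : MvPolynomial σ K} {p : ∀ n, MvPolynomial σ (F n)}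
    (h : Repr U (MvPolynomial.map (algebraMap K (Up U F)) P) p) :
    ∀ᶠ n in U, (p n).support ⊆ P.support :=
  h.supp.mono fun _ hn => hn.trans (support_map_subset _ _)

variable (U) in
/-- The family of charts `Cn` represents the chart `C`. -/
structure ReprC (C : Chart K ι r) (Cn : ∀ n, Chart (F n) ι r) : Prop where
  I : ∀ n, (Cn n).I = C.I
  φ : ∀ a, Repr U (MvPolynomial.map (algebraMap K (Up U F)) (C.φ a)) fun n => (Cn n).φ a

theorem exists_reprC (C : Chart K ι r) : ∃ Cn : ∀ n, Chart (F n) ι r, ReprC U C Cn := by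
  have h : ∀ a, ∃ p : ∀ n, MvPolynomial ι (F n),
      Repr U (MvPolynomial.map (algebraMap K (Up U F)) (C.φ a)) p ∧
      (∀ n, (p n).support ⊆ (C.φ a).support) ∧ (a = C.a₀ → ∀ n, p n = X C.a₀ - 1) := by
    intro a
    by_cases ha : a = C.a₀
    · have h1 : Repr U (MvPolynomial.map (algebraMap K (Up U F)) (C.φ a))
          fun n => (X C.a₀ - 1 : MvPolynomial ι (F n)) := by
        have h0 := repr_lift (U := U) (X C.a₀ - 1 : MvPolynomial ι (∀ n, F n))
        simp only [evP, RingHom.map_sub, map_X, RingHom.map_one] at h0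
        rwa [ha, C.φ₀, RingHom.map_sub, map_X, RingHom.map_one]
      refine ⟨_, h1, fun n μ hμ => ?_, fun _ _ => rfl⟩
      have key : ∀ (L : Type) [Field L], μ ∈ (X C.a₀ - 1 : MvPolynomial ι L).support ↔
          μ = Finsupp.single C.a₀ 1 ∨ μ = 0 := fun L _ => by
        classical
        have h3 : Finsupp.single C.a₀ 1 ≠ 0 := Finsupp.single_ne_zero.2 one_ne_zero
        rw [mem_support_iff, coeff_sub, coeff_X, coeff_one]
        by_cases h4 : Finsupp.single C.a₀ 1 = μ
        · subst h4
          simp [h3.symm]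
        · by_cases h5 : 0 = μ
          · subst h5
            simp [h4]
          · simp [h4, h5, Ne.symm h4, Ne.symm h5]
      rw [ha, C.φ₀, key]
      exact (key _).1 hμ
    · obtain ⟨p, hp, hs⟩ := exists_repr' (MvPolynomial.map (algebraMap K (Up U F)) (C.φ a))
      exact ⟨p, hp, fun n => (hs n).trans (support_map_subset _ _), fun h => absurd h ha⟩
  choose p hp hs h0 using h
  exact ⟨fun n => ⟨C.a₀, C.I, fun a => p a n, C.inj, C.ne, h0 _ rfl n,
    fun a μ hμ => C.supp a μ (hs a n hμ)⟩, fun _ => rfl, hp⟩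

namespace ReprC

variable {C : Chart K ι r} {Cn : ∀ n, Chart (F n) ι r} (h : ReprC U C Cn) {x : ∀ n, ι → F n}
include h

theorem atx [Finite ι] (hC : C.At fun a => germ U fun n => x n a) :
    ∀ᶠ n in U, (Cn n).At (x n) := by
  refine eventually_all.2 fun a => ?_
  by_cases ha : a ∈ Set.range C.I
  · exact .of_forall fun n hn => absurd (h.I n ▸ ha) hn
  · obtain ⟨h1, h2⟩ := hC a ha
    rw [(h.φ a).aeval', germ_eq_zero] at h1
    rw [((h.φ a).pderiv' a).aeval', germ_isUnit] at h2
    exact (h1.and h2).mono fun n hn _ => hn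

theorem on [Finite ι] [Algebra k K] [IsScalarTower k K (Up U F)] {J : Ideal (MvPolynomial ι K)}
    (hC : C.On J fun a => germ U fun n => x n a) {I : Ideal (MvPolynomial ι k)}
    (hI : ∀ f ∈ I, MvPolynomial.map (algebraMap k K) f ∈ J) :
    ∀ᶠ n in U, (Cn n).On (I.map (MvPolynomial.map (algebraMap k (F n)))) (x n) := by
  obtain ⟨m, f, rfl⟩ := Submodule.fg_iff_exists_fin_generating_family.1
    (IsNoetherian.noetherian I)
  have h1 : ∀ᶠ n in U, ∀ j, ∃ s, IsUnit (aeval (x n) s) ∧
      s * MvPolynomial.map (algebraMap k (F n)) (f j) ∈ (Cn n).ideal := by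
    refine eventually_all.2 fun j => ?_
    obtain ⟨s, hs, hs'⟩ := hC _ (hI _ (Submodule.subset_span ⟨j, rfl⟩))
    obtain ⟨t, ht⟩ := exists_repr (MvPolynomial.map (algebraMap K (Up U F)) s)
    rw [ht.aeval', germ_isUnit] at hs
    have h2 := Ideal.mem_map_of_mem (MvPolynomial.map (algebraMap K (Up U F))) hs'
    rw [C.ideal_eq, Ideal.map_span, ← Set.range_comp, map_mul, MvPolynomial.map_map,
      ← IsScalarTower.algebraMap_eq] at h2
    have h3 := Repr.mem_span (g := fun n (a : ↥(Set.range C.I)ᶜ) => (Cn n).φ a)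
      (fun a => h.φ a) (ht.mul (Repr.const (f j))) h2
    refine (hs.and h3).mono fun n hn => ⟨t n, hn.1, ?_⟩
    rw [Chart.ideal, h.I, Set.image_eq_range]
    exact hn.2
  refine h1.mono fun n hn => ?_
  change (Cn n).On ((Ideal.span (Set.range f)).map _) _
  rw [Ideal.map_span]
  refine (Cn n).on_span ?_
  rintro _ ⟨_, ⟨j, rfl⟩, rfl⟩
  exact hn j

theorem kills [Fintype ι] {A : AV k ι} {g : ℕ} {σ : Fin g → ι → k} {ℓ : ∀ n, Fin g → F n}
    (hℓ : ∀ᶠ n in U, A.Kills σ (Cn n) (x n) (ℓ n)) :
    A.Kills σ C (fun a => germ U fun n => x n a) fun l => germ U fun n => ℓ n l := by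
  intro j
  have h1 : ∀ n, ∃ (v : ι → F n) (τ : Fin g → F n), A.Kills σ (Cn n) (x n) (ℓ n) →
      (Cn n).Tv (x n) j v ∧ A.Tang (x n) v (fun a => ∑ l, τ l * algebraMap k (F n) (σ l a)) ∧
        ∑ l, ℓ n l * τ l = 0 := by
    intro n
    by_cases hn : A.Kills σ (Cn n) (x n) (ℓ n)
    · obtain ⟨v, τ, h⟩ := hn j
      exact ⟨v, τ, fun _ => h⟩
    · exact ⟨0, 0, fun h => absurd h hn⟩
  choose v τ hv using h1
  have h2 := hℓ.mono hv
  refine ⟨fun a => germ U fun n => v n a, fun l => germ U fun n => τ n l, ⟨fun l => ?_,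
    fun a ha => ?_⟩, ?_, ?_⟩
  · have e : (if l = j then 1 else 0 : Up U F) = germ U (K := F) fun _ => if l = j then 1 else 0 := by
      split_ifs
      · exact (map_one _).symm
      · exact (map_zero _).symm
    rw [e, germ_eq]
    exact h2.mono fun n hn => h.I n ▸ hn.1.1 l
  · simp only [fun b => ((h.φ a).pderiv' b).aeval' x, ← map_mul, ← map_sum, germ_eq_zero]
    refine h2.mono fun n hn => ?_
    rw [Finset.sum_apply]
    exact hn.1.2 a (h.I n ▸ ha)
  · have h3 := tang_germ (h2.mono fun n hn => hn.2.1)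
    have e : (fun a => ∑ l, (germ U fun n => τ n l) * algebraMap k (Up U F) (σ l a)) =
        fun a => germ U fun n => ∑ l, τ n l * algebraMap k (F n) (σ l a) := by
      funext a
      simp only [algebraMap_up, ← map_mul, ← map_sum]
      congr 1
      funext n
      rw [Finset.sum_apply]
      rfl
    rw [e]
    exact h3
  · simp only [← map_mul, ← map_sum, germ_eq_zero]
    refine h2.mono fun n hn => ?_
    rw [Finset.sum_apply]
    exact hn.2.2

end ReprC

theorem NN.transfer [Finite ι] [Algebra k K] [IsScalarTower k K (Up U F)]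
    {I : Ideal (MvPolynomial ι k)} {g e ρ : ℕ} {u : Fin (g + 1) → MvPolynomial ι K}
    {c : ι → Fin ρ → MvPolynomial (Fin (g + 1)) K}
    (h : NN (I.map (MvPolynomial.map (algebraMap k K))) e ρ u c)
    {un : ∀ n, Fin (g + 1) → MvPolynomial ι (F n)} 
    {cn : ∀ n, ι → Fin ρ → MvPolynomial (Fin (g + 1)) (F n)}
    (hu : ∀ i, Repr U (MvPolynomial.map (algebraMap K (Up U F)) (u i)) fun n => un n i)
    (hc : ∀ a l, Repr U (MvPolynomial.map (algebraMap K (Up U F)) (c a l)) fun n => cn n a l) :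
    ∀ᶠ n in U, NN (I.map (MvPolynomial.map (algebraMap k (F n)))) e ρ (un n) (cn n) := by
  have h1 : ∀ᶠ n in U, ∀ i, (un n i).support ⊆ (u i).support :=
    eventually_all.2 fun i => (hu i).supp'
  have h2 : ∀ᶠ n in U, ∀ a l, (cn n a l).support ⊆ (c a l).support :=
    eventually_all.2 fun a => eventually_all.2 fun l => (hc a l).supp'
  have hle : I.map (MvPolynomial.map (algebraMap k K)) ≤
      (I.map (MvPolynomial.map (algebraMap k (Up U F)))).comap
        (MvPolynomial.map (algebraMap K (Up U F))) := by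
    refine Ideal.map_le_iff_le_comap.2 fun f hf => ?_
    rw [Ideal.mem_comap, Ideal.mem_comap, MvPolynomial.map_map,
      ← IsScalarTower.algebraMap_eq]
    exact Ideal.mem_map_of_mem _ hf
  have h3 : ∀ᶠ n in U, ∀ a, X a ^ ρ - ∑ l, aeval (un n) (cn n a l) * X a ^ (l : ℕ) ∈
      I.map (MvPolynomial.map (algebraMap k (F n))) := by
    refine eventually_all.2 fun a => ?_
    have h4 := Ideal.mem_comap.1 (hle (h.rel a))
    simp only [map_sub, map_sum, map_mul, map_pow, map_X, aeval_eq_bind₁, map_bind₁] at h4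
    exact ((Repr.X_pow a ρ).sub (Repr.sum Finset.univ
      (g := fun n l => aeval (un n) (cn n a l) * X a ^ (l : ℕ)) fun l =>
        ((hc a l).comp hu).mul (Repr.X_pow a l))).mem_ideal h4
  filter_upwards [h1, h2, h3] with n h1 h2 h3
  exact ⟨h.pos, fun i d hd => h.hu i (mem_support_iff.1 (h1 i (mem_support_iff.2 hd))),
    fun a l β hβ => h.hc a l β (h2 a l hβ), h3⟩

end Pool.Agent.Lib.MP_651af7_nt.Un
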