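import Pool.Agent.Lib.MP_651af7_nt.Un.Voc

/-! Block S, first part: families of polynomials and of points along an ultrafilter. -/

namespace Pool.Agent.Lib.MP_651af7_nt.Un

open MvPolynomial Filter Height Pool.Agent.Lib.MP_651af7_nt.Av

variable {α : Type} {U : Ultrafilter α} {K : α → Type} [∀ n, Field (K n)] {k ι σ : Type}
  [Field k] [∀ n, Algebra k (K n)]

theorem germ_eq_zero {f : ∀ n, K n} : germ U f = 0 ↔ ∀ᶠ n in U, f n = 0 := by
  rw [← map_zero (germ U), germ_eq]
  rfl

theorem germ_ne_zero {f : ∀ n, K n} : germ U f ≠ 0 ↔ ∀ᶠ n in U, f n ≠ 0 := by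
  rw [Ne, germ_eq_zero, Ultrafilter.eventually_not]

theorem germ_isUnit {f : ∀ n, K n} : IsUnit (germ U f) ↔ ∀ᶠ n in U, IsUnit (f n) := by
  simp only [isUnit_iff_ne_zero, germ_ne_zero]

variable (U k K) in
/-- The germ as a map of algebras. -/
noncomputable def germA : (∀ n, K n) →ₐ[k] Up U K := { germ U with commutes' := fun _ => rfl }

theorem germA_apply (f : ∀ n, K n) : germA U K k f = germ U f := rfl

/-- The member of index `n` of a polynomial over the product ring. -/
noncomputable def evP (n : α) : MvPolynomial σ (∀ n, K n) →+* MvPolynomial σ (K n) :=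
  MvPolynomial.map (Pi.evalRingHom K n)

theorem coeff_evP (n : α) (Q : MvPolynomial σ (∀ n, K n)) (μ : σ →₀ ℕ) :
    coeff μ (evP n Q) = coeff μ Q n := coeff_map _ _ _

theorem repr_lift (Q : MvPolynomial σ (∀ n, K n)) :
    Repr U (MvPolynomial.map (germ U) Q) fun n => evP n Q :=
  ⟨⟨Q.support, fun _ => support_map_subset _ _⟩, fun μ => by
    simp only [coeff_map, coeff_evP]⟩

theorem Repr.exists_lift {P : MvPolynomial σ (Up U K)} {p : ∀ n, MvPolynomial σ (K n)}
    (h : Repr U P p) : ∃ Q : MvPolynomial σ (∀ n, K n),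
      P = MvPolynomial.map (germ U) Q ∧ p = fun n => evP n Q := by
  classical
  obtain ⟨⟨s, hs⟩, h⟩ := h
  have key : ∀ μ, coeff μ (∑ ν ∈ s, monomial ν fun n => coeff ν (p n)) =
      fun n => coeff μ (p n) := by
    intro μ
    simp only [coeff_sum, coeff_monomial, Finset.sum_ite_eq']
    split_ifs with hμ
    · rfl
    · funext n
      exact (notMem_support_iff.1 fun h' => hμ (hs n h')).symm
  refine ⟨∑ ν ∈ s, monomial ν fun n => coeff ν (p n), ?_, funext fun n => ?_⟩
  · ext μ
    rw [coeff_map, key, h]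
  · ext μ
    rw [coeff_evP, key]

theorem exists_repr' (P : MvPolynomial σ (Up U K)) :
    ∃ p, Repr U P p ∧ ∀ n, (p n).support ⊆ P.support := by
  classical
  choose f hf using fun μ => germ_surj U (coeff μ P)
  have key : ∀ n μ, coeff μ (∑ ν ∈ P.support, monomial ν (f ν n)) =
      if μ ∈ P.support then f μ n else 0 := by
    intro n μ
    simp only [coeff_sum, coeff_monomial, Finset.sum_ite_eq']
  have hs : ∀ n, (∑ ν ∈ P.support, monomial ν (f ν n)).support ⊆ P.support := by
    intro n μ hμ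
    rw [mem_support_iff, key] at hμ
    by_contra h
    exact hμ (if_neg h)
  refine ⟨fun n => ∑ ν ∈ P.support, monomial ν (f ν n), ⟨⟨_, hs⟩, fun μ => ?_⟩, hs⟩
  simp only [key]
  split_ifs with hμ
  · exact (hf μ).symm
  · rw [notMem_support_iff.1 hμ]
    exact (map_zero _).symm

theorem exists_repr (P : MvPolynomial σ (Up U K)) : ∃ p, Repr U P p :=
  (exists_repr' P).imp fun _ h => h.1

theorem Repr.aeval {P : MvPolynomial σ (Up U K)} {p : ∀ n, MvPolynomial σ (K n)} (h : Repr U P p)
    (x : ∀ n, σ → K n) :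
    aeval (fun a => germ U fun n => x n a) P = germ U fun n => eval (x n) (p n) := by
  obtain ⟨Q, rfl, rfl⟩ := h.exists_lift
  have h1 := map_eval (germ U) (fun a n => x n a) Q
  have h2 : eval (fun a n => x n a) Q = fun n => eval (x n) (evP n Q) := funext fun n =>
    map_eval (Pi.evalRingHom K n) (fun a n => x n a) Q
  rw [← h2, h1, aeval_eq_eval]
  rfl

theorem Repr.const (f : MvPolynomial σ k) :
    Repr U (MvPolynomial.map (algebraMap k (Up U K)) f)
      fun n => MvPolynomial.map (algebraMap k (K n)) f :=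
  ⟨⟨f.support, fun _ => support_map_subset _ _⟩, fun μ => by
    simp only [coeff_map, algebraMap_up]⟩

theorem aeval_germ (f : MvPolynomial σ k) (x : ∀ n, σ → K n) :
    aeval (fun a => germ U fun n => x n a) f = germ U fun n => aeval (x n) f := by
  have h := (Repr.const (U := U) f).aeval x
  simp only [eval_map_alg] at h
  rwa [aeval_map_algebraMap] at h

theorem Repr.unique {P : MvPolynomial σ (Up U K)} {p q : ∀ n, MvPolynomial σ (K n)} (hp : Repr U P p)
    (hq : Repr U P q) : ∀ᶠ n in U, p n = q n := by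
  classical
  obtain ⟨⟨s, hs⟩, hp⟩ := hp
  obtain ⟨⟨t, ht⟩, hq⟩ := hq
  have h : ∀ᶠ n in U, ∀ μ ∈ s ∪ t, coeff μ (p n) = coeff μ (q n) :=
    (eventually_all_finset _).2 fun μ _ => (germ_eq U).1 ((hp μ).symm.trans (hq μ))
  refine h.mono fun n hn => ?_
  ext μ
  by_cases hμ : μ ∈ s ∪ t
  · exact hn μ hμ
  · rw [Finset.mem_union, not_or] at hμ
    rw [notMem_support_iff.1 fun h' => hμ.1 (hs n h'),
      notMem_support_iff.1 fun h' => hμ.2 (ht n h')]

section closure

variable {P P' : MvPolynomial σ (Up U K)} {p p' : ∀ n, MvPolynomial σ (K n)}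

theorem Repr.supp (h : Repr U P p) : ∀ᶠ n in U, (p n).support ⊆ P.support := by
  obtain ⟨q, hq, hs⟩ := exists_repr' P
  exact (h.unique hq).mono fun n hn => hn ▸ hs n

theorem Repr.add (h : Repr U P p) (h' : Repr U P' p') :
    Repr U (P + P') fun n => p n + p' n := by
  obtain ⟨Q, rfl, rfl⟩ := h.exists_lift
  obtain ⟨Q', rfl, rfl⟩ := h'.exists_lift
  simpa only [map_add] using repr_lift (U := U) (Q + Q')

theorem Repr.sub (h : Repr U P p) (h' : Repr U P' p') :
    Repr U (P - P') fun n => p n - p' n := by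
  obtain ⟨Q, rfl, rfl⟩ := h.exists_lift
  obtain ⟨Q', rfl, rfl⟩ := h'.exists_lift
  simpa only [map_sub] using repr_lift (U := U) (Q - Q')

theorem Repr.mul (h : Repr U P p) (h' : Repr U P' p') :
    Repr U (P * P') fun n => p n * p' n := by
  obtain ⟨Q, rfl, rfl⟩ := h.exists_lift
  obtain ⟨Q', rfl, rfl⟩ := h'.exists_lift
  simpa only [map_mul] using repr_lift (U := U) (Q * Q')

theorem Repr.X_pow (a : σ) (m : ℕ) :
    Repr U (X a ^ m : MvPolynomial σ (Up U K)) fun _ => X a ^ m := by
  simpa only [map_pow, map_X, evP] using repr_lift (U := U) (X a ^ m : MvPolynomial σ (∀ n, K n))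

theorem Repr.zero : Repr U (0 : MvPolynomial σ (Up U K)) fun _ => 0 := by
  simpa only [map_zero] using repr_lift (U := U) (0 : MvPolynomial σ (∀ n, K n))

theorem Repr.sum {J : Type} (s : Finset J) {G : J → MvPolynomial σ (Up U K)}
    {g : ∀ n, J → MvPolynomial σ (K n)} (h : ∀ j, Repr U (G j) fun n => g n j) :
    Repr U (∑ j ∈ s, G j) fun n => ∑ j ∈ s, g n j := by
  classical
  induction s using Finset.induction_on with
  | empty => simpa using Repr.zero
  | insert j s hj ih => simpa only [Finset.sum_insert hj] using (h j).add ih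

theorem Repr.pderiv (h : Repr U P p) (a : σ) :
    Repr U (pderiv a P) fun n => pderiv a (p n) := by
  obtain ⟨Q, rfl, rfl⟩ := h.exists_lift
  simpa only [evP, pderiv_map] using repr_lift (U := U) (MvPolynomial.pderiv a Q)

theorem Repr.comp {τ : Type} {G : σ → MvPolynomial τ (Up U K)} {g : ∀ n, σ → MvPolynomial τ (K n)}
    (h : Repr U P p) (hg : ∀ j, Repr U (G j) fun n => g n j) :
    Repr U (MvPolynomial.aeval G P) fun n => MvPolynomial.aeval (g n) (p n) := by
  obtain ⟨Q, rfl, rfl⟩ := h.exists_lift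
  choose T hT hT' using fun j => (hg j).exists_lift
  obtain rfl : G = fun j => MvPolynomial.map (germ U) (T j) := funext hT
  obtain rfl : g = fun n j => evP n (T j) := funext fun n => funext fun j => congrFun (hT' j) n
  simpa only [evP, map_bind₁, aeval_eq_bind₁] using repr_lift (U := U) (bind₁ T Q)

theorem Repr.eq_zero_iff (h : Repr U P p) : P = 0 ↔ ∀ᶠ n in U, p n = 0 := by
  refine ⟨fun h0 => h.unique (h0 ▸ Repr.zero), fun h0 => ?_⟩
  ext μ
  rw [h.2, coeff_zero, germ_eq_zero]
  exact h0.mono fun n hn => by rw [hn, coeff_zero]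

/-- Membership in a finitely generated ideal passes to the members of the family. -/
theorem Repr.mem_span {J : Type} [Finite J] {G : J → MvPolynomial σ (Up U K)}
    {g : ∀ n, J → MvPolynomial σ (K n)} (hg : ∀ j, Repr U (G j) fun n => g n j) (h : Repr U P p)
    (hP : P ∈ Ideal.span (Set.range G)) : ∀ᶠ n in U, p n ∈ Ideal.span (Set.range (g n)) := by
  have := Fintype.ofFinite J
  obtain ⟨c, rfl⟩ := Ideal.mem_span_range_iff_exists_fun.1 hP
  choose d hd using fun j => exists_repr (c j)
  have h1 := Repr.sum Finset.univ (g := fun n j => d j n * g n j) fun j => (hd j).mul (hg j)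
  refine (h.unique h1).mono fun n hn => ?_
  rw [hn]
  exact Ideal.sum_mem _ fun j _ => Ideal.mul_mem_left _ _ (Ideal.subset_span ⟨j, rfl⟩)

/-- The same for an ideal defined over `k`. -/
theorem Repr.mem_ideal [Finite σ] {I : Ideal (MvPolynomial σ k)} (h : Repr U P p)
    (hP : P ∈ I.map (MvPolynomial.map (algebraMap k (Up U K)))) :
    ∀ᶠ n in U, p n ∈ I.map (MvPolynomial.map (algebraMap k (K n))) := by
  obtain ⟨m, f, rfl⟩ := Submodule.fg_iff_exists_fin_generating_family.1
    (IsNoetherian.noetherian I)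
  change P ∈ (Ideal.span (Set.range f)).map _ at hP
  rw [Ideal.map_span, ← Set.range_comp] at hP
  refine (Repr.mem_span (g := fun n j => MvPolynomial.map (algebraMap k (K n)) (f j))
    (fun j => Repr.const (f j)) h hP).mono fun n hn => ?_
  change p n ∈ (Ideal.span (Set.range f)).map _
  rwa [Ideal.map_span, ← Set.range_comp]

end closure

theorem eventually_zero [Finite σ] {I : Ideal (MvPolynomial σ k)} {x : ∀ n, σ → K n}
    (h : ∀ P ∈ I, aeval (fun a => germ U fun n => x n a) P = 0) :
    ∀ᶠ n in U, ∀ P ∈ I, aeval (x n) P = 0 := by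
  obtain ⟨m, f, rfl⟩ := Submodule.fg_iff_exists_fin_generating_family.1
    (IsNoetherian.noetherian I)
  have h1 : ∀ᶠ n in U, ∀ j, aeval (x n) (f j) = 0 := eventually_all.2 fun j => by
    rw [← germ_eq_zero, ← aeval_germ]
    exact h _ (Submodule.subset_span ⟨j, rfl⟩)
  refine h1.mono fun n hn P hP => ?_
  have h2 : Submodule.span (MvPolynomial σ k) (Set.range f) ≤ RingHom.ker (aeval (x n)) := by
    rw [Submodule.span_le]
    rintro _ ⟨j, rfl⟩
    exact hn j
  exact h2 hP

theorem exists_unit_germ [Finite ι] {x : ∀ n, ι → K n} (h : ∀ᶠ n in U, ∃ a, IsUnit (x n a)) :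
    ∃ a, IsUnit (germ U fun n => x n a) :=
  (Ultrafilter.eventually_exists_iff.1 h).imp fun _ ha => germ_isUnit.2 ha

theorem IsGerm.rep [Finite ι] {A : AV k ι} {Y : A.Pt (Up U K)} {y : ∀ n, A.Pt (K n)} (h : IsGerm U Y y)
    {x : ∀ n, ι → K n} (hx : ∀ᶠ n in U, AV.Rep (y n) (x n)) :
    AV.Rep Y fun a => germ U fun n => x n a := by
  refine AV.Rep.of_minors h (exists_unit_germ (hx.mono fun n hn => hn.unit)) fun a b => ?_
  rw [← map_mul, ← map_mul, germ_eq]
  exact hx.mono fun n hn => (AV.rep_co _).minors hn a b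

theorem IsGerm.of_rep [Finite ι] {A : AV k ι} {Y : A.Pt (Up U K)} {y : ∀ n, A.Pt (K n)}
    (h : IsGerm U Y y) {x : ∀ n, ι → K n} (hx : AV.Rep Y fun a => germ U fun n => x n a) :
    ∀ᶠ n in U, AV.Rep (y n) (x n) := by
  obtain ⟨a, ha⟩ := hx.unit
  have h1 : ∀ᶠ n in U, ∀ a b, (y n).co a * x n b = (y n).co b * x n a :=
    eventually_all.2 fun a => eventually_all.2 fun b => by
      have h2 := AV.Rep.minors h hx a b
      rwa [← map_mul, ← map_mul, germ_eq] at h2
  exact (h1.and (germ_isUnit.1 ha)).mono fun n hn => (AV.rep_co _).of_minors ⟨a, hn.2⟩ hn.1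

theorem ph_germ (A : AV k ι) (a b : ι) (x x' : ∀ n, ι → K n) :
    A.ph a b (fun c => germ U fun n => x n c) (fun c => germ U fun n => x' n c) =
      germ U fun n => A.ph a b (x n) (x' n) := by
  have h1 := AV.map_ph (A := A) (germA U K k) a b (fun c n => x n c) fun c n => x' n c
  have h2 : A.ph a b (fun c n => x n c) (fun c n => x' n c) = fun n => A.ph a b (x n) (x' n) :=
    funext fun n => AV.map_ph (A := A) (Pi.evalAlgHom k K n) a b _ _
  rw [h2] at h1
  exact h1.symm

variable (K) in
/-- The germ of a family of points. -/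
theorem exists_germ [Finite ι] (A : AV k ι) (U : Ultrafilter α) :
    ∃ γ : (∀ n, A.Pt (K n)) →+ A.Pt (Up U K), Function.Surjective γ ∧ (∀ y, IsGerm U (γ y) y) ∧
      ∀ y, γ y = 0 ↔ ∀ᶠ n in U, y n = 0 := by
  classical
  have hex : ∀ y : ∀ n, A.Pt (K n), ∃ Y, IsGerm U Y y := fun y =>
    AV.exists_rep (exists_unit_germ (.of_forall fun n => (AV.rep_co (y n)).unit)) fun P hP => by
      rw [aeval_germ, germ_eq_zero]
      exact .of_forall fun n => (AV.rep_co (y n)).zero P hP
  choose γ hγ using hex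
  have hadd : ∀ y y', γ (y + y') = γ y + γ y' := by
    intro y y'
    obtain ⟨a, b, hab⟩ := AV.exists_unit_ph (hγ y) (hγ y')
    have h1 := AV.rep_add (hγ y) (hγ y') hab
    simp only [ph_germ] at h1 hab
    refine AV.Rep.inj ((hγ (y + y')).rep ?_) h1
    exact (germ_isUnit.1 hab).mono fun n hn => AV.rep_add (AV.rep_co _) (AV.rep_co _) hn
  refine ⟨AddMonoidHom.mk' γ hadd, fun Y => ?_, hγ, fun y => ⟨fun h => ?_, fun h => ?_⟩⟩
  · choose f hf using fun a => germ_surj U (Y.co a)
    have hY : AV.Rep Y fun a => germ U fun n => f a n := by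
      have e : (fun a => germ U fun n => f a n) = Y.co := funext hf
      rw [e]
      exact AV.rep_co Y
    obtain ⟨a, ha⟩ := hY.unit
    have h1 : ∀ᶠ n in U, ∃ p : A.Pt (K n), AV.Rep p fun a => f a n :=
      ((germ_isUnit.1 ha).and (eventually_zero (x := fun n a => f a n) hY.zero)).mono fun n hn =>
        AV.exists_rep ⟨a, hn.1⟩ hn.2
    refine ⟨fun n => if h : ∃ p : A.Pt (K n), AV.Rep p fun a => f a n then h.choose else 0,
      AV.Rep.inj ((hγ _).rep (x := fun n a => f a n) (h1.mono fun n hn => ?_)) hY⟩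
    simp only [dif_pos hn]
    exact hn.choose_spec
  · have h1 : AV.Rep (γ y) fun a => germ U fun n => algebraMap k (K n) (A.o a) := by
      have e : γ y = 0 := h
      rw [e]
      exact AV.rep_zero
    exact ((hγ y).of_rep (x := fun n a => algebraMap k (K n) (A.o a)) h1).mono fun n hn => hn.inj AV.rep_zero
  · refine AV.Rep.inj ((hγ y).rep (x := fun n a => algebraMap k (K n) (A.o a)) (h.mono fun n hn => ?_)) AV.rep_zero
    rw [hn]
    exact AV.rep_zero

end Pool.Agent.Lib.MP_651af7_nt.Un
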