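import Pool.Agent.Lib.MP_651af7_nt.Un.LosA

/-! Block S, second part: the field of small germs. -/

namespace Pool.Agent.Lib.MP_651af7_nt.Un

open MvPolynomial Filter Height Pool.Agent.Lib.MP_651af7_nt.Av
open Pool.Agent.Lib.Common.Subspace (IsInt len)

variable {α : Type} {U : Ultrafilter α} {K : α → Type} [∀ n, Field (K n)] {k ι σ : Type}
  [Field k] [∀ n, Algebra k (K n)] [∀ n, NumberField (K n)]

variable {H : α → ℝ}

variable (hH : Big U K k H)

theorem mem_sm_iff {f : ∀ n, K n} : germ U f ∈ Sm hH ↔ Lo U H fun n => logHeight₁ (f n) :=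
  ⟨fun ⟨_, hg, h⟩ => h.mono (((germ_eq U).1 hg).mono fun n hn => by rw [hn]),
    fun h => ⟨f, rfl, h⟩⟩

/-- A germ of points comes from the small field if and only if the heights are small. -/
theorem small_pt_iff [Fintype ι] {A : AV k ι} {Y : A.Pt (Up U K)} {y : ∀ n, A.Pt (K n)}
    (h : IsGerm U Y y) : (∃ s : A.Pt (Sm hH),
      A.map (IsScalarTower.toAlgHom k (Sm hH) (Up U K)) s = Y) ↔ Lo U H fun n => AV.htK (y n) := by
  constructor
  · rintro ⟨s, rfl⟩
    choose f hf hf' using fun a => (s.co a).2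
    have h1 : AV.Rep (A.map (IsScalarTower.toAlgHom k (Sm hH) (Up U K)) s)
        fun a => germ U fun n => f a n := by
      have e : (fun a => germ U fun n => f a n) =
        fun a => IsScalarTower.toAlgHom k (Sm hH) (Up U K) (s.co a) := funext hf
      rw [e]
      exact (AV.rep_co s).map _
    refine (Lo.sum hH.top Finset.univ fun a _ => hf' a).mono
      ((h.of_rep (x := fun n a => f a n) h1).mono fun n hn => ?_)
    obtain ⟨u, hu⟩ := hn
    refine le_trans (le_of_eq ?_) (logHeight_le_sum fun a => f a n)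
    rw [AV.htK, ← logHeight_smul_eq_logHeight _ u.ne_zero]
    congr 1
    funext a
    exact (hu a).symm
  · intro hy
    obtain ⟨b, hb⟩ := AV.Rep.unit h
    have h1 : ∀ᶠ n in U, AV.Rep (y n) fun a => (y n).co a / (y n).co b :=
      (germ_isUnit.1 hb).mono fun n hn => by
        simpa only [div_eq_inv_mul] using (AV.rep_co (y n)).smul hn.inv
    have h2 : ∀ a, (germ U fun n => (y n).co a / (y n).co b) ∈ Sm hH := fun a =>
      (mem_sm_iff hH).2 (hy.mono (.of_forall fun n => logHeight₁_div_le _ _ _))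
    have h3 := h.rep h1
    obtain ⟨s, -, hs⟩ := AV.exists_map_eq (f := IsScalarTower.toAlgHom k (Sm hH) (Up U K))
      (v := fun a => ⟨_, h2 a⟩) (algebraMap (Sm hH) (Up U K)).injective (by
        obtain ⟨a, ha⟩ := h3.unit
        refine ⟨a, isUnit_iff_ne_zero.2 fun h0 => ha.ne_zero (congrArg Subtype.val h0)⟩) h3
    exact ⟨s, hs⟩

/-- Polynomials over the small field are represented by small polynomials. -/
theorem Repr.small {P : MvPolynomial σ (Sm hH)} {p : ∀ n, MvPolynomial σ (K n)}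
    (h : Repr U (MvPolynomial.map (algebraMap _ (Up U K)) P) p) {B : ℕ} (hB : P.totalDegree ≤ B)
    {ε : ℝ} (hε : 0 < ε) : ∀ᶠ n in U, SmallP B (ε * H n) (p n) := by
  have h1 : ∀ᶠ n in U, ∀ μ ∈ P.support, logHeight₁ (coeff μ (p n)) ≤ ε * H n :=
    (eventually_all_finset _).2 fun μ _ => by
      refine (mem_sm_iff hH (f := fun n => coeff μ (p n))).1 ?_ ε hε
      rw [← h.2, coeff_map]
      exact (coeff μ P).2
  filter_upwards [h1, h.supp, hH.top.eventually_ge_atTop 0] with n hn hs h0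
  have hs' : (p n).support ⊆ P.support := hs.trans (support_map_subset _ _)
  refine ⟨(Finset.sup_mono hs').trans hB, fun μ => ?_⟩
  by_cases hμ : μ ∈ P.support
  · exact hn μ hμ
  · rw [notMem_support_iff.1 fun h' => hμ (hs' h'), logHeight₁_zero]
    positivity

/-- A family of polynomials with bounded support and small coefficients represents a polynomial
over the small field. -/
theorem exists_sm_repr {p : ∀ n, MvPolynomial σ (K n)} (s : Finset (σ →₀ ℕ))
    (hs : ∀ n, (p n).support ⊆ s) (h : ∀ μ, Lo U H fun n => logHeight₁ (coeff μ (p n))) :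
    ∃ P : MvPolynomial σ (Sm hH), Repr U (MvPolynomial.map (algebraMap _ (Up U K)) P) p := by
  classical
  refine ⟨∑ ν ∈ s, monomial ν ⟨_, (mem_sm_iff hH).2 (h ν)⟩, ⟨s, hs⟩, fun μ => ?_⟩
  simp only [coeff_map, coeff_sum, coeff_monomial, Finset.sum_ite_eq']
  split_ifs with hμ
  · rfl
  · rw [map_zero, eq_comm, germ_eq_zero]
    exact .of_forall fun n => notMem_support_iff.1 fun h' => hμ (hs n h')

/-- Diagonal argument: algebraically independent germs lie on no small hypersurface. -/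
theorem exists_not_exit {r : ℕ} (t : ∀ n, Fin r → K n)
    (ht : AlgebraicIndependent (Sm hH) fun j => (germ U fun n => t n j : Up U K)) (B : ℕ) :
    ∃ δ : ℝ, 0 < δ ∧ ∀ᶠ n in U, ∀ q : MvPolynomial (Fin r) ℚ, q ≠ 0 → IsInt q →
      (∀ μ ∈ q.support, ∀ j, μ j ≤ B) → len q ≤ Real.exp (δ * H n) → aeval (t n) q ≠ 0 := by
  classical
  have key := exists_delta hH.top (p := fun δ n => 0 ≤ δ * H n ∧ ∃ q : MvPolynomial (Fin r) ℚ,
    q ≠ 0 ∧ IsInt q ∧ (∀ μ ∈ q.support, ∀ j, μ j ≤ B) ∧ len q ≤ Real.exp (δ * H n) ∧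
      aeval (t n) q = 0) ?_
  · obtain ⟨δ, hδ, h⟩ := key
    refine ⟨δ, hδ, ?_⟩
    filter_upwards [h, hH.top.eventually_ge_atTop 0] with n hn h0 q h1 h2 h3 h4 h5
    exact hn ⟨by positivity, q, h1, h2, h3, h4, h5⟩
  intro d hd h
  have h1 : ∀ n, ∃ q : MvPolynomial (Fin r) ℚ, (∀ μ ∈ q.support, ∀ j, μ j ≤ B) ∧
      ((0 ≤ d n * H n ∧ ∃ q : MvPolynomial (Fin r) ℚ,
        q ≠ 0 ∧ IsInt q ∧ (∀ μ ∈ q.support, ∀ j, μ j ≤ B) ∧ len q ≤ Real.exp (d n * H n) ∧
          aeval (t n) q = 0) →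
        q ≠ 0 ∧ IsInt q ∧ len q ≤ Real.exp (d n * H n) ∧ aeval (t n) q = 0) := by
    intro n
    by_cases hn : ∃ q : MvPolynomial (Fin r) ℚ, q ≠ 0 ∧ IsInt q ∧
        (∀ μ ∈ q.support, ∀ j, μ j ≤ B) ∧ len q ≤ Real.exp (d n * H n) ∧ aeval (t n) q = 0
    · obtain ⟨q, h1, h2, h3, h4, h5⟩ := hn
      exact ⟨q, h3, fun _ => ⟨h1, h2, h4, h5⟩⟩
    · exact ⟨0, by simp, fun h => absurd h.2 hn⟩
  choose q hq hq' using h1
  have h2 := h.mono fun n hn => And.intro hn.1 (hq' n hn)
  obtain ⟨P, hP⟩ := exists_sm_repr hH (p := fun n => MvPolynomial.map (algebraMap ℚ (K n)) (q n))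
    (Finset.Iic (Finsupp.equivFunOnFinite.symm fun _ => B))
    (fun n μ hμ => Finset.mem_Iic.2 fun j => hq n μ (support_map_subset _ _ hμ) j) fun μ => by
      obtain ⟨R, hR⟩ := hH.tw
      refine (hd.const_mul (c := R + 1) (by positivity)).mono (h2.mono fun n hn => ?_)
      obtain ⟨z, hz⟩ := hn.2.2.1 μ
      rw [coeff_map, hz, map_intCast]
      refine (logHeight₁_intCast_le z hn.1 (le_trans ?_ hn.2.2.2.1)).trans
        (mul_le_mul_of_nonneg_right ((Nat.cast_le.2 (hR n)).trans (by linarith)) hn.1)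
      by_cases hμ : μ ∈ (q n).support
      · refine le_trans (le_of_eq ?_) (Finset.single_le_sum (f := fun μ =>
          Rat.AbsoluteValue.real (coeff μ (q n)) * μ.prod fun _ e => (1 : ℝ) ^ e)
          (fun ν _ => mul_nonneg (apply_nonneg _ _) (Finset.prod_nonneg fun _ _ => by simp)) hμ)
        simp [hz, Finsupp.prod]
      · have h0 : z = 0 := by exact_mod_cast hz.symm.trans (notMem_support_iff.1 hμ)
        rw [h0, Int.cast_zero, abs_zero]
        exact Finset.sum_nonneg fun ν _ =>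
          mul_nonneg (apply_nonneg _ _) (Finset.prod_nonneg fun _ _ => by simp)
  have h3 : P = 0 := by
    refine (algebraicIndependent_iff.1 ht) P ?_
    rw [← aeval_map_algebraMap (Up U K), hP.aeval, germ_eq_zero]
    refine h2.mono fun n hn => ?_
    rw [eval_map, ← aeval_def]
    exact hn.2.2.2.2
  rw [h3, map_zero] at hP
  obtain ⟨n, hn, hn'⟩ := ((hP.eq_zero_iff.1 rfl).and h2).exists
  exact hn'.2.1 (map_injective _ (algebraMap ℚ (K n)).injective (by simpa using hn))

theorem relCl_sm₁ (h : RelCl k (Up U K)) : RelCl k (Sm hH) := fun c hc => by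
  obtain ⟨z, hz⟩ := h (c : Up U K) (hc.algHom (Sm hH).val)
  exact ⟨z, Subtype.ext hz⟩

theorem relCl_sm : RelCl (Sm hH) (Up U K) := by
  intro c hc
  obtain ⟨p, hp, hc⟩ := hc.isIntegral
  obtain ⟨f, rfl⟩ := germ_surj U c
  obtain ⟨R, hR⟩ := hH.tw
  choose g hg hg' using fun i => (p.coeff i).2
  rw [← Polynomial.aeval_def, hp.as_sum] at hc
  have h1 : ∀ i, algebraMap (Sm hH) (Up U K) (p.coeff i) = germ U (g i) := fun i => (hg i).symm
  simp only [map_add, map_sum, map_mul, map_pow, Polynomial.aeval_X, Polynomial.aeval_C, h1] at hc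
  simp only [← map_pow, ← map_mul, ← map_sum, ← map_add, germ_eq_zero] at hc
  refine ⟨⟨_, (mem_sm_iff hH).2 (((Lo.const hH.top (R * Real.log p.natDegree)).add
    (Lo.sum hH.top (Finset.range p.natDegree) fun i _ => hg' i)).mono (hc.mono fun n hn =>
      (logHeight₁_root_le (d := p.natDegree) (fun i => g i n) ?_).trans ?_))⟩, rfl⟩
  · simpa only [Pi.add_apply, Pi.pow_apply, Finset.sum_apply, Pi.mul_apply] using hn
  · have h2 : (totalWeight (K n) : ℝ) ≤ R := Nat.cast_le.2 (hR n)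
    have h3 := mul_le_mul_of_nonneg_right h2 (Real.log_natCast_nonneg p.natDegree)
    linarith

end Pool.Agent.Lib.MP_651af7_nt.Un
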