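import Pool.Agent.Lib.MP_651af7_nt.Un.Bc

/-! The parametrisation over every field with a point off one fixed form. -/

namespace Pool.Agent.Lib.MP_651af7_nt.Un

open MvPolynomial Pool.Agent.Lib.MP_651af7_nt.Av Pool.Agent.Lib.MP_651af7_nt.Av.AV

variable {k ι : Type} [Field k] [Fintype ι]

/-- A rational point with an etale chart. -/
def ParPt (B : AV k ι) (g : ℕ) : Prop :=
  ∃ (C : Chart k ι g) (P : B.Pt k) (x : ι → k), Rep P x ∧ C.a₀ = B.ao ∧ C.At x ∧ C.On B.I x ∧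
    ∀ a, a ∉ Set.range C.I → ∀ w : ι → DualNumber k, w B.ao = 1 → (∀ f ∈ B.I, aeval w f = 0) →
      aeval w (C.φ a) = 0

/-- The image of a chart over an extension field. -/
noncomputable def par_mapChart {r : ℕ} (C : Chart k ι r) (L : Type) [Field L] [Algebra k L] :
    Chart L ι r where
  a₀ := C.a₀
  I := C.I
  φ a := MvPolynomial.map (algebraMap k L) (C.φ a)
  inj := C.inj
  ne := C.ne
  φ₀ := by rw [C.φ₀, map_sub, map_X, map_one]
  supp a μ hμ := C.supp a μ (support_map_subset _ _ hμ)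

omit [Fintype ι] in
theorem par_map_ideal {r : ℕ} (C : Chart k ι r) (L : Type) [Field L] [Algebra k L]
    {f : MvPolynomial ι k} (hf : f ∈ C.ideal) :
    MvPolynomial.map (algebraMap k L) f ∈ (par_mapChart C L).ideal := by
  have h1 : C.ideal.map (MvPolynomial.map (algebraMap k L)) ≤ (par_mapChart C L).ideal := by
    rw [Chart.ideal, Ideal.map_span]
    refine Ideal.span_mono ?_
    rintro _ ⟨_, ⟨a, ha, rfl⟩, rfl⟩
    exact ⟨a, ha, rfl⟩
  exact h1 (Ideal.mem_map_of_mem _ hf)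

/-- Follow `AV.par_point` (`Av/Par`): the form is `X B.ao * g S`; the chart over `L` is
the image of the chart `C` over `k` (`φ a` mapped by `MvPolynomial.map`, `support_map_subset`,
`pderiv_map`, `aeval_map_algebraMap`); `bc_I`, `bc_zero`, `exists_bc`, `Chart.on_span`. -/
theorem exists_par_form [CharZero k] (B : AV k ι) : ∃ (S : MvPolynomial ι k) (n : ℕ),
    S.IsHomogeneous n ∧ S ∉ B.I ∧ ∀ (L : Type) [Field L] [Algebra k L] (P : B.Pt L),
      aeval P.co S ≠ 0 → ParPt (bc B L) B.dim := by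
  classical
  obtain ⟨M, _, -, _, -, z, hz, hz0, hd, -⟩ := B.tr_gen k
  have hz' : ∀ f, aeval z f = 0 ↔ f ∈ B.I := fun f => by
    rw [hz, ← B.mem_IK_iff (K := k), Algebra.algebraMap_self, MvPolynomial.map_id]
  obtain ⟨n, C, h0, hA, hn, -, hO⟩ := exists_chart (K := k) (fun a => (z B.ao)⁻¹ * z a) B.ao
    (inv_mul_cancel₀ hz0)
  rw [td_rat_smul (inv_ne_zero hz0), hd, Nat.cast_inj] at hn
  subst hn
  choose g d hg hg' using fun f : MvPolynomial ι k => exists_homogenise f B.ao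
  have h1 : ∀ f, aeval (fun a => (z B.ao)⁻¹ * z a) f = 0 ↔ g f ∈ B.I := fun f => by
    rw [← hg' f M _ (inv_mul_cancel₀ hz0), aeval_mul_of_hom (hg f), ← hz',
      mul_eq_zero_iff_left (pow_ne_zero _ (inv_ne_zero hz0))]
  obtain ⟨T, hT⟩ := IsNoetherian.noetherian B.I
  choose s hs hs' using fun f : T => hO f (zero_mul_of_hom B.hom (fun f => (hz' f).2) _ f
    (hT ▸ Submodule.subset_span f.2))
  let S : MvPolynomial ι k := (∏ f, s f) * ∏ a : ↥(Set.range C.I)ᶜ, pderiv a.1 (C.φ a)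
  have h2 : ¬ X B.ao * g S ∈ B.I := fun h2 => by
    rcases B.tr_prime.mem_or_mem h2 with h3 | h3
    · exact hz0 (by simpa using (hz' _).2 h3)
    · refine absurd ((h1 S).2 h3) (IsUnit.ne_zero ?_)
      simp only [S, map_mul, map_prod]
      exact (IsUnit.prod_univ_iff.2 hs).mul (IsUnit.prod_univ_iff.2 fun a => (hA a a.2).2)
  refine ⟨X B.ao * g S, _, (isHomogeneous_X k B.ao).mul (hg S), h2, fun L _ _ P hP => ?_⟩
  rw [map_mul, aeval_X, Ne, mul_eq_zero, not_or] at hP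
  have hx := (rep_co P).smul (inv_ne_zero hP.1).isUnit
  have h3 : IsUnit (aeval (fun a => (P.co B.ao)⁻¹ * P.co a) S) := by
    rw [← hg' S L _ (inv_mul_cancel₀ hP.1), aeval_mul_of_hom (hg S)]
    exact (mul_ne_zero (pow_ne_zero _ (inv_ne_zero hP.1)) hP.2).isUnit
  simp only [S, map_mul, map_prod, IsUnit.mul_iff, IsUnit.prod_univ_iff] at h3
  have h4 : ∀ a, a ∉ Set.range C.I → g (C.φ a) ∈ B.I := fun a ha => (h1 _).1 (hA a ha).1
  have h5 : ∀ f ∈ B.I, (∏ f, s f) * f ∈ C.ideal := fun f hf => by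
    rw [← hT] at hf
    refine Submodule.span_induction (p := fun f _ => (∏ f, s f) * f ∈ C.ideal) (fun f hf => ?_)
      (by simp) (fun f f' _ _ h5 h6 => mul_add _ f f' ▸ add_mem h5 h6) (fun c f _ h5 => ?_) hf
    · rw [← Finset.mul_prod_erase _ _ (Finset.mem_univ (⟨f, hf⟩ : T)), mul_right_comm]
      exact Ideal.mul_mem_right _ _ (hs' ⟨f, hf⟩)
    · rw [smul_eq_mul, mul_left_comm]
      exact Ideal.mul_mem_left _ _ h5
  obtain ⟨Q, hQ⟩ := exists_bc L hx
  have hao : (bc B L).ao = B.ao := (bc_sub B L).ao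
  refine ⟨par_mapChart C L, Q, _, hQ, h0.trans hao.symm, fun a ha => ⟨?_, ?_⟩, ?_,
    fun a ha w hw hw' => ?_⟩
  · change aeval _ (MvPolynomial.map (algebraMap k L) (C.φ a)) = 0
    rw [aeval_map_algebraMap]
    exact (hg' _ _ _ (inv_mul_cancel₀ hP.1)).symm.trans (hx.zero _ (h4 a ha))
  · change IsUnit (aeval _ (pderiv a (MvPolynomial.map (algebraMap k L) (C.φ a))))
    rw [pderiv_map, aeval_map_algebraMap]
    exact h3.2 ⟨a, ha⟩
  · rw [bc_I, AV.IK, Ideal.map]
    refine Chart.on_span _ ?_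
    rintro _ ⟨f, hf, rfl⟩
    refine ⟨MvPolynomial.map (algebraMap k L) (∏ f, s f), ?_, ?_⟩
    · rw [aeval_map_algebraMap]
      simpa only [map_prod, IsUnit.prod_univ_iff] using h3.1
    · rw [← map_mul]
      exact par_map_ideal C L (h5 f hf)
  · change aeval _ (MvPolynomial.map (algebraMap k L) (C.φ a)) = 0
    rw [aeval_map_algebraMap]
    rw [hao] at hw
    exact (hg' _ _ w hw).symm.trans (bc_zero.1 hw' _ (h4 a ha))

/-- `subst`, then copy the proof of `AV.exists_par`. -/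
theorem ParPt.par [NumberField k] {B : AV k ι} {g : ℕ} (hg : B.dim = g) (h : ParPt B g) :
    ∃ ϱ, B.Par g ϱ := by
  subst hg
  obtain ⟨C, P, x, hx, h0, hA, hO, hφ⟩ := h
  obtain ⟨ξ, hξ⟩ := C.exists_br hA
  have h1 : B.ao ∉ Set.range C.I := fun ⟨j, hj⟩ => C.ne j (hj.trans h0.symm)
  have h2 : ξ B.ao = 1 := by simpa [← h0, C.φ₀, sub_eq_zero] using hξ.eqn _ h1
  have h3 : x B.ao = 1 := by rw [← hξ.const, h2, map_one]
  obtain ⟨Q, hQ⟩ := exists_rep (A := B) ⟨_, h2 ▸ isUnit_one⟩ (hξ.mem hO)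
  have hP := hx.map (Algebra.ofId k (MvPowerSeries (Fin B.dim) k))
  set Z := Q - B.map (Algebra.ofId k _) P with hZ
  have h4 : B.map (parEps k _) Z = 0 := by
    rw [hZ, map_sub, AV.map_map, Subsingleton.elim (AlgHom.comp _ _) (AlgHom.id k k), AV.map_id,
      (hQ.map _).inj (funext hξ.const ▸ hx :), sub_self]
  obtain ⟨u, hu⟩ := (rep_zero (A := B) (R := k)).exists_smul (h4 ▸ (rep_co Z).map (parEps k _))
  obtain ⟨e, he⟩ : IsUnit (Z.co B.ao) := MvPowerSeries.isUnit_iff_constantCoeff.2 (by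
    rw [← parEps_apply, hu, B.o_ao, map_one, mul_one]
    exact u.isUnit)
  have hϱ := (rep_co Z).smul e⁻¹.isUnit
  have h5 : (fun a => (↑e⁻¹ : MvPowerSeries _ k) * Z.co a) B.ao = 1 := by simp [← he]
  generalize (fun a => (↑e⁻¹ : MvPowerSeries _ k) * Z.co a) = ϱ at hϱ h5
  have h6 : ∀ a, MvPowerSeries.constantCoeff (ϱ a) = B.o a := by
    obtain ⟨u, hu⟩ := (rep_zero (A := B) (R := k)).exists_smul (h4 ▸ hϱ.map (parEps k _))
    have h7 := hu B.ao
    rw [h5, B.o_ao, map_one, map_one, mul_one] at h7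
    intro a
    rw [← parEps_apply, hu, ← h7, one_mul]
    rfl
  obtain ⟨c, hc⟩ := law hQ hP (rep_co _) hϱ
  have h7 : ∀ a b, B.ph a b ξ (fun c => Algebra.ofId k _ (x c)) =
      B.ph a B.ao ξ (fun c => Algebra.ofId k _ (x c)) * ϱ b := fun a b => by
    rw [hc, hc, h5]
    ring
  have h8 : ∀ (j : Fin B.dim) (w : ι → MvPowerSeries (Fin B.dim) k), w B.ao = 1 →
      lin w j B.ao = 0 := fun j w hw => by simp [lin, hw, par_coeff_single]
  refine ⟨ϱ, hϱ.zero, h6, h5, par_basis hx h3 hA hφ hξ.tv (fun j => h8 j ξ h2) fun j =>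
    ⟨fun f hf => par_dv_zero hξ.const j (hQ.zero f hf), h8 j ϱ h5, fun a b => ?_⟩,
    par_gen hQ h2 hξ.coord hϱ, ?_⟩
  · have h9 := congrArg (parJet j) (h7 a b)
    have h10 : (fun c => parJet j (Algebra.ofId k _ (x c))) = dv x 0 := funext fun c => by
      rw [Algebra.ofId_apply, AlgHom.commutes, dv, Pi.zero_apply, TrivSqZeroExt.inr_zero, add_zero]
      rfl
    rwa [map_mul, map_ph, map_ph, parJet_dv hξ.const, h10, congrFun (parJet_dv h6 j) b] at h9
  · obtain ⟨a, ha⟩ := (rep_co (Q + B.map (Algebra.ofId k _) P)).unit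
    have h9 : ∀ b, aeval ξ (B.ph a b X fun c => MvPolynomial.C (x c)) =
        B.ph a b ξ fun c => Algebra.ofId k _ (x c) := fun b => by
      simp [map_ph, Algebra.ofId_apply]
    refine par_bd hA hξ (B.ph a B.ao X fun c => MvPolynomial.C (x c))
      (fun b => B.ph a b X fun c => MvPolynomial.C (x c)) (IsUnit.ne_zero ?_) fun b => ?_
    · rw [← par_const_aeval hξ.const, ← MvPowerSeries.isUnit_iff_constantCoeff, h9, hc, h5,
        mul_one]
      exact c.isUnit.mul ha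
    · rw [h9, h9, h7 a b, mul_comm]

end Pool.Agent.Lib.MP_651af7_nt.Un
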