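import Pool.Agent.Lib.MP_651af7_nt.Bx.Defs

/-! From the inequality for all `D` to the same inequality with the positive part of `hK`. -/

namespace Pool.Agent.Lib.MP_651af7_nt.Un

open Height MvPolynomial NumberField Bx

theorem lam_pow {L ι : Type} [Field L] {m : ℕ} (v : AbsoluteValue L ℝ)
    (D : Fin m → MvPolynomial ι L) (e n : ℕ) (x : ι → L) (hD : (fun j => eval x (D j)) ≠ 0) :
    lam v (fun j => D j ^ n) (e * n) x = n * lam v D e x := by
  obtain ⟨j, _⟩ := Function.ne_iff.1 hD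
  have : Nonempty (Fin m) := ⟨j⟩
  simp only [lam, map_pow]
  rw [← Real.iSup_pow (fun j => v.nonneg _), pow_mul, ← div_pow, Real.log_pow]

theorem pos_part {L ι : Type} [Field L] [NumberField L] [Fintype ι] {g : ℕ} {ε : ℝ} (hε : 0 < ε)
    {P : (ι → L) → Prop} {Q : (ι → L) → (Fin (g + 1) → ι → L) → Prop}
    (H : ∀ (m e : ℕ) (D : Fin m → MvPolynomial ι L) (S : Finset (FinitePlace L)),
      (∀ j, (D j).IsHomogeneous e) → ∃ C : ℝ, ∀ x, P x → (fun j => eval x (D j)) ≠ 0 →
        ∀ β, Q x β →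
        (∑ w : InfinitePlace L, w.mult * lam w.1 D e x + ∑ w ∈ S, lam w.1 D e x) + hK x β ≤
          ε * logHeight x + C)
    (m e : ℕ) (D : Fin m → MvPolynomial ι L) (S : Finset (FinitePlace L))
    (hD : ∀ j, (D j).IsHomogeneous e) : ∃ C : ℝ, ∀ x, P x → (fun j => eval x (D j)) ≠ 0 →
      ∀ β, Q x β →
      (∑ w : InfinitePlace L, w.mult * lam w.1 D e x + ∑ w ∈ S, lam w.1 D e x) +
        max (hK x β) 0 ≤ ε * logHeight x + C := by
  obtain ⟨n, hn⟩ := exists_nat_ge ((g + 1 + ε) / ε)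
  have h1 : g + 1 + ε ≤ n * ε := (div_le_iff₀ hε).1 hn
  have n0 : (0 : ℝ) < n := lt_of_lt_of_le (by positivity) hn
  obtain ⟨C, hC⟩ := H m e D S hD
  obtain ⟨C', hC'⟩ := H m (e * n) (fun j => D j ^ n) S fun j => (hD j).pow n
  refine ⟨max C (C' / n), fun x hx xD β hβ => ?_⟩
  rcases le_total 0 (hK x β) with h | h
  · rw [max_eq_left h]
    linarith [hC x hx xD β hβ, le_max_left C (C' / n)]
  · rw [max_eq_right h, add_zero]
    have xD' : (fun j => eval x (D j ^ n)) ≠ 0 := by
      obtain ⟨j, hj⟩ := Function.ne_iff.1 xD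
      exact Function.ne_iff.2 ⟨j, by simpa [map_pow] using fun h0 => (hj h0).elim⟩
    have h2 := hC' x hx xD' β hβ
    simp only [lam_pow _ D e n x xD] at h2
    have h3 : ∑ w : InfinitePlace L, w.mult * (n * lam w.1 D e x) + ∑ w ∈ S, n * lam w.1 D e x =
        n * (∑ w : InfinitePlace L, w.mult * lam w.1 D e x + ∑ w ∈ S, lam w.1 D e x) := by
      simp only [mul_add, Finset.mul_sum, mul_left_comm]
    have h4 : -((g + 1) * logHeight x) ≤ hK x β := by
      have := logHeight_nonneg (minors β)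
      simp only [hK]
      linarith
    have h5 := logHeight_nonneg x
    have h6 : ∑ w : InfinitePlace L, w.mult * lam w.1 D e x + ∑ w ∈ S, lam w.1 D e x ≤
        ε * logHeight x + C' / n := by
      refine le_of_mul_le_mul_left ?_ n0
      rw [mul_add (n : ℝ) (ε * _), mul_div_cancel₀ _ n0.ne']
      nlinarith [mul_le_mul_of_nonneg_right h1 h5]
    linarith [le_max_right C (C' / n)]

end Pool.Agent.Lib.MP_651af7_nt.Un
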