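import Pool.Agent.Lib.MP_651af7_nt.Un.Los
import Pool.Agent.Lib.MP_651af7_nt.Un.EMain
import Pool.Agent.Lib.MP_651af7_nt.Un.Par
import Pool.Agent.Lib.MP_651af7_nt.Un.Dns

/-! The contradiction along an ultrafilter on a fixed model. -/

namespace Pool.Agent.Lib.MP_651af7_nt.Un

open MvPolynomial Filter Height Pool.Agent.Lib.MP_651af7_nt.Av Pool.Agent.Lib.MP_651af7_nt.Av.AV

theorem aeval_germ_co {α : Type} {U : Ultrafilter α} {K : α → Type} [∀ n, Field (K n)] {k ι : Type}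
    [Field k] [∀ n, Algebra k (K n)] {A : AV k ι} {x : ∀ n, A.Pt (K n)} {X : A.Pt (Up U K)}
    (hX : IsGerm U X x) {f : MvPolynomial ι k} {n : ℕ} (hf : f.IsHomogeneous n) :
    aeval X.co f = 0 ↔ ∀ᶠ l in U, aeval (x l).co f = 0 := by
  obtain ⟨c, hc⟩ := (rep_co X).exists_smul hX
  have h1 : aeval (fun a => germ U fun l => (x l).co a) f = (c : Up U K) ^ n * aeval X.co f := by
    rw [← aeval_mul_of_hom hf]
    exact congrArg (fun z => aeval z f) (funext hc)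
  rw [aeval_germ] at h1
  rw [← germ_eq_zero, h1, mul_eq_zero, or_iff_right (pow_ne_zero n c.ne_zero)]

/-- The end of the argument, over one field. -/
theorem fibre_core {β : Type} {V : Ultrafilter β} {k ι : Type} [Field k] [NumberField k] [Fintype ι]
    (B : AV k ι) {g r ρ B₀ e m B' : ℕ} {θ ζ ε δ η W : ℝ} (hθ : 0 < θ) (hζ : 0 < ζ)
    {σ : Fin g → ι → k} {md : Option (AbsoluteValue k ℝ)}
    (hW : ∀ (b : Option (Fin m) → B.Blk g r ρ) (j : Fin m → ℕ),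
      (∀ o, (b o).Good σ B₀ e ε δ) → (∀ o, W ≤ ht (b o).P) →
      (∀ o o', o ≠ o' → ht (b o).P ≤ ζ * ht (b o').P ∨ ht (b o').P ≤ ζ * ht (b o).P) →
      (∀ i, Close θ (j i) (b none).P (b (some i)).P) →
      (∀ i, Bad md e η (b (some i)).u (b (some i)).x) →
      ∃ o, (b o).Exit B' (B' * ε * ht (b o).P))
    (b : β → B.Blk g r ρ) (hH : Tendsto (fun n => ht (b n).P) V atTop)
    (h : ∀ᶠ n in V, (b n).Good σ B₀ e ε δ ∧ Bad md e η (b n).u (b n).x ∧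
      ¬(b n).Exit B' (B' * ε * ht (b n).P)) : False := by
  obtain ⟨T, hT, hcone⟩ := B.cone V (fun n => (b n).P) hH hθ
  obtain ⟨f, hf, hsep⟩ := exists_chain hH (h.and ((hH.eventually_ge_atTop W).and
    (show ∀ᶠ n in V, n ∈ T from hT))) hζ
  let ix : Option (Fin m) → ℕ := fun o => o.elim 0 fun i => i + 1
  have hix : Function.Injective ix := by
    rintro (_ | i) (_ | i') h
    · rfl
    · simp [ix] at h
    · simp [ix] at h
    · simp only [ix, Option.elim_some, add_left_inj] at h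
      rw [Fin.ext h]
  choose j hj using fun i : Fin m => hcone (f 0) (hf 0).2.2 (f (i + 1)) (hf (i + 1)).2.2
    (hsep 0 (i + 1) (Nat.succ_pos _)).1
  obtain ⟨o, ho⟩ := hW (fun o => b (f (ix o))) j (fun o => (hf _).1.1) (fun o => (hf _).2.1)
    (fun o o' h => by
      rcases lt_or_gt_of_ne (hix.ne h) with h | h
      · exact Or.inl (hsep _ _ h).2
      · exact Or.inr (hsep _ _ h).2) hj fun i => (hf _).1.2.1
  exact (hf (ix o)).1.2.2 ho

variable {T : Type} {β : T → Type} {U : Ultrafilter (Σ t, β t)} {F : T → Type} [∀ t, Field (F t)]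
  {k ι : Type} [Field k] [CharZero k] [Fintype ι] [∀ t, Algebra k (F t)] [∀ t, NumberField (F t)]

theorem seq_core (B : AV k ι) (y : ∀ n : Σ t, β t, B.Pt (F n.1)) (hD : Dom U fun n => htK (y n))
    (hH : Big U (fun n => F n.1) k fun n => htK (y n)) {Y : B.Pt (Up U fun n => F n.1)}
    (hY : IsGerm U Y y) (hg : B.Gens (Sm hH) Y) {e ρ : ℕ} (he : 1 ≤ e)
    {u : Fin (B.dim + 1) → MvPolynomial ι (Sm hH)}
    {c : ι → Fin ρ → MvPolynomial (Fin (B.dim + 1)) (Sm hH)} (hnn : NN (B.IK (Sm hH)) e ρ u c)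
    {un : ∀ n : Σ t, β t, Fin (B.dim + 1) → MvPolynomial ι (F n.1)}
    (hu : ∀ i, Repr U (MvPolynomial.map (algebraMap _ (Up U fun n => F n.1)) (u i))
      fun n => un n i) (hd : 1 ≤ B.dim) {η : ℝ} (hη : 0 < η)
    (hbad : ∀ᶠ n in U, BadY e η (un n 0) (un n 1) (y n).co) : False := by
  obtain ⟨S, n₀, hS, hS0, hpar⟩ := exists_par_form B
  have hp : ∀ᶠ n : Σ t, β t in U, ∃ ϱ, (bc B (F n.1)).Par B.dim ϱ :=
    (eventually_pt B hD hH hY hg hS hS0).mono fun n ⟨P, hP⟩ =>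
      (hpar _ P hP).par (bc_dim B _)
  obtain ⟨σ, hσ⟩ : ∃ σ : Fin B.dim → ι → k, B.LieBasis σ := by
    obtain ⟨n, ϱ, hϱ⟩ := hp.exists
    exact exists_lieBasis_of_bc hϱ.basis
  obtain ⟨r, B₀, δ, b, hδ, hb, hgood, hex⟩ := exists_blk B hσ y hH hY hg hnn hu
  obtain ⟨R, hR⟩ := hH.tw
  obtain ⟨m, B', θ, ζ, ε₀, hθ, hζ, hε₀, heng⟩ := engine ι R B.dim r ρ B₀ he (half_pos hδ) hη
  obtain ⟨δ', hδ', hex'⟩ := hex B'
  have hε : 0 < min ε₀ (δ' / (B' + 1)) := lt_min hε₀ (by positivity)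
  obtain ⟨t, V, hV, hV'⟩ := hD.ultra (((hgood _ hε).and hex').and (hbad.and hp))
  obtain ⟨n₁, -, -, ϱ, hϱ⟩ := hV.exists
  obtain ⟨W, hW⟩ := heng _ hε (min_le_left _ _) (F t) (hR ⟨t, n₁⟩) _ ϱ hϱ none ⟨hd, nofun⟩
  obtain ⟨W', hW'⟩ := good_basis (bc_lieBasis (L := F t) hσ) hϱ.basis hδ
  have e1 : ∀ n, ht (b n).P = htK (y n) := fun n => ht_eq (hb n).1
  refine fibre_core (V := V) _ hθ hζ hW (fun n => b ⟨t, n⟩) (by simpa only [e1] using hV') ?_
  filter_upwards [hV, hV'.eventually_ge_atTop W'] with n h1 h2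
  refine ⟨hW' _ _ _ _ _ _ (e1 _ ▸ h2) h1.1.1, ?_, fun ⟨q, h0, h3, h4, h5, h6⟩ =>
    h1.1.2 ⟨q, h0, h3, h4, h5.trans (Real.exp_le_exp.2 ?_), h6⟩⟩
  · obtain ⟨s, hs⟩ := (hb ⟨t, n⟩).1.exists_smul h1.1.1.rep
    rw [funext hs]
    refine Bad.smul h1.1.1.nn.hu s.ne_zero ?_
    rw [(hb _).2]
    exact h1.2.1
  · rw [e1]
    refine mul_le_mul_of_nonneg_right ?_ (htK_nonneg _)
    calc (B' : ℝ) * min ε₀ (δ' / (B' + 1)) ≤ (B' + 1) * (δ' / (B' + 1)) := by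
          gcongr
          · linarith
          · exact min_le_right _ _
      _ = δ' := by field_simp

end Pool.Agent.Lib.MP_651af7_nt.Un
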