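import Pool.Agent.Lib.MP_651af7_nt.Un.Seq
import Pool.Agent.Lib.MP_651af7_nt.Un.Ht

/-! The reduction to the subgroup generated by the locus over the small field. -/

namespace Pool.Agent.Lib.MP_651af7_nt.Un

open MvPolynomial Filter Height Pool.Agent.Lib.MP_651af7_nt.Av Pool.Agent.Lib.MP_651af7_nt.Av.AV

section

variable {α : Type} {U : Ultrafilter α} {K : α → Type} [∀ n, Field (K n)] {k ι : Type}
  [Field k] [Fintype ι] [∀ n, Algebra k (K n)] [∀ n, NumberField (K n)]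

theorem sm_congr {H H' : α → ℝ} (hH : Big U K k H) (hH' : Big U K k H')
    (h : ∀ᶠ n in U, H n ≤ 2 * H' n) (h' : ∀ᶠ n in U, H' n ≤ 2 * H n) : Sm hH = Sm hH' :=
  IntermediateField.ext fun _ => ⟨fun ⟨f, h1, h2⟩ => ⟨f, h1, h2.of_le h⟩,
    fun ⟨f, h1, h2⟩ => ⟨f, h1, h2.of_le h'⟩⟩

/-- A germ of points of unbounded height does not lie on a variety of dimension zero. -/
theorem one_le_dim (B : AV k ι) {y : ∀ n, B.Pt (K n)} (hH : Big U K k fun n => htK (y n))
    {Y : B.Pt (Up U K)} (hY : IsGerm U Y y) : 1 ≤ B.dim := by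
  by_contra h0
  have h1 : td (Sm hH) (rat Y.co) ≤ 0 := by
    simpa [show B.dim = 0 by omega] using B.td_le_dim (K := Sm hH) (rep_co Y).zero
  obtain ⟨b, hb⟩ := (rep_co Y).unit
  have h2 : ∀ a, ∃ c : Sm hH, algebraMap _ (Up U K) c = (Y.co b)⁻¹ * Y.co a := fun a => by
    refine relCl_sm hH _ (not_not.1 fun ht => ?_)
    have h3 := (card_le_td (σ := Unit) (y := fun _ => (Y.co b)⁻¹ * Y.co a) (S := rat Y.co)
      (algebraicIndependent_unique_type_iff.2 ht)
      fun _ => ⟨(a, b), by simp [div_eq_inv_mul]⟩).trans h1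
    simp at h3
  choose c hc using h2
  have h3 : IsUnit (c b) := IsUnit.mk0 _ fun h => by
    have := hc b
    rw [h, map_zero, inv_mul_cancel₀ hb.ne_zero] at this
    exact zero_ne_one this
  obtain ⟨s, -, hs⟩ := exists_map_eq (A := B) (f := IsScalarTower.toAlgHom k (Sm hH) (Up U K))
    (algebraMap (Sm hH) (Up U K)).injective (q := Y) ⟨b, h3⟩ (by
      simp only [IsScalarTower.coe_toAlgHom', hc]
      exact (rep_co Y).smul hb.inv)
  obtain ⟨n, h4, h5⟩ := (((small_pt_iff hH hY).1 ⟨s, hs⟩ (1 / 2) one_half_pos).and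
    (hH.top.eventually_ge_atTop 1)).exists
  linarith

/-- `x = y + a` with `a` small and `y` generating `B` over the small field; `a'` are small
coordinates of `a`. -/
structure Coset {A B : AV k ι} (h : Sub A B) (x : ∀ n, A.Pt (K n)) (y : ∀ n, B.Pt (K n)) (a : ∀ n, A.Pt (K n))
    (hH : Big U K k fun n => htK (y n)) (X : A.Pt (Up U K)) (Y : B.Pt (Up U K))
    (aK : A.Pt (Sm hH)) (a' : ∀ n, ι → K n) : Prop where
  gX : IsGerm U X x
  gY : IsGerm U Y y
  gens : B.Gens (Sm hH) Y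
  dim : 1 ≤ B.dim
  add : ∀ n, x n = h.inc (K n) (y n) + a n
  sub : h.inc (Up U K) Y = X - A.map (IsScalarTower.toAlgHom k (Sm hH) (Up U K)) aK
  co : ∀ c, algebraMap (Sm hH) (Up U K) (aK.co c) = germ U fun n => a' n c
  rep : ∀ᶠ n in U, Rep (a n) (a' n)
  small : ∀ c, Lo U (fun n => htK (y n)) fun n => logHeight₁ (a' n c)
  lo : Lo U (fun n => htK (y n)) fun n => htK (a n)
  le : ∀ᶠ n in U, htK (y n) ≤ 2 * htK (x n)

end

variable {T : Type} {β : T → Type} {U : Ultrafilter (Σ t, β t)} {F : T → Type} [∀ t, Field (F t)]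
  {k ι : Type} [Field k] [CharZero k] [Fintype ι] [∀ t, Algebra k (F t)] [∀ t, NumberField (F t)]

theorem exists_coset (A : AV k ι) (x : ∀ n : Σ t, β t, A.Pt (F n.1)) (hD : Dom U fun n => htK (x n))
    {R : ℕ} (hR : ∀ t, totalWeight (F t) ≤ R) (hk : RelCl k (Up U fun n => F n.1)) :
    ∃ (B : AV k ι) (h : Sub A B) (y : ∀ n : Σ t, β t, B.Pt (F n.1))
      (a : ∀ n : Σ t, β t, A.Pt (F n.1)) (hH : Big U (fun n => F n.1) k fun n => htK (y n))
      (X : A.Pt (Up U fun n => F n.1)) (Y : B.Pt (Up U fun n => F n.1)) (aK : A.Pt (Sm hH))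
      (a' : ∀ n : Σ t, β t, ι → F n.1),
      Coset h x y a hH X Y aK a' ∧ Dom U fun n => htK (y n) := by
  have hx := hD.big k hR
  obtain ⟨γ, hγ, gγ, zγ⟩ := exists_germ (fun n => F n.1) A U
  obtain ⟨B, h, D, s, hD0, ⟨Z, hZ⟩, hgens⟩ := A.exists_sub (relCl_sm₁ hx hk) (relCl_sm hx) (γ x)
  obtain ⟨γ', hβ, gβ, -⟩ := exists_germ (fun n => F n.1) B U
  have hinc : ∀ z, h.inc _ (γ' z) = γ fun n => h.inc (F n.1) (z n) := fun z =>
    (h.rep_inc (gβ z)).inj ((gγ _).rep (.of_forall fun n => h.rep_inc (rep_co _)))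
  obtain ⟨s', hs'⟩ := hγ (A.map (IsScalarTower.toAlgHom k (Sm hx) _) s)
  have hls := (small_pt_iff hx (gγ s')).1 ⟨s, hs'.symm⟩
  obtain ⟨z, rfl⟩ := hβ Z
  have hz : ∀ᶠ n : Σ t, β t in U, h.inc (F n.1) (z n) = D • x n - s' n := by
    rw [hinc, ← hs', ← map_nsmul, ← map_sub, ← sub_eq_zero, ← map_sub, zγ] at hZ
    exact hZ.mono fun n hn => sub_eq_zero.1 hn
  choose c hc using fun t => exists_reps B (F t) hD0
  choose y p hy hp using fun n : Σ t, β t => hc n.1 (z n)
  set a : ∀ n : Σ t, β t, A.Pt (F n.1) := fun n => x n - h.inc (F n.1) (y n) with ha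
  choose C hadd using fun t => htK_add_le A (F t)
  choose C' hC' using fun t => htK_le_smul A (F t) hD0
  have hla : Lo U (fun n => htK (x n)) fun n => htK (a n) := by
    refine ((hls.const_mul (c := 3 / 2) (by norm_num)).add
      (hD.lo fun t => 3 * c t + C t + C' t)).mono ?_
    filter_upwards [hz] with n h1
    have h3 : D • a n = s' n + h.inc (F n.1) (p n) := by
      simp only [ha, smul_sub, ← map_nsmul, hy n, map_add, map_neg, h1]
      abel
    have h4 := hC' _ (a n)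
    have h5 := (hadd _ (s' n) (h.inc (F n.1) (p n))).1
    rw [h3] at h4
    rw [htK_inc] at h5
    linarith [hp n]
  have herr : ∀ᶠ n : Σ t, β t in U, 3 * htK (a n) + C n.1 ≤ 1 / 4 * htK (x n) :=
    ((hla.const_mul (c := 3) (by norm_num)).add (hD.lo C)) (1 / 4) (by norm_num)
  have h1 : ∀ᶠ n in U, htK (y n) ≤ 2 * htK (x n) := by
    filter_upwards [herr] with n hn
    have h3 := (hadd _ (x n) (a n)).2
    rw [ha, sub_sub_cancel, htK_inc] at h3
    have := htK_nonneg (x n)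
    simp only [ha] at hn
    linarith
  have h2 : ∀ᶠ n in U, htK (x n) ≤ 2 * htK (y n) := by
    filter_upwards [herr] with n hn
    have h3 := (hadd _ (h.inc (F n.1) (y n)) (a n)).1
    rw [ha, add_sub_cancel, htK_inc] at h3
    simp only [ha] at hn
    linarith
  have hH := (hD.of_le h2).big k hR
  have hY : h.inc _ (γ' y) = γ x - γ a := by
    rw [hinc, ← map_sub]
    exact congrArg γ (funext fun n => (sub_sub_cancel _ _).symm)
  have key : ∃ aK : A.Pt (Sm hH), B.Gens (Sm hH) (γ' y) ∧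
      A.map (IsScalarTower.toAlgHom k (Sm hH) _) aK = γ a := by
    rw [← sm_congr hx hH h2 h1]
    obtain ⟨aK, haK⟩ := (small_pt_iff hx (gγ a)).2 hla
    exact ⟨aK, hgens aK _ (haK ▸ hY), haK⟩
  obtain ⟨aK, hg, haK⟩ := key
  choose f hf hf' using fun c => (aK.co c).2
  refine ⟨B, h, y, a, hH, γ x, γ' y, aK, fun n c => f c n, ⟨gγ x, gβ y, hg,
    one_le_dim B hH (gβ y), fun n => (add_sub_cancel _ _).symm, haK ▸ hY, fun c => (hf c).symm, ?_,
    hf', hla.of_le h2, h1⟩, hD.of_le h2⟩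
  refine (gγ a).of_rep ?_
  have h3 := (rep_co aK).map (IsScalarTower.toAlgHom k (Sm hH) (Up U fun n => F n.1))
  rw [haK] at h3
  exact (funext hf :) ▸ h3

end Pool.Agent.Lib.MP_651af7_nt.Un
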