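import Pool.Agent.Lib.MP_651af7_nt.Un.SeqB
import Pool.Agent.Lib.MP_651af7_nt.Un.Geo

/-! No generic family has large common divisors. -/

namespace Pool.Agent.Lib.MP_651af7_nt.Un

open MvPolynomial Filter Height Pool.Agent.Lib.MP_651af7_nt.Av Pool.Agent.Lib.MP_651af7_nt.Av.AV

/-- The height inequality at one member of the family. -/
theorem seqC_ht {k ι : Type} [Field k] [Fintype ι] (A : AV k ι) (L : Type) [Field L] [NumberField L]
    [Algebra k L] {J : Type} [Fintype J] {G : J → MvPolynomial ι k} {d : ℕ}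
    (hG : ∀ j, (G j).IsHomogeneous d) (M : Fin 2 × (J × ι) → L) : ∃ C : ℝ, ∀ (P Q : A.Pt L)
      (v w : ι → L), Rep P v → Rep Q w → (fun j => aeval (P + Q).co (G j)) ≠ 0 →
      logHeight (fun i => ∑ t, M (i, t) * aeval (fun c => A.ph c t.2 v w) (G t.1)) ≤
        C + d * (2 * (htK P + htK Q) - htK (P + Q)) + logHeight fun j => aeval (P + Q).co (G j) := by
  obtain ⟨C, hC⟩ := ht_parallelogram L A
  refine ⟨totalWeight L * Real.log (Nat.card (J × ι)) + logHeight M + d * C,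
    fun P Q v w hv hw h0 => ?_⟩
  obtain ⟨c, hc⟩ := law hv hw (rep_co (P + Q)) (rep_co (P - Q))
  have e : (fun t : J × ι => aeval (fun a => A.ph a t.2 v w) (G t.1)) =
      fun t => (c : L) ^ d * (aeval (P + Q).co (G t.1) * ((P - Q).co ^ d) t.2) := by
    funext t
    have e1 : (fun a => A.ph a t.2 v w) = fun a => (c * (P - Q).co t.2) * (P + Q).co a :=
      funext fun a => by rw [hc]; ring
    rw [e1, aeval_mul_of_hom (hG _), Pi.pow_apply]
    ring
  have h1 := logHeight_linearMap_apply_le M fun t : J × ι => aeval (fun a => A.ph a t.2 v w) (G t.1)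
  have h2 : (P - Q).co ^ d ≠ 0 := by
    obtain ⟨a, ha⟩ := (rep_co (P - Q)).unit
    exact fun h => pow_ne_zero d ha.ne_zero (congrFun h a)
  refine h1.trans ?_
  rw [e, logHeight_mul_left (pow_ne_zero d c.ne_zero), logHeight_fun_mul_eq h0 h2, logHeight_pow]
  have h3 := mul_le_mul_of_nonneg_left (abs_le.1 (hC P Q)).2 (Nat.cast_nonneg (α := ℝ) d)
  have h4 : logHeight (P - Q).co = htK (P - Q) := rfl
  rw [h4]
  linarith

variable {T : Type} {β : T → Type} {U : Ultrafilter (Σ t, β t)} {F : T → Type} [∀ t, Field (F t)]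
  {k ι : Type} [Field k] [CharZero k] [Fintype ι] [∀ t, Algebra k (F t)] [∀ t, NumberField (F t)]

theorem seq_gcd (A : AV k ι) {J : Type} [Fintype J] (G : J → MvPolynomial ι k) {d : ℕ}
    (hG : ∀ j, (G j).IsHomogeneous d) (hc : Cod2 A G) (x : ∀ n : Σ t, β t, A.Pt (F n.1))
    (hD : Dom U fun n => htK (x n)) {R : ℕ} (hR : ∀ t, totalWeight (F t) ≤ R)
    (hk : RelCl k (Up U fun n => F n.1))
    (hgen : ∀ (f : MvPolynomial ι k) (n : ℕ), f.IsHomogeneous n →
      (∀ᶠ l in U, aeval (x l).co f = 0) → f ∈ A.I) {η : ℝ} (hη : 0 < η)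
    (hbad : ∀ᶠ n in U,
      η * htK (x n) ≤ d * htK (x n) - logHeight fun j => aeval (x n).co (G j)) : False := by
  classical
  obtain ⟨B, h, y, a, hH, X, Y, aK, a', hC, hD'⟩ := exists_coset A x hD hR hk
  have hd : 1 ≤ d := by
    rcases Nat.eq_zero_or_pos d with rfl | hd
    · obtain ⟨n, h1, h2⟩ := (hbad.and (hD.top.eventually_gt_atTop 0)).exists
      have h3 := logHeight_nonneg fun j => aeval (x n).co (G j)
      have h4 := mul_pos hη h2
      rw [Nat.cast_zero, zero_mul] at h1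
      linarith
    · exact hd
  have hX : Gen A.I X.co := fun f n hf h0 => hgen f n hf ((aeval_germ_co hC.gX hf).1 h0)
  obtain ⟨j₀, hj₀⟩ := hc.exists_notMem
  have hG0 : ∀ᶠ n in U, aeval (x n).co (G j₀) ≠ 0 :=
    Ultrafilter.eventually_not.2 fun h0 => hj₀ (hgen _ d (hG j₀) h0)
  let Γ : J × ι → MvPolynomial ι (Sm hH) := fun t => A.shift aK.co (G t.1) t.2
  let z : ∀ n : Σ t, β t, J × ι → F n.1 := fun n t => aeval (fun c => A.ph c t.2 (y n).co (a' n)) (G t.1)
  have hF : ∀ t, aeval (fun c => germ U fun n => (y n).co c) (Γ t) = germ U fun n => z n t := by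
    intro t
    rw [seqC_aeval]
    simp only [hC.co, ph_germ]
    exact aeval_germ _ _
  obtain ⟨b₀, hb₀⟩ : ∃ b, ∀ᶠ n in U, z n (j₀, b) ≠ 0 := by
    refine Ultrafilter.eventually_exists_iff.1 ((hG0.and hC.rep).mono fun n hn => ?_)
    have hs : Rep (h.inc (F n.1) (y n) + a n) (x n).co := by
      rw [← hC.add n]
      exact rep_co _
    obtain ⟨c, hc⟩ := law (h.rep_inc (rep_co (y n))) hn.2 hs (rep_co (h.inc (F n.1) (y n) - a n))
    obtain ⟨b, hb⟩ := (rep_co (h.inc (F n.1) (y n) - a n)).unit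
    refine ⟨b, ?_⟩
    have e1 : (fun c => A.ph c b (y n).co (a' n)) =
        fun l => (c * (h.inc (F n.1) (y n) - a n).co b) * (x n).co l :=
      funext fun l => by rw [hc]; ring
    change aeval (fun c => A.ph c b (y n).co (a' n)) (G j₀) ≠ 0
    rw [e1, aeval_mul_of_hom (hG _)]
    exact mul_ne_zero (pow_ne_zero _ (mul_ne_zero c.ne_zero hb.ne_zero)) hn.1
  have hz0 : (germ U fun n => z n (j₀, b₀)) ≠ 0 := by
    intro h0
    rw [← map_zero (germ U), germ_eq] at h0
    obtain ⟨n, h1, h2⟩ := (h0.and hb₀).exists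
    exact h2 h1
  have hf0 : Γ (j₀, b₀) ∉ B.IK (Sm hH) := fun h0 =>
    hz0 ((hF _).symm.trans (B.tr_zero_IK (Rep.zero hC.gY) _ h0))
  have hFh : ∀ t, (Γ t).IsHomogeneous (2 * d) := fun t => A.seqC_hom _ (hG _) _
  let 𝒢 : Fin (B.dim + 1) → Finset (MvPolynomial ι (Sm hH)) := fun i =>
    if (i : ℕ) = 0 then {Γ (j₀, b₀)} else if (i : ℕ) = 1 then Finset.univ.image Γ
      else Finset.univ.image fun c => MvPolynomial.X c ^ (2 * d)
  have hv1 : ((1 : Fin (B.dim + 1)) : ℕ) = 1 := by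
    rw [Fin.val_one', Nat.mod_eq_of_lt (Nat.succ_lt_succ hC.dim)]
  have h𝒢0 : 𝒢 0 = {Γ (j₀, b₀)} := if_pos rfl
  have h𝒢1 : 𝒢 1 = Finset.univ.image Γ := (if_neg (by omega)).trans (if_pos hv1)
  obtain ⟨γ, ρ, c, hnn, hu0⟩ := B.exists_nn (Sm hH) (e := 2 * d) (by omega) 𝒢
    (fun i f hf => by
      dsimp only [𝒢] at hf
      split_ifs at hf
      · rw [Finset.mem_singleton.1 hf]
        exact hFh _
      · obtain ⟨t, -, rfl⟩ := Finset.mem_image.1 hf
        exact hFh t
      · obtain ⟨t, -, rfl⟩ := Finset.mem_image.1 hf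
        exact isHomogeneous_X_pow t _)
    (fun i E _ _ _ _ w h0 hw hf => by
      dsimp only [𝒢] at hf
      split_ifs at hf with h1 h2
      · have h3 := B.td_le_dim (K := Sm hH) hw
        have h4 : td (Sm hH) (rat w) ≠ B.dim := fun e =>
          hf0 ((B.gen_iff h0 hw).2 e _ _ (hFh _) (hf _ (Finset.mem_singleton_self _)))
        rw [h1, zero_add, Nat.cast_one]
        exact Order.add_one_le_of_lt (lt_of_le_of_ne h3 h4)
      · rw [h2]
        refine codim h (relCl_sm hH) hX ⟨Y, hC.sub⟩ G hc E w h0 hw fun j b => ?_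
        exact hf (Γ (j, b)) (Finset.mem_image_of_mem Γ (Finset.mem_univ (j, b)))
      · refine absurd (funext fun l => ?_) h0
        have h3 := hf _ (Finset.mem_image_of_mem _ (Finset.mem_univ l))
        rw [map_pow, aeval_X] at h3
        exact pow_eq_zero_iff (by omega) |>.1 h3)
  choose un hun using fun i => exists_repr (U := U) (MvPolynomial.map (algebraMap _ (Up U fun n => F n.1))
    (∑ f ∈ 𝒢 i, C ((γ i f : ℚ) : Sm hH) * f))
  have hev : ∀ i, aeval (fun c => germ U fun n => (y n).co c)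
      (∑ f ∈ 𝒢 i, C ((γ i f : ℚ) : Sm hH) * f) = germ U fun n => eval (y n).co (un i n) := by
    intro i
    rw [← (hun i).aeval fun n => (y n).co, aeval_map_algebraMap]
  have hM : ∀ i : Fin (B.dim + 1), (∀ f ∈ 𝒢 i, f ∈ Set.range Γ) →
      ∃ M : J × ι → k, ∀ᶠ n in U,
        eval (y n).co (un i n) = ∑ t, algebraMap k (F n.1) (M t) * z n t := by
    intro i hi
    obtain ⟨M, hM, e⟩ := seqC_comb Γ (fun f => ((γ i f : ℚ) : Sm hH)) (𝒢 i)
      (algebraMap k (Sm hH)).fieldRange (fun f => ⟨(γ i f : k), map_ratCast _ _⟩) hi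
    choose M' hM' using hM
    refine ⟨M', (germ_eq U).1 ?_⟩
    rw [← hev, e, map_sum]
    have e1 : (fun n => ∑ t, algebraMap k (F n.1) (M' t) * z n t) =
        ∑ t, (fun n : Σ t, β t => algebraMap k (F n.1) (M' t)) * fun n => z n t := by
      funext n
      rw [Finset.sum_apply]
      rfl
    rw [e1, map_sum]
    refine Finset.sum_congr rfl fun t _ => ?_
    rw [map_mul, map_mul, hF, aeval_C, ← hM' t, ← IsScalarTower.algebraMap_apply, algebraMap_up]
  obtain ⟨M₀, hM₀⟩ := hM 0 fun f hf => by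
    rw [h𝒢0] at hf
    exact ⟨_, (Finset.mem_singleton.1 hf).symm⟩
  obtain ⟨M₁, hM₁⟩ := hM 1 fun f hf => by
    rw [h𝒢1] at hf
    obtain ⟨t, -, rfl⟩ := Finset.mem_image.1 hf
    exact ⟨t, rfl⟩
  have hne : ∀ᶠ n in U, eval (y n).co (un 0 n) ≠ 0 := by
    refine Ultrafilter.eventually_not.2 fun h0 => ?_
    have h1 : (germ U fun n => eval (y n).co (un 0 n)) = 0 := germ_eq_zero.2 h0
    rw [← hev, h𝒢0, Finset.sum_singleton, map_mul, hF, aeval_C] at h1
    rw [h𝒢0, Finset.sum_singleton] at hu0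
    refine hu0 ?_
    rw [(map_eq_zero _).1 ((mul_eq_zero.1 h1).resolve_right hz0), map_zero, zero_mul]
    exact zero_mem _
  choose C₀ hC₀ using fun t => seqC_ht A (F t) hG fun s => algebraMap k (F t) (![M₀, M₁] s.1 s.2)
  have hd0 : (0 : ℝ) < d := by exact_mod_cast hd
  refine seq_core B y hD' hH hC.gY hC.gens (by omega) hnn (un := fun n i => un i n) hun
    hC.dim (η := η / 4) (by positivity) ?_
  filter_upwards [hbad, hG0, hC.rep, hM₀, hM₁, hne, hC.le, hC.lo (η / (16 * d)) (by positivity),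
    hD'.lo C₀ (η / 8) (by positivity)] with n h1 h2 h3 h4 h5 h6 h7 h8 h9
  refine ⟨fun h0 => h6 (congrFun h0 0), ?_⟩
  have h10 := hC₀ _ _ _ _ _ (h.rep_inc (rep_co (y n))) h3
    (by rw [← hC.add n]; exact fun h0 => h2 (congrFun h0 j₀))
  have e : (fun i => ∑ t, algebraMap k (F n.1) (![M₀, M₁] i t) *
      aeval (fun c => A.ph c t.2 (y n).co (a' n)) (G t.1)) =
      ![eval (y n).co (un 0 n), eval (y n).co (un 1 n)] := by
    funext i
    fin_cases i
    · exact h4.symm
    · exact h5.symm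
  rw [← hC.add n, htK_inc] at h10
  rw [e] at h10
  have h11 : logHeight (y n).co = htK (y n) := rfl
  have h12 := mul_le_mul_of_nonneg_left h8 hd0.le
  have e2 : d * (η / (16 * d) * htK (y n)) = η / 16 * htK (y n) := by field_simp
  have h13 := mul_le_mul_of_nonneg_left h7 hη.le
  rw [h11]
  push_cast
  linarith

end Pool.Agent.Lib.MP_651af7_nt.Un
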