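import Pool.Agent.Lib.MP_651af7_nt.Un.Fin
import Pool.Agent.Lib.MP_651af7_nt.Hy.Main

/-! The estimates on an abelian variety for points with coordinates in an extension field. -/

namespace Pool.Agent.Lib.MP_651af7_nt.Un

open MvPolynomial Module Av Bx Ds Height NumberField

set_option linter.unusedSectionVars false

noncomputable section

/-- The coordinates of `y` lie in a subfield of degree at most `R`. -/
def Sub (k : Type) [Field k] {M ι : Type} [Field M] [Algebra k M] (R : ℕ) (y : ι → M) : Prop :=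
  ∃ F : IntermediateField k M, finrank k F ≤ R ∧ ∀ a, y a ∈ F

variable {k : Type} [Field k] [NumberField k] {ι κ α : Type} [Fintype ι] [Fintype κ] [Fintype α]
  {r g R b e d : ℕ} {A : AV k ι} {σ : Fin r → ι → k} {ψ : κ → MvPolynomial ι k} {ε : ℝ}

theorem Sub.map {M : Type} [Field M] [Algebra k M] {y : ι → M} (h : Sub k R y)
    (ψ : κ → MvPolynomial ι k) : Sub k R fun j => aeval y (ψ j) := by
  obtain ⟨F, h1, h2⟩ := h
  refine ⟨F, h1, fun j => ?_⟩
  have h3 : aeval y (ψ j) = _ := aeval_alg (B := M) (fun a => (⟨y a, h2 a⟩ : F)) (ψ j)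
  exact (congrArg (· ∈ F) h3).mpr (Subtype.property _)

theorem gcdS (A : AV k ι) (G : α → MvPolynomial ι k) (hG : ∀ j, (G j).IsHomogeneous d)
    (hc : 2 ≤ ((Ideal.span (Set.range G)).map (Ideal.Quotient.mk A.I)).height) (hε : 0 < ε)
    (R : ℕ) : ∃ (Θ : MvPolynomial ι k) (n : ℕ), Θ.IsHomogeneous n ∧ Θ ∉ A.I ∧
      ∀ (M : Type) [Field M] [NumberField M] [Algebra k M], ∃ C : ℝ, ∀ x : ι → M, Sub k R x →
        x ≠ 0 → (∀ f ∈ A.I, aeval x f = 0) → aeval x Θ ≠ 0 → (fun j => aeval x (G j)) ≠ 0 ∧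
        d * logHeight x - logHeight (fun j => aeval x (G j)) ≤ ε * logHeight x + C := by
  obtain ⟨Θ, n, h1, h2, h3⟩ := gcdU A G hG hc hε R
  refine ⟨Θ, n, h1, h2, fun M _ _ _ => ?_⟩
  have : Finite (IntermediateField k M) :=
    Field.finite_intermediateField_of_exists_primitive_element k M
      (Field.exists_primitive_element k M)
  have := Fintype.ofFinite (IntermediateField k M)
  have : ∀ F : IntermediateField k M, NumberField F := fun F => NumberField.of_module_finite k F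
  choose! C hC using fun F : IntermediateField k M => h3 F
  refine ⟨∑ F : IntermediateField k M, finrank F M * |C F|, fun x ⟨F, f1, f2⟩ x0 xz xΘ => ?_⟩
  obtain ⟨y, rfl⟩ : ∃ y : ι → F, x = fun a => algebraMap F M (y a) := ⟨fun a => ⟨x a, f2 a⟩, rfl⟩
  simp only [aeval_alg, map_eq_zero, ne_eq] at xz xΘ ⊢
  obtain ⟨h4, h5⟩ := hC F f1 y (fun e => x0 (funext fun a => by rw [e]; exact map_zero _)) xz xΘ
  refine ⟨fun e => h4 (funext fun j => (map_eq_zero _).1 (congrFun e j)), ?_⟩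
  have h6 := Finset.single_le_sum (f := fun F : IntermediateField k M => finrank F M * |C F|)
    (fun _ _ => by positivity) (Finset.mem_univ F)
  have h7 := mul_le_mul_of_nonneg_left (h5.trans (add_le_add le_rfl (le_abs_self _)))
    (Nat.cast_nonneg (finrank F M))
  rw [MP_651af7_nt.Final.logHeight_algebraMap, MP_651af7_nt.Final.logHeight_algebraMap]
  linarith

theorem ht_aeval (hψ : ∀ i, (ψ i).IsHomogeneous b) (M : Type) [Field M] [NumberField M]
    [Algebra k M] : ∃ C, ∀ y : ι → M, logHeight (fun j => aeval y (ψ j)) ≤ C + b * logHeight y := by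
  simpa only [eval_map, ← aeval_def] using
    logHeight_eval_le' (p := fun j => MvPolynomial.map (algebraMap k M) (ψ j)) fun j => (hψ j).map _

/-- The tangent frame at the image point. -/
def frU {M : Type} [Field M] [Algebra k M] (ψ : κ → MvPolynomial ι k) (y : ι → M)
    (w : Fin r → ι → M) : Fin (r + 1) → κ → M :=
  Fin.cons (fun i => aeval y (ψ i)) fun j i => dP y (w j) (ψ i)

theorem hK_leU (hσ : A.LieBasis σ) {T : Type} [Fintype T] {Ψ : T → κ → MvPolynomial ι k}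
    (hΨ : ∀ t, Prp A.I ψ (Ψ t) (d + 1)) (M : Type) [Field M] [NumberField M] [Algebra k M] :
    ∃ C : ℝ, ∀ y : ι → M, y ≠ 0 → (∀ P ∈ A.I, aeval y P = 0) → (fun i => aeval y (ψ i)) ≠ 0 →
      (fun p : T × κ => aeval y (Ψ p.1 p.2)) ≠ 0 → ∃ w : Fin r → ι → M, (∀ j, w j ∈ tsp A.I y) ∧
        LinearIndependent M (Fin.cons y w : Fin (r + 1) → ι → M) ∧ (minors (frU ψ y w) ≠ 0 →
          hK (fun i => aeval y (ψ i)) (frU ψ y w) ≤ (r + 1) * (((d + 1 : ℕ) : ℝ) * logHeight y -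
            logHeight fun p : T × κ => aeval y (Ψ p.1 p.2)) + C) := by
  obtain ⟨D, hD⟩ := exists_baseChange A M
  obtain ⟨r', σ', hσ'⟩ := exists_lieBasis D.av
  have e0 : D.av.I = A.I.map (MvPolynomial.map (algebraMap k M)) := hD
  have hz : ∀ y : ι → M, (∀ P ∈ A.I, aeval y P = 0) → ∀ P ∈ D.av.I, aeval y P = 0 :=
    fun y hy => e0 ▸ zero_map.2 hy
  have ht : ∀ y : ι → M, (∀ P ∈ A.I, aeval y P = 0) → D.av.Tan y = tsp A.I y := fun y hy => by
    rw [← tsp_eq, e0, tsp_map hy]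
  obtain rfl : r' = r := by
    have h0 : A.oo M ≠ 0 := Function.ne_iff.2 ⟨A.ao, A.oo_ao.trans_ne one_ne_zero⟩
    have h1 := rank_tan hσ' h0 (hz _ AV.rep_oo.zero)
    rw [ht _ AV.rep_oo.zero, tsp_eq, rank_tan hσ h0 AV.rep_oo.zero] at h1
    omega
  obtain ⟨C, hC⟩ := hK_le hσ' (ψ := fun i => MvPolynomial.map (algebraMap k M) (ψ i))
    (Ψ := fun t i => MvPolynomial.map (algebraMap k M) (Ψ t i)) fun t =>
      ⟨fun i => ((hΨ t).hom i).map _, fun i l => by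
        rw [e0, ← map_mul, ← map_mul, ← map_sub]
        exact Ideal.mem_map_of_mem _ ((hΨ t).prp i l)⟩
  refine ⟨C, fun y y0 yz => ?_⟩
  simpa only [fr, frU, aeval_map_algebraMap, dP_map_algebraMap, eval_map, ← aeval_def, ht y yz]
    using hC y y0 (hz y yz)

theorem canonU (hσ : A.LieBasis σ) (hψ : ∀ i, (ψ i).IsHomogeneous b) (h0 : ∃ i, ψ i ∉ A.I)
    (hε : 0 < ε) (R : ℕ) : ∃ (Θ : MvPolynomial ι k) (t : ℕ), Θ.IsHomogeneous t ∧ Θ ∉ A.I ∧
      ∀ (M : Type) [Field M] [NumberField M] [Algebra k M], ∃ C : ℝ, ∀ y : ι → M, Sub k R y →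
      y ≠ 0 → (∀ P ∈ A.I, aeval y P = 0) → aeval y Θ ≠ 0 →
      (fun i => aeval y (ψ i)) ≠ 0 → ∃ w : Fin r → ι → M, (∀ j, w j ∈ tsp A.I y) ∧
        LinearIndependent M (Fin.cons y w : Fin (r + 1) → ι → M) ∧ (minors (frU ψ y w) ≠ 0 →
          hK (fun i => aeval y (ψ i)) (frU ψ y w) ≤ ε * logHeight y + C) := by
  rcases Nat.eq_zero_or_pos r with rfl | hr
  · refine ⟨1, 0, isHomogeneous_one _ _, fun h => A.tr_prime.ne_top ((Ideal.eq_top_iff_one _).2 h),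
      fun M _ _ _ => ⟨0, fun y _ hy0 hy _ _ => ?_⟩⟩
    obtain ⟨_, w, _, _, hw, hl, _⟩ := exists_frame hσ hy0 hy
    refine ⟨w, tsp_eq (A := A) y ▸ hw, hl, fun _ => ?_⟩
    have h1 := minors_zero (fun i => aeval y (ψ i)) fun j i => dP y (w j) (ψ i)
    have h2 := mul_nonneg hε.le (logHeight_nonneg y)
    rw [hK, frU, h1]
    push_cast
    linarith
  · obtain ⟨T, _, d, Ψ, hΨ, hc⟩ := exists_rep hσ hr hψ h0
    have hr1 : (0 : ℝ) < r + 1 := by positivity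
    obtain ⟨Θ, n, h1, h2, h3⟩ := gcdS A (fun p : T × κ => Ψ p.1 p.2)
      (fun p => (hΨ p.1).hom p.2) hc (div_pos hε hr1) R
    refine ⟨Θ, n, h1, h2, fun M _ _ _ => ?_⟩
    obtain ⟨C, h3⟩ := h3 M
    obtain ⟨C', h4⟩ := hK_leU hσ hΨ M
    refine ⟨(r + 1) * C + C', fun y hR hy0 hy hΘ hx => ?_⟩
    obtain ⟨h5, h6⟩ := h3 y hR hy0 hy hΘ
    obtain ⟨w, hw, hl, h7⟩ := h4 y hy0 hy hx h5
    refine ⟨w, hw, hl, fun hm => (h7 hm).trans ?_⟩
    have h8 := mul_le_mul_of_nonneg_left h6 hr1.le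
    have h9 : (r + 1 : ℝ) * (ε / (r + 1) * logHeight y + C) = ε * logHeight y + (r + 1) * C := by
      field_simp
    linarith

theorem lam_sumU (A : AV k ι) (hψ : ∀ i, (ψ i).IsHomogeneous b) {M : Type} [Field M] [NumberField M]
    [Algebra k M] {D : α → MvPolynomial κ M} (hD : ∀ j, (D j).IsHomogeneous e)
    (S : Finset (FinitePlace M)) (hε : 0 < ε) : ∃ C : ℝ, ∀ (y : ι → M) (x : κ → M) (c : M), y ≠ 0 →
      (∀ P ∈ A.I, aeval y P = 0) → x ≠ 0 → c ≠ 0 → (∀ i, aeval y (ψ i) = c * x i) →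
      (fun j => eval x (D j)) ≠ 0 →
      ∑ w : InfinitePlace M, w.mult * lam w.1 D e x + ∑ w ∈ S, lam w.1 D e x ≤
        ε * logHeight y + C := by
  obtain ⟨B, hB⟩ := exists_baseChange A M
  obtain ⟨C, hC⟩ := lam_sum B.av (ψ := fun i => MvPolynomial.map (algebraMap k M) (ψ i))
    (fun i => (hψ i).map _) hD S hε
  exact ⟨C, fun y x c y0 yz x0 c0 h => hC y x c y0
    (fun P hP => zero_map.2 yz P (hB ▸ hP)) x0 c0 fun i => (aeval_map_algebraMap M y _).trans (h i)⟩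

theorem hY_leU {T : Type} [Fintype T] {Ψ : T → κ → MvPolynomial ι k} {Y : α → MvPolynomial κ k}
    (hΨ : ∀ t i, (Ψ t i).IsHomogeneous d) (hY : ∀ j, (Y j).IsHomogeneous e) (M : Type) [Field M]
    [NumberField M] [Algebra k M] : ∃ C : ℝ,
      ∀ (y : ι → M) (x : κ → M) (s : T → M), x ≠ 0 → (∀ t i, aeval y (Ψ t i) = s t * x i) →
      (fun p : T × α => aeval y (aeval (Ψ p.1) (Y p.2))) ≠ 0 → (fun j => aeval x (Y j)) ≠ 0 ∧
        e * logHeight x - logHeight (fun j => aeval x (Y j)) ≤ ((d * e : ℕ) : ℝ) * logHeight y -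
          logHeight (fun p : T × α => aeval y (aeval (Ψ p.1) (Y p.2))) + C := by
  have h := Hy.hY_le (Ψ := fun t i => MvPolynomial.map (algebraMap k M) (Ψ t i))
    (Y := fun j => MvPolynomial.map (algebraMap k M) (Y j)) (fun t i => (hΨ t i).map _)
    fun j => (hY j).map _
  simp only [← aeval_eq_eval, trans_aev] at h
  simpa only [trans_aev, aeval_map_algebraMap] using h

theorem eps_mul {h : ℝ} (hε : 0 < ε) (a : ℕ) (h0 : 0 ≤ h) : ε / (a + 1) * (a * h) ≤ ε * h := by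
  rw [← mul_assoc]
  refine mul_le_mul_of_nonneg_right ?_ h0
  rw [div_mul_eq_mul_div, div_le_iff₀ (by positivity)]
  nlinarith

theorem partU {I : Ideal (MvPolynomial κ k)} {Y : α → MvPolynomial κ k} (A : AV k ι) (hI : Var I)
    (hs : Smooth I g) (hb : Birat I A.I) (hY : ∀ j, (Y j).IsHomogeneous e) (hc : Hy.Cod I Y g)
    (hε : 0 < ε) (R : ℕ) : ∃ (Θ : MvPolynomial κ k) (t : ℕ), Θ.IsHomogeneous t ∧ Θ ∉ I ∧
      ∀ (M : Type) [Field M] [NumberField M] [Algebra k M], ∃ C : ℝ, ∀ x : κ → M, Sub k R x →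
      x ≠ 0 → (∀ P ∈ I, aeval x P = 0) → aeval x Θ ≠ 0 → (fun j => aeval x (Y j)) ≠ 0 ∧
        e * logHeight x - logHeight (fun j => aeval x (Y j)) ≤ ε * logHeight x + C := by
  obtain ⟨φ, ψ, h, h'⟩ := hb
  obtain ⟨r, σ, hσ⟩ := exists_lieBasis A
  obtain rfl := Hy.dim_eq' hσ hI hs h h'
  obtain ⟨i, hi⟩ := h.ne
  rcases Nat.eq_zero_or_pos g with rfl | hr
  · refine ⟨1, 0, isHomogeneous_one _ _,
      fun e => hI.isPrime.ne_top ((Ideal.eq_top_iff_one _).2 e), fun M _ _ _ => ⟨0, ?_⟩⟩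
    intro x _ _ xz _
    obtain ⟨j, hj⟩ : ∃ j, aeval (fun a => 0 * x a) (Y j) ≠ 0 := by
      by_contra! hn
      exact hc M _ (zero_mul_of_hom hI.hom xz 0) hn Fin.elim0
        (algebraicIndependent_empty_type_iff.2 (algebraMap k _).injective)
    rw [aeval_mul_of_hom (hY j)] at hj
    obtain rfl : e = 0 := not_not.1 fun h0 => hj (by rw [zero_pow h0, zero_mul])
    refine ⟨Function.ne_iff.2 ⟨j, right_ne_zero_of_mul hj⟩, ?_⟩
    have h2 := mul_nonneg hε.le (logHeight_nonneg x)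
    have h3 := logHeight_nonneg fun j => aeval x (Y j)
    push_cast
    linarith
  obtain ⟨a, ha⟩ := h.hom
  obtain ⟨b, hb⟩ := h'.hom
  obtain ⟨j, hj⟩ := h'.ne
  obtain ⟨T, _, d, Ψ, hΨ, h2⟩ := exists_rep hσ hr hb ⟨i, fun e => hi (h.map _ e)⟩
  have hε' : 0 < ε / (a + 1) := by positivity
  obtain ⟨Θ, t, t1, t2, t3⟩ := gcdS A (fun p : T × α => aeval (Ψ p.1) (Y p.2))
    (fun p => (hY p.2).aeval _ (hΨ p.1).hom) (Hy.height_pull hσ hr hI hs h h' hc hΨ h2) hε' R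
  have h4 := t1.mul ((ha j).aeval ψ hb)
  refine ⟨aeval φ (Θ * aeval ψ (φ j)) * aeval φ (ψ i), _,
    (h4.aeval φ ha).mul ((hb i).aeval φ ha), fun e => (hI.isPrime.mem_or_mem e).elim
      (h'.pull A.tr_prime h4 fun e' => (A.tr_prime.mem_or_mem e').elim t2 hj) hi,
    fun M _ _ _ => ?_⟩
  obtain ⟨C₁, t3⟩ := t3 M
  obtain ⟨C₂, h3⟩ := hY_leU (fun t => (hΨ t).hom) hY M
  obtain ⟨C₃, h5⟩ := ht_aeval ha M
  refine ⟨C₁ + C₂ + ε / (a + 1) * C₃, fun x xR x0 xz xΘ => ?_⟩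
  rw [map_mul, trans_aev, map_mul, mul_ne_zero_iff, mul_ne_zero_iff] at xΘ
  obtain ⟨c, hc0, e1⟩ := h.pt x0 xz xΘ.2
  have y0 := (h.rank hI.hom A.hom h' x0 xz xΘ.2 xΘ.1.2).1
  have yz := h.zero xz
  obtain ⟨l, hl⟩ := Function.ne_iff.1 x0
  choose s e2 _ using fun t => Hy.prp_val (hΨ t).prp yz
    (Function.ne_iff.2 ⟨l, (e1 l).trans_ne (mul_ne_zero hc0 hl)⟩)
  obtain ⟨e3, e4⟩ := t3 _ (xR.map φ) y0 yz xΘ.1.1
  obtain ⟨e5, e6⟩ := h3 _ x (fun t => s t * c) x0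
    (fun t i => (e2 t i).trans (by rw [e1, mul_assoc])) e3
  have e7 := mul_le_mul_of_nonneg_left (h5 x) hε'.le
  have e8 := eps_mul hε a (logHeight_nonneg x)
  exact ⟨e5, by linarith⟩

end

end Pool.Agent.Lib.MP_651af7_nt.Un
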