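import Pool.Agent.Lib.MP_651af7_nt.Un.UpA
import Pool.Agent.Lib.MP_651af7_nt.Et.Geo
import Pool.Agent.Lib.MP_651af7_nt.Et.CovY

/-! Vojta's inequality along an unramified map, for points in an extension field. -/

namespace Pool.Agent.Lib.MP_651af7_nt.Un

open MvPolynomial Bx Et Ds Av Module Height NumberField

set_option linter.unusedSectionVars false

variable {k : Type} [Field k] [NumberField k] {ν κ ι T α : Type} [Fintype ν] [Fintype κ]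
  [Fintype ι] [Fintype α] {I₁ : Ideal (MvPolynomial ν k)} {I : Ideal (MvPolynomial κ k)}
  {J : Ideal (MvPolynomial ι k)} {π : T → κ → MvPolynomial ν k} {d g e : ℕ}
  {φ : ι → MvPolynomial ν k} {ψ : ν → MvPolynomial ι k} {ε : ℝ} {M : Type} [Field M] [Algebra k M]

theorem smooth_pt [NumberField M] (hs : Smooth I g) {x : κ → M} (x0 : x ≠ 0)
    (xz : ∀ P ∈ I, aeval x P = 0) : finrank M (tsp I x) = g + 1 := by
  let j : M →ₐ[k] AlgebraicClosure k := IsAlgClosed.lift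
  let _ : Algebra M (AlgebraicClosure k) := (j : M →+* _).toAlgebra
  have : IsScalarTower k M (AlgebraicClosure k) := .of_algebraMap_eq fun c => (j.commutes c).symm
  rw [← finrank_tsp (F := AlgebraicClosure k)]
  exact hs _ (fun e => x0 (funext fun a => (map_eq_zero _).1 (congrFun e a)))
    fun P hP => by rw [aeval_alg, xz P hP, map_zero]

theorem geoU (hπ : Cov I₁ I d π) (hI : ∀ P ∈ I, ∀ d, homogeneousComponent d P ∈ I)
    (h1 : Inv I₁ J φ ψ) (h2 : Inv J I₁ ψ φ) {x : κ → M} {y : ν → M} (y0 : y ≠ 0)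
    (yz : ∀ P ∈ I₁, aeval y P = 0) (xz : ∀ P ∈ I, aeval x P = 0) {t : T} {s : M}
    (hs : ∀ a, aeval y (π t a) = s * x a) {l : κ} (hl : aeval y (π t l) ≠ 0) {i : ν}
    (hi : aeval y (aeval φ (ψ i)) ≠ 0) {z : ι → M} (hz : z = fun j => aeval y (φ j)) (z0 : z ≠ 0)
    {j : ι} (hj : aeval z (aeval ψ (φ j)) ≠ 0) :
    (∃ c : M, c ≠ 0 ∧ ∀ a, aeval z (aeval ψ (π t a)) = c * x a) ∧ ∀ v ∈ tsp J z,
      (fun a => dP z v (aeval ψ (π t a))) ∈ tsp I x ∧ ∀ τ : M,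
      (∀ a, dP z v (aeval ψ (π t a)) = τ * aeval z (aeval ψ (π t a))) → ∃ c : M, v = c • z := by
  have s0 : s ≠ 0 := fun e => hl (by rw [hs, e, zero_mul])
  obtain ⟨b, hb⟩ := Function.ne_iff.1 y0
  obtain ⟨c, hc, e2⟩ := h1.pt y0 yz hi
  have zz := h1.zero yz
  rw [← hz] at e2 zz
  have e3 : ∀ a, aeval z (aeval ψ (π t a)) = c ^ (d + 1) * s * x a := fun a => by
    rw [bir1_aeval, funext e2, aeval_mul_of_hom (hπ.hom t a), hs, mul_assoc]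
  have c0 : c ^ (d + 1) * s ≠ 0 := mul_ne_zero (pow_ne_zero _ hc) s0
  refine ⟨⟨_, c0, e3⟩, fun v hv => ⟨?_, fun τ hτ => ?_⟩⟩
  · rw [← tsp_smul hI xz c0, ← funext e3]
    refine mem_tsp.2 fun P hP => ?_
    rw [← dP_comp, ← bir1_aeval]
    exact mem_tsp.1 hv _ (h2.map _ (hπ.map t P hP))
  · have b0 : aeval z (ψ b) ≠ 0 := (e2 b).trans_ne (mul_ne_zero hc hb)
    refine h2.inj h1 z0 zz hj hv (t := dP z v (ψ b) / aeval z (ψ b)) fun a => ?_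
    rw [div_mul_eq_mul_div, eq_div_iff b0]
    refine (hπ.inj M _ _ t l (h2.zero zz) ?_ (h2.tan hv) (fun i j => ?_) a b).symm
    · rw [funext e2, aeval_mul_of_hom (hπ.hom t l)]
      exact mul_ne_zero (pow_ne_zero _ hc) hl
    · rw [← dP_comp, ← dP_comp, ← bir1_aeval, ← bir1_aeval, hτ, hτ, mul_right_comm]

theorem coreU (A : AV k ι) (hI₁ : Var I₁) (hs₁ : Smooth I₁ g) (hb : Birat I₁ A.I) (hI : Var I)
    (hs : Smooth I g) (hπ : Cov I₁ I d π) (hε : 0 < ε) (R : ℕ) :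
    ∃ (H : MvPolynomial ν k) (t : ℕ), H.IsHomogeneous t ∧ H ∉ I₁ ∧
      ∀ (M : Type) [Field M] [NumberField M] [Algebra k M] (m e : ℕ)
      (D : Fin m → MvPolynomial κ M) (S : Finset (FinitePlace M)),
      (∀ j, (D j).IsHomogeneous e) → ∃ C : ℝ, ∀ (y : ν → M) (x : κ → M) (s : T → M), Sub k R y →
        y ≠ 0 → (∀ P ∈ I₁, aeval y P = 0) → aeval y H ≠ 0 → x ≠ 0 → (∀ P ∈ I, aeval x P = 0) →
        (∀ t i, aeval y (π t i) = s t * x i) → (fun j => eval x (D j)) ≠ 0 →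
        ∀ β : Fin (g + 1) → κ → M, LinearIndependent M β → (∀ l, β l ∈ tsp I x) →
        (∑ w : InfinitePlace M, w.mult * lam w.1 D e x + ∑ w ∈ S, lam w.1 D e x) + hK x β ≤
          ε * logHeight y + C := by
  obtain ⟨φ, ψ, h, h'⟩ := hb
  obtain ⟨r, σ, hσ⟩ := exists_lieBasis A
  obtain rfl := Hy.dim_eq' hσ hI₁ hs₁ h h'
  obtain ⟨a, ha⟩ := h.hom
  obtain ⟨b, hb⟩ := h'.hom
  obtain ⟨i, hi⟩ := h.ne
  obtain ⟨j, hj⟩ := h'.ne
  obtain ⟨t₀, l, hl⟩ := hπ.ex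
  have hε' : 0 < ε / 2 / (a + 1) := by positivity
  have hΨ := fun i => (hπ.hom t₀ i).aeval ψ hb
  obtain ⟨Θ, t, h1, h2, h3⟩ := canonU hσ hΨ ⟨l, h.pull hI₁.isPrime (hπ.hom t₀ l) hl⟩ hε' R
  have h4 := h1.mul ((ha j).aeval ψ hb)
  refine ⟨π t₀ l * (aeval φ (Θ * aeval ψ (φ j)) * aeval φ (ψ i)), _, (hπ.hom t₀ l).mul
    ((h4.aeval φ ha).mul ((hb i).aeval φ ha)), fun e => (hI₁.isPrime.mem_or_mem e).elim hl fun e =>
      (hI₁.isPrime.mem_or_mem e).elim (h'.pull A.tr_prime h4 fun e' =>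
      (A.tr_prime.mem_or_mem e').elim h2 hj) hi, fun M _ _ _ m e D S hD => ?_⟩
  obtain ⟨C₁, h3⟩ := h3 M
  obtain ⟨C₂, h5⟩ := ht_aeval ha M
  obtain ⟨C₃, h6⟩ := lam_sumU A hΨ hD S hε'
  refine ⟨C₃ + C₁ + 2 * (ε / 2 / (a + 1)) * C₂, fun y x s yR y0 yz yH x0 xz hx xD β β1 β2 => ?_⟩
  rw [map_mul, map_mul, trans_aev, map_mul, mul_ne_zero_iff, mul_ne_zero_iff,
    mul_ne_zero_iff] at yH
  have z0 := (h.rank hI₁.hom A.hom h' y0 yz yH.2.2 yH.2.1.2).1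
  have zz := h.zero yz
  obtain ⟨⟨c, hc, e1⟩, e0⟩ := geoU hπ hI.hom h h' y0 yz xz (hx t₀) yH.1 yH.2.2 rfl z0 yH.2.1.2
  have e : (fun a => aeval (fun j => aeval y (φ j)) (aeval ψ (π t₀ a))) = c • x := funext e1
  have e' := e.trans_ne (smul_ne_zero hc x0)
  obtain ⟨w, w1, w2, w3⟩ := h3 _ (yR.map φ) z0 zz yH.2.1.1 e'
  have h7 : LinearIndependent M (frU (fun a => aeval ψ (π t₀ a)) _ w) :=
    indep_of_inj e' (fun v hv => (e0 v hv).2) w1 w2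
  obtain ⟨c', hc', h9⟩ := minors_prop (smooth_pt hs x0 xz) h7 β1 (Fin.cases (e.symm ▸
    Submodule.smul_mem _ c (tsp_self hI.hom xz) : (fun a => aeval _ (aeval ψ (π t₀ a))) ∈ _)
    fun l => (e0 _ (w1 l)).1) β2
  have e4 := w3 (minors_ne_zero h7)
  rw [hK, e, logHeight_smul_eq_logHeight _ hc, ← logHeight_smul_eq_logHeight _ hc', ← h9] at e4
  have e5 := h6 _ x c z0 zz x0 hc e1 xD
  have e7 := mul_le_mul_of_nonneg_left (h5 y) hε'.le
  have e8 := eps_mul (half_pos hε) a (logHeight_nonneg y)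
  rw [hK]
  linarith

theorem core_YU [Fintype T] {Y : α → MvPolynomial κ k} (B : AV k ι) (hI : Var I₁)
    (hs : Smooth I₁ g) (hb : Birat I₁ B.I) (h : Cov I₁ I d π) (hY : ∀ j, (Y j).IsHomogeneous e)
    (hc : Hy.Cod I Y g) (hε : 0 < ε) (R : ℕ) :
    ∃ (H : MvPolynomial ν k) (t : ℕ), H.IsHomogeneous t ∧ H ∉ I₁ ∧
      ∀ (M : Type) [Field M] [NumberField M] [Algebra k M], ∃ C : ℝ,
      ∀ (y : ν → M) (x : κ → M) (s : T → M), Sub k R y → y ≠ 0 → (∀ P ∈ I₁, aeval y P = 0) →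
        aeval y H ≠ 0 → x ≠ 0 → (∀ t i, aeval y (π t i) = s t * x i) →
        (fun j => aeval x (Y j)) ≠ 0 ∧
        e * logHeight x - logHeight (fun j => aeval x (Y j)) ≤ ε * logHeight y + C := by
  obtain ⟨H, t, h1, h2, h3⟩ := partU B hI hs hb
    (fun p : T × α => (hY p.2).aeval (π p.1) (h.hom p.1)) (h.cod hc) hε R
  refine ⟨H, t, h1, h2, fun M _ _ _ => ?_⟩
  obtain ⟨C, h3⟩ := h3 M
  obtain ⟨C', h4⟩ := hY_leU h.hom hY M
  refine ⟨C + C', fun y x s yR y0 yz yH x0 hx => ?_⟩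
  obtain ⟨h5, h6⟩ := h3 y yR y0 yz yH
  obtain ⟨h7, h8⟩ := h4 y x s x0 hx h5
  exact ⟨h7, by linarith⟩

end Pool.Agent.Lib.MP_651af7_nt.Un
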