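import Pool.Agent.Lib.MP_651af7_nt.Un.UpA
import Pool.Agent.Lib.MP_651af7_nt.Un.Norm
import Pool.Agent.Lib.MP_651af7_nt.Et.Setup

/-! Points of bounded degree lift to points of bounded degree of the cover. -/

namespace Pool.Agent.Lib.MP_651af7_nt.Un

open MvPolynomial Bx Et Ds Av Module Height

set_option linter.unusedSectionVars false

theorem sub_of_deg {K M ι : Type} [Field K] [NumberField K] [Field M] [NumberField M] [Algebra K M]
    [Fintype ι] {y : ι → M} {n : ℕ} (h : ∀ a, (minpoly ℚ (y a)).natDegree ≤ n) :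
    Sub K ((n + 1) ^ Fintype.card ι) y := by
  classical
  refine ⟨.adjoin K (Finset.univ.image y : Finset M), (finrank_adjoin_le (m := n + 1) _
    fun x hx => ?_).trans (Nat.pow_le_pow_right n.succ_pos
      (Finset.card_image_le.trans_eq Finset.card_univ)),
    fun a => IntermediateField.subset_adjoin _ _ (by simp)⟩
  obtain ⟨a, -, rfl⟩ := Finset.mem_image.1 hx
  exact ((Polynomial.natDegree_le_of_dvd (minpoly.dvd_map_of_isScalarTower ℚ K (y a))
    (Polynomial.map_ne_zero (minpoly.ne_zero (Algebra.IsIntegral.isIntegral _)))).trans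
      Polynomial.natDegree_map_le).trans ((h a).trans n.le_succ)

section

variable {k Ω : Type} [Field k] [NumberField k] [Field Ω] [Algebra k Ω] [IsAlgClosure k Ω]
  {ν κ : Type} [Fintype ν] [Fintype κ] {I' : Ideal (MvPolynomial ν Ω)}
  {I : Ideal (MvPolynomial κ Ω)} {f : (ν → Ω) → κ → Ω}

theorem ex_comp (K : IntermediateField k Ω) [FiniteDimensional k K] (r : ℕ) : ∃ n : ℕ,
    ∀ (L : Type) [Field L] [NumberField L] [Algebra k L] [Algebra L Ω] [IsScalarTower k L Ω],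
      finrank k L ≤ r → ∃ (K' : IntermediateField L Ω) (_ : NumberField K'),
        finrank ℚ K' ≤ n ∧ ∀ z : K, (z : Ω) ∈ K' := by
  obtain ⟨s, hs⟩ : K.FG := IntermediateField.essFiniteType_iff.1 inferInstance
  refine ⟨finrank ℚ k * r * (∑ z ∈ s, (minpoly k z).natDegree) ^ s.card, fun L _ _ _ _ _ hL => ?_⟩
  have : Algebra.IsAlgebraic L Ω := Algebra.IsAlgebraic.tower_top (K := k) L
  have := IntermediateField.finiteDimensional_adjoin (K := L) (S := (s : Set Ω))
    fun x _ => Algebra.IsIntegral.isIntegral x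
  have := NumberField.of_module_finite L (IntermediateField.adjoin L (s : Set Ω))
  refine ⟨.adjoin L (s : Set Ω), this, ?_, fun z => (IntermediateField.adjoin_le_iff
    (T := (IntermediateField.adjoin L (s : Set Ω)).restrictScalars k)).2
      (IntermediateField.subset_adjoin L _) (hs.ge z.2)⟩
  rw [← finrank_mul_finrank ℚ L, ← finrank_mul_finrank ℚ k L]
  refine Nat.mul_le_mul (Nat.mul_le_mul_left _ hL) (finrank_adjoin_le s fun x hx => ?_)
  exact ((Polynomial.natDegree_le_of_dvd (minpoly.dvd_map_of_isScalarTower k L x)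
    (Polynomial.map_ne_zero (minpoly.ne_zero (Algebra.IsIntegral.isIntegral _)))).trans
      Polynomial.natDegree_map_le).trans
    (Finset.single_le_sum (f := fun z => (minpoly k z).natDegree) (fun _ _ => Nat.zero_le _) hx)

theorem lift_ptU (h : Etale I' I f) (hI' : Var I') (hp : I.IsPrime)
    (hI : ∀ P ∈ I, ∀ d, homogeneousComponent d P ∈ I) {b : ν} (hb : X b ∉ I') (r : ℕ) :
    ∃ (K₀ : IntermediateField k Ω) (_ : FiniteDimensional k K₀) (Θ : MvPolynomial κ Ω) (t a : ℕ),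
      Θ.IsHomogeneous t ∧ Θ ∉ I ∧ ∀ (K : IntermediateField k Ω) [NumberField K], K₀ ≤ K → ∃ R : ℕ,
      ∀ (L : Type) [Field L] [NumberField L] [Algebra k L] [Algebra L Ω] [IsScalarTower k L Ω],
      finrank k L ≤ r → ∃ (M : IntermediateField L Ω) (_ : NumberField M) (_ : Algebra K M)
      (_ : IsScalarTower K M Ω) (C : ℝ), ∀ x : κ → L, x ≠ 0 →
        (∀ P ∈ I, eval (fun i => algebraMap L Ω (x i)) P = 0) →
        eval (fun i => algebraMap L Ω (x i)) Θ ≠ 0 → ∃ y : ν → M, y b = 1 ∧ Sub K R y ∧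
        Ov I' f (fun i => algebraMap L Ω (x i)) (fun a => algebraMap M Ω (y a)) ∧
        logHeight y ≤ a * logHeight (fun i => algebraMap L M (x i)) + C := by
  have : IsAlgClosed Ω := IsAlgClosure.isAlgClosed k
  have : CharZero Ω := charZero_of_injective_algebraMap (algebraMap k Ω).injective
  choose n e c h1 h2 _ h3 using fun a => alg_eq h hI' hI hb (isHomogeneous_X Ω a)
  obtain ⟨K₀, _, -, h4⟩ := ex_field (⊥ : IntermediateField k Ω)
    fun p : Σ a, Fin (n a + 1) => c p.1 p.2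
  refine ⟨K₀, inferInstance, ∏ a, c a (Fin.last _), _, ∑ a, e a,
    IsHomogeneous.prod _ _ _ fun a _ => h1 a _, fun e => ?_, fun K _ hK => ?_⟩
  · obtain ⟨a, -, ha⟩ := (Ideal.IsPrime.prod_mem_iff (hp := hp)).1 e
    exact h2 a ha
  obtain ⟨N, hN⟩ := ex_comp K r
  refine ⟨(N * ∑ a, n a + 1) ^ Fintype.card ν, fun L _ _ _ _ _ hL => ?_⟩
  obtain ⟨K', _, k1, k2⟩ := hN L hL
  have : IsAlgClosure L Ω := ⟨inferInstance, Algebra.IsAlgebraic.tower_top (K := k) L⟩
  obtain ⟨L₁, _, h5⟩ := chevalley (k := L) h hI' K' (∑ a, n a)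
  have h4' : ∀ E : IntermediateField L Ω, K' ≤ E → ∀ a i, ∃ P : MvPolynomial κ E,
      MvPolynomial.map (algebraMap E Ω) P = c a i := fun E hE a i => by
    obtain ⟨P, hP⟩ := h4 K hK ⟨a, i⟩
    exact ⟨MvPolynomial.map ((algebraMap K Ω).codRestrict E fun z => hE (k2 z)) P,
      (map_map _ _ P).trans hP⟩
  have ev : ∀ (E : IntermediateField L Ω) (x : κ → L) (P : MvPolynomial κ E),
      eval (fun i => algebraMap L Ω (x i)) (MvPolynomial.map (algebraMap E Ω) P) =
        algebraMap E Ω (eval (fun i => algebraMap L E (x i)) P) := fun E x P => by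
    simp only [← ev_map, ← IsScalarTower.algebraMap_apply]
  have := NumberField.of_module_finite L ↥(L₁ ⊔ K')
  let _ : Algebra K ↥(L₁ ⊔ K') :=
    ((algebraMap K Ω).codRestrict _ fun z => le_sup_right (a := L₁) (k2 z)).toAlgebra
  choose c' hc' using h4' (L₁ ⊔ K') le_sup_right
  obtain ⟨C, hC⟩ := ht_lift (c := c') (e := e) fun a i =>
    Ds.wh_of_map (Ω := Ω) ((hc' a i).symm ▸ h1 a i)
  refine ⟨L₁ ⊔ K', this, _, .of_algebraMap_eq fun _ => rfl, C, fun x x0 xz xΘ => ?_⟩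
  have x0' : (fun i => algebraMap L Ω (x i)) ≠ 0 := fun e =>
    x0 (funext fun a => (map_eq_zero _).1 (congrFun e a))
  rw [map_prod, Finset.prod_ne_zero_iff] at xΘ
  obtain ⟨y₀, hy₀⟩ : ∃ y, Ov I' f (fun i => algebraMap L Ω (x i)) y := h.onto _ x0' xz
  have b0 : y₀ b ≠ 0 := fun e => hy₀.1 (funext fun a => by
    have h6 := h3 a _ _ x0' hy₀
    rw [Fin.sum_univ_castSucc, Finset.sum_eq_zero fun i _ => by
      rw [e, one_mul, Fin.val_castSucc, zero_pow (Nat.sub_pos_of_lt i.2).ne', mul_zero, mul_zero],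
      zero_add,
      Fin.val_last, Nat.sub_self, mul_zero, pow_zero, mul_one, eval_X] at h6
    exact (pow_eq_zero_iff'.1 ((mul_eq_zero.1 h6).resolve_left (xΘ a (Finset.mem_univ a)))).1)
  have hy := h.ov_smul hI' hy₀ (inv_ne_zero b0)
  obtain ⟨y, e1⟩ : ∃ y, y = (y₀ b)⁻¹ • y₀ := ⟨_, rfl⟩
  have y1 : y b = 1 := e1 ▸ inv_mul_cancel₀ b0
  rw [← e1] at hy
  have h6 : ∀ a, ∑ i, eval (fun i => algebraMap L Ω (x i)) (c a i) * y a ^ (i : ℕ) = 0 :=
    fun a => by simpa only [y1, one_pow, mul_one, eval_X] using h3 a _ _ x0' hy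
  have h9 : ∀ a, ∃ p : Polynomial K', p ≠ 0 ∧ p.natDegree ≤ ∑ a, n a ∧
      Polynomial.aeval (y a) p = 0 := fun a => by
    choose c₀ hc₀ using h4' K' le_rfl a
    refine ⟨∑ i : Fin (n a + 1), Polynomial.C (eval (fun i => algebraMap L K' (x i)) (c₀ i)) *
      Polynomial.X ^ (i : ℕ), fun e => xΘ a (Finset.mem_univ a) ?_, ?_, ?_⟩
    · have h8 := congrArg (Polynomial.coeff · (n a)) e
      simp only [Polynomial.finsetSum_coeff, Polynomial.coeff_C_mul_X_pow,
        Polynomial.coeff_zero] at h8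
      rw [Finset.sum_eq_single (Fin.last _) (fun i _ hi => if_neg fun e => hi (Fin.ext e.symm))
        (by simp), if_pos (Fin.val_last _).symm] at h8
      rw [← hc₀, ev, h8, map_zero]
    · exact Polynomial.natDegree_sum_le_of_forall_le _ _ fun i _ =>
        (Polynomial.natDegree_C_mul_X_pow_le _ _).trans ((Nat.lt_succ_iff.1 i.2).trans
          (Finset.single_le_sum (fun _ _ => Nat.zero_le _) (Finset.mem_univ a)))
    · simp only [map_sum, map_mul, map_pow, Polynomial.aeval_C, Polynomial.aeval_X, ← ev, hc₀]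
      exact h6 a
  have h7 := h5 x y x0 hy ⟨b, y1⟩ h9
  refine ⟨fun a => ⟨y a, le_sup_left (b := K') (h7 a)⟩, Subtype.ext y1, sub_of_deg fun a => ?_, hy,
    hC _ _ (fun a e => xΘ a (Finset.mem_univ a) ?_) fun a => (map_eq_zero (algebraMap _ Ω)).1 ?_⟩
  · obtain ⟨p, p1, p2, p3⟩ := h9 a
    rw [← minpoly.algebraMap_eq (B' := Ω) (algebraMap ↥(L₁ ⊔ K') Ω).injective]
    exact (deg_le p1 p3).trans (Nat.mul_le_mul k1 p2)
  · rw [← hc', ev, e, map_zero]
  · simp only [map_sum, map_mul, map_pow, ← ev, hc']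
    exact h6 a

end

variable {k : Type} [Field k] [NumberField k] {ν κ ι : Type} [Fintype ν] [Fintype κ] [Fintype ι]
  {I' : Ideal (MvPolynomial ν (AlgebraicClosure k))} {I : Ideal (MvPolynomial κ k)}
  {f : (ν → AlgebraicClosure k) → κ → AlgebraicClosure k} {g : ℕ}

theorem up_eq {K : Type} [Field K] [Algebra k K] [Algebra K (AlgebraicClosure k)]
    [IsScalarTower k K (AlgebraicClosure k)] :
    up K I = I.map (MvPolynomial.map (algebraMap k K)) := by
  refine le_antisymm (fun P hP => ?_) map_le_up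
  obtain ⟨l, hl⟩ := Module.Projective.exists_dual_eq_one K (one_ne_zero (α := AlgebraicClosure k))
  have h1 := trCw_mem l (map_map_ideal (R := K) (S := AlgebraicClosure k) I ▸ mem_dn.1 hP)
  have h2 : trCw l (MvPolynomial.map (algebraMap K (AlgebraicClosure k)) P) = P := by
    ext μ
    rw [coeff_trCw, coeff_map, Algebra.algebraMap_eq_smul_one, map_smul, hl, smul_eq_mul, mul_one]
  rwa [h2] at h1

theorem setupU (hI : Var I) (hs : Smooth I g) (hI' : Var I')
    (h : Etale I' (I.map (MvPolynomial.map (algebraMap k (AlgebraicClosure k)))) f)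
    {J : Ideal (MvPolynomial ι (AlgebraicClosure k))} {A : Type} [AddCommGroup A]
    {co : A → ι → AlgebraicClosure k} (hJ : Pts J co) (hm : HasModel co) (hb : Birat I' J) (r : ℕ) :
    ∃ (K : IntermediateField k (AlgebraicClosure k)) (_ : NumberField K) (m : ℕ)
      (B : AV K (Fin m)) (I₁ : Ideal (MvPolynomial ν K)) (T : Type) (_ : Fintype T) (d : ℕ)
      (π : T → κ → MvPolynomial ν K) (a R : ℕ), Var I₁ ∧ Smooth I₁ g ∧ Birat I₁ B.I ∧
      Cov I₁ (up K I) d π ∧ ∀ (H : MvPolynomial ν K) (t : ℕ), H.IsHomogeneous t → H ∉ I₁ →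
      ∃ (Θ : MvPolynomial κ k) (t' : ℕ), Θ.IsHomogeneous t' ∧ Θ ∉ I ∧
      ∀ (L : Type) [Field L] [NumberField L] [Algebra k L], finrank k L ≤ r →
      ∃ (M : Type) (_ : Field M) (_ : NumberField M) (_ : Algebra k M) (_ : Algebra K M)
        (_ : Algebra L M) (_ : IsScalarTower k K M) (_ : IsScalarTower k L M) (C : ℝ),
        ∀ x : κ → L, x ≠ 0 → (∀ P ∈ I, aeval x P = 0) → aeval x Θ ≠ 0 →
        ∃ (y : ν → M) (s : T → M), Sub K R y ∧ y ≠ 0 ∧ (∀ P ∈ I₁, aeval y P = 0) ∧ aeval y H ≠ 0 ∧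
        (∀ t i, aeval y (π t i) = s t * algebraMap L M (x i)) ∧
        logHeight y ≤ a * logHeight (fun i => algebraMap L M (x i)) + C := by
  obtain ⟨m, J', co', Φ, h1, h2, h3, h4⟩ := hm
  have : Nonempty A := ⟨0⟩
  obtain ⟨φ, ψ, i1, i2⟩ := hb.trans hI'.isPrime hJ.prime h1.prime hJ.exists_X (hJ.birat h1 h3 h4)
  obtain ⟨b, hb⟩ : ∃ b, X b ∉ I' := by
    by_contra! hc
    obtain ⟨i, hi⟩ := i1.ne
    exact hi (i1.map _ (by simpa only [aeval_X] using i2.map _ (hc i)))
  obtain ⟨T, hT, d, π, c1, c2⟩ := h.family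
  obtain ⟨L, _, Θ₁, t₁, a, l1, l2, l3⟩ :=
    lift_ptU (k := k) h hI' hI.prime (Ds.hom_map hI.hom) hb r
  obtain ⟨s, hs'⟩ : I'.FG := IsNoetherian.noetherian I'
  obtain ⟨s', hs''⟩ : J'.FG := IsNoetherian.noetherian J'
  obtain ⟨K₁, _, k1, f1⟩ := ex_field L
    (Sum.elim (Sum.elim (Subtype.val : s → _) φ) fun p : T × κ => π p.1 p.2)
  obtain ⟨K₂, _, k2, f2⟩ := ex_field K₁ (Sum.elim (Subtype.val : s' → _) ψ)
  obtain ⟨K, _, k3, f3⟩ := ex_field K₂ fun p : Fin m × Fin m => Φ p.1 p.2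
  have : NumberField K := NumberField.of_module_finite k K
  choose φ' hφ using fun j => f1 K (k2.trans k3) (.inl (.inr j))
  choose π' hπ using fun t i => f1 K (k2.trans k3) (.inr (t, i))
  choose ψ' hψ using fun i => f2 K k3 (.inr i)
  choose Φ' hΦ using fun a b => f3 K le_rfl (a, b)
  obtain rfl : φ = fun j => MvPolynomial.map (algebraMap K _) (φ' j) := (funext hφ).symm
  obtain rfl : ψ = fun i => MvPolynomial.map (algebraMap K _) (ψ' i) := (funext hψ).symm
  obtain rfl : π = fun t i => MvPolynomial.map (algebraMap K _) (π' t i) :=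
    (funext₂ hπ).symm
  obtain rfl : Φ = fun a b => MvPolynomial.map (algebraMap K _) (Φ' a b) := (funext₂ hΦ).symm
  have m1 := dn_map (K := K) hs'.symm fun P hP => f1 K (k2.trans k3) (.inl (.inl ⟨P, hP⟩))
  have m2 := dn_map (K := K) hs''.symm fun P hP => f2 K k3 (.inl ⟨P, hP⟩)
  obtain ⟨B, hB⟩ := exists_model h1 h2 m2
  obtain ⟨R, hR⟩ := l3 K ((k1.trans k2).trans k3)
  refine ⟨K, this, m, B, dn K I', T, hT, d, π', a, R, var_dn hI' m1,
    smooth_dn (fun y y0 hy => ?_) m1, ⟨φ', ψ', hB ▸ inv_dn i1, hB ▸ inv_dn i2⟩,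
    cov_dn h hI' hI ⟨b, hb⟩ m1 c1 c2, fun H t hH H0 => ?_⟩
  · have h5 := (zero_map (K := AlgebraicClosure k)).1 (h.map y y0 hy).2
    rw [h.rank y0 hy, tsp_map h5]
    exact hs _ (h.map y y0 hy).1 h5
  obtain ⟨Θ₂, t₂, n1, n2, n3⟩ := alg_ne h hI' (Ds.hom_map hI.hom) hb (hH.map _) H0
  obtain ⟨Θ, t', u1, u2, u3⟩ := exists_norm hI.hom hI.prime (l1.mul n1)
    fun e => (hI.prime.mem_or_mem e).elim l2 n2
  refine ⟨Θ, _, u1, u2, fun L _ _ _ hL => ?_⟩
  let j : L →ₐ[k] AlgebraicClosure k := IsAlgClosed.lift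
  let _ : Algebra L (AlgebraicClosure k) := (j : L →+* _).toAlgebra
  have : IsScalarTower k L (AlgebraicClosure k) := .of_algebraMap_eq fun c => (j.commutes c).symm
  obtain ⟨M, _, _, _, C, hC⟩ := hR L hL
  have ev : ∀ (y : ν → M) (P : MvPolynomial ν K),
      eval (fun a => algebraMap M (AlgebraicClosure k) (y a)) (MvPolynomial.map (algebraMap K _) P) =
        algebraMap M _ (aeval y P) := fun y P => by rw [eval_map, ← aeval_def, aeval_alg]
  refine ⟨M, _, ‹_›, inferInstance, ‹_›, inferInstance, .of_algebraMap_eq fun c =>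
    (algebraMap M (AlgebraicClosure k)).injective (IsScalarTower.algebraMap_apply K M _
      (algebraMap k K c)), inferInstance, C, fun x x0 xz xΘ => ?_⟩
  have xz' : ∀ P ∈ I, aeval (fun i => algebraMap L (AlgebraicClosure k) (x i)) P = 0 :=
    fun P hP => by rw [aeval_alg, xz P hP, map_zero]
  have h5 := mt (u3 _ _ xz') (by rwa [aeval_alg, map_eq_zero])
  rw [map_mul, mul_eq_zero, not_or] at h5
  obtain ⟨y, y1, yR, y2, y3⟩ := hC x x0 ((zero_map (K := AlgebraicClosure k)).2 xz') h5.1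
  have x0' : (fun i => algebraMap L (AlgebraicClosure k) (x i)) ≠ 0 := fun e =>
    x0 (funext fun a => (map_eq_zero _).1 (congrFun e a))
  obtain ⟨i₀, hi₀⟩ := Function.ne_iff.1 x0
  refine ⟨y, fun t => aeval y (π' t i₀) / algebraMap L M (x i₀), yR, Function.ne_iff.2
    ⟨b, y1.trans_ne one_ne_zero⟩, fun P hP => (map_eq_zero _).1 ((ev y P).symm.trans
      (y2.2.1 _ hP)), fun e => n3 _ _ x0' y2 (by rw [y1, map_one]) h5.2
        (by rw [ev, e, map_zero]), fun t i => ?_, y3⟩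
  obtain ⟨c, hc⟩ := (c1 t).ov x0' y2
  rw [div_mul_eq_mul_div, eq_div_iff ((map_ne_zero _).2 hi₀)]
  refine (algebraMap M (AlgebraicClosure k)).injective ?_
  rw [map_mul, map_mul, ← ev, ← ev, hc, hc, ← IsScalarTower.algebraMap_apply,
    ← IsScalarTower.algebraMap_apply, mul_right_comm]

end Pool.Agent.Lib.MP_651af7_nt.Un
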