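import Pool.Agent.Lib.MP_651af7_nt.Un.UpB
import Pool.Agent.Lib.MP_651af7_nt.Un.UpC
import Pool.Agent.Lib.MP_651af7_nt.Et.Main

/-! Vojta's inequality for points of bounded degree, with a constant that depends on the field. -/

namespace Pool.Agent.Lib.MP_651af7_nt.Un

open MvPolynomial Bx Et Ds Av Module Height NumberField

variable {k : Type} [Field k] [NumberField k] {ν κ ι α : Type} [Fintype ν] [Fintype κ] [Fintype ι]
  [Fintype α] {I' : Ideal (MvPolynomial ν (AlgebraicClosure k))} {I : Ideal (MvPolynomial κ k)}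
  {f : (ν → AlgebraicClosure k) → κ → AlgebraicClosure k} {g e : ℕ} {ε : ℝ}
  {Y : α → MvPolynomial κ k}

theorem of_modelU (hI : Var I) (hs : Smooth I g) (hI' : Var I')
    (h : Etale I' (I.map (MvPolynomial.map (algebraMap k (AlgebraicClosure k)))) f)
    {J : Ideal (MvPolynomial ι (AlgebraicClosure k))} {A : Type} [AddCommGroup A]
    {co : A → ι → AlgebraicClosure k} (hJ : Pts J co) (hm : HasModel co) (hb : Birat I' J)
    (hε : 0 < ε) (r : ℕ) : ∃ (Θ : MvPolynomial κ k) (t : ℕ), Θ.IsHomogeneous t ∧ Θ ∉ I ∧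
      ∀ (L : Type) [Field L] [NumberField L] [Algebra k L], finrank k L ≤ r →
      ∀ (m e : ℕ) (D : Fin m → MvPolynomial κ L) (S : Finset (FinitePlace L)),
      (∀ j, (D j).IsHomogeneous e) → ∃ C : ℝ, ∀ x : κ → L, x ≠ 0 → (∀ P ∈ I, aeval x P = 0) →
        aeval x Θ ≠ 0 → (fun j => eval x (D j)) ≠ 0 →
        ∀ β : Fin (g + 1) → κ → L, LinearIndependent L β → (∀ l, β l ∈ tsp I x) →
        (∑ w : InfinitePlace L, w.mult * lam w.1 D e x + ∑ w ∈ S, lam w.1 D e x) + hK x β ≤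
          ε * logHeight x + C := by
  obtain ⟨K, _, m, B, I₁, T, _, d, π, a, R, h1, h2, h3, h4, h5⟩ := setupU hI hs hI' h hJ hm hb r
  obtain ⟨H, t, t1, t2, t3⟩ := coreU B h1 h2 h3 (var_up hI) (smooth_up hs) h4
    (show 0 < ε / (a + 1) by positivity) R
  obtain ⟨Θ, t', u1, u2, u3⟩ := h5 H t t1 t2
  refine ⟨Θ, t', u1, u2, fun L _ _ _ hL m e D S hD => ?_⟩
  obtain ⟨M, _, _, _, _, _, _, _, C₀, u3⟩ := u3 L hL
  obtain ⟨S', hT⟩ := sum_fin (K := M) (ι := κ) (α := Fin m) S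
  obtain ⟨C, hC⟩ := t3 M m e (fun j => MvPolynomial.map (algebraMap L M) (D j)) S'
    fun j => (hD j).map _
  have hn : (0 : ℝ) < finrank L M := Nat.cast_pos.2 finrank_pos
  have hne : ∀ {α : Type} {y : α → L}, y ≠ 0 → (fun a => algebraMap L M (y a)) ≠ 0 := fun h h' =>
    h (funext fun a => (map_eq_zero _).1 (congrFun h' a))
  refine ⟨(ε / (a + 1) * C₀ + C) / finrank L M, fun x x0 xz xΘ xD β b1 b2 => ?_⟩
  obtain ⟨y, s, yR, y0, yz, yH, ys, yh⟩ := u3 x x0 xz xΘ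
  have xz' : ∀ P ∈ I, aeval (fun a => algebraMap L M (x a)) P = 0 := fun P hP => by
    rw [aeval_alg, xz P hP, map_zero]
  have e2 := hC y _ s yR y0 yz yH (hne x0) (up_eq (K := K) (I := I) ▸ zero_map.2 xz') ys
    (by simpa only [ev_map] using hne xD)
    (fun l a => algebraMap L M (β l a)) (linearIndependent_algebraMap_comp_iff.2 b1) fun l => by
      rw [up_eq, tsp_map xz']
      exact (tsp_alg (IsScalarTower.toAlgHom k L M)).2 (b2 l)
  have e3 := eps_le hε a (logHeight_nonneg _) yh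
  rw [sum_inf D e x0 xD, hT D e x x0 xD, hK_alg] at e2
  rw [MP_651af7_nt.Final.logHeight_algebraMap] at e3
  refine le_of_mul_le_mul_left ?_ hn
  rw [mul_add _ (ε * _), mul_div_cancel₀ _ hn.ne']
  linarith

theorem part_modelU (hI : Var I) (hs : Smooth I g) (hI' : Var I')
    (h : Etale I' (I.map (MvPolynomial.map (algebraMap k (AlgebraicClosure k)))) f)
    {J : Ideal (MvPolynomial ι (AlgebraicClosure k))} {A : Type} [AddCommGroup A]
    {co : A → ι → AlgebraicClosure k} (hJ : Pts J co) (hm : HasModel co) (hb : Birat I' J)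
    (hY : ∀ j, (Y j).IsHomogeneous e) (hc : Hy.Cod I Y g) (hε : 0 < ε) (r : ℕ) :
    ∃ (Θ : MvPolynomial κ k) (t : ℕ), Θ.IsHomogeneous t ∧ Θ ∉ I ∧
      ∀ (L : Type) [Field L] [NumberField L] [Algebra k L], finrank k L ≤ r → ∃ C : ℝ,
      ∀ x : κ → L, x ≠ 0 → (∀ P ∈ I, aeval x P = 0) → aeval x Θ ≠ 0 →
        (fun j => aeval x (Y j)) ≠ 0 ∧
        e * logHeight x - logHeight (fun j => aeval x (Y j)) ≤ ε * logHeight x + C := by
  obtain ⟨K, _, m, B, I₁, T, _, d, π, a, R, h1, h2, h3, h4, h5⟩ := setupU hI hs hI' h hJ hm hb r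
  obtain ⟨H, t, t1, t2, t3⟩ := core_YU B h1 h2 h3 h4 (fun j => (hY j).map _) (cod_up hc)
    (show 0 < ε / (a + 1) by positivity) R
  obtain ⟨Θ, t', u1, u2, u3⟩ := h5 H t t1 t2
  refine ⟨Θ, t', u1, u2, fun L _ _ _ hL => ?_⟩
  obtain ⟨M, _, _, _, _, _, _, _, C₀, u3⟩ := u3 L hL
  obtain ⟨C, t3⟩ := t3 M
  have hn : (0 : ℝ) < finrank L M := Nat.cast_pos.2 finrank_pos
  refine ⟨(ε / (a + 1) * C₀ + C) / finrank L M, fun x x0 xz xΘ => ?_⟩
  obtain ⟨y, s, yR, y0, yz, yH, ys, yh⟩ := u3 x x0 xz xΘ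
  obtain ⟨e1, e2⟩ := t3 y _ s yR y0 yz yH
    (fun e => x0 (funext fun a => (map_eq_zero _).1 (congrFun e a))) ys
  have e3 := eps_le hε a (logHeight_nonneg _) yh
  simp only [aeval_map_algebraMap, aeval_alg, MP_651af7_nt.Final.logHeight_algebraMap] at e1 e2 e3
  refine ⟨fun e => e1 (funext fun j => by rw [congrFun e j, Pi.zero_apply, map_zero]; rfl),
    le_of_mul_le_mul_left ?_ hn⟩
  rw [mul_add _ (ε * _), mul_div_cancel₀ _ hn.ne']
  linarith

end Pool.Agent.Lib.MP_651af7_nt.Un
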